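import Pool.Agent.helper21.GN.Genus
import Pool.Agent.helper21.WV.Clique

/-!
# Definitions for the general theorem (helper44, MP_11236d_an, stage 3)
-/

namespace WildG

open Polynomial WildRat WildS WildV

/-- The total weight of the ramification is at most `2 n - 2`: the sum of `a - gcd a b` over all
ordered pairs `(a, b)` of indices in the same fibre, over all fibres.  If `C_A` is irreducible, this
says that its genus is at most one. -/
def TW (C : RF) : Prop := ∀ T : Finset P1, ∑ c ∈ T, wt (pas C c) ≤ 2 * C.n - 2

/-- Normalised: `A(∞) = ∞`, infinity is not a critical value. -/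
structure NormG (A : RF) : Prop where
  monic : A.P.Monic
  lt : A.Q.natDegree < A.P.natDegree
  two : 2 ≤ A.n
  unram : ∀ z : P1, A.val z = none → A.e z = 1

end WildG
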