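import Pool.Agent.helper44.Gen.CntF
import Pool.Agent.helper21.WV.Normal1

/-!
# Normalisation, and the first theorem (helper44, MP_11236d_an, stage 3)
-/

namespace WildG

open Polynomial WildRat WildS WildV

/-- Normalisation.  Proof: copy the proof of `normalise1` (WV/Normal1.lean; it has all the parts):
`A3 = T ∘ A ∘ S`, `hval`, `he`, `hnn`.  The bijection of the values is `τ = (Normal_T c0).val`; the fibre
of `A3` over `τ c` is the image of the fibre of `A` over `c` under the bijection `S'.val`, with the same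
indices, so `pas A3 (τ c) = pas A c` (`fibP`, `Multiset.map_map`). -/
theorem normaliseG (A : RF) (hn : 2 ≤ A.n) :
    ∃ A' : RF, NormG A' ∧ A'.n = A.n ∧
      (∃ τ : P1 → P1, Function.Bijective τ ∧ ∀ c, pas A' (τ c) = pas A c) ∧
      ∀ (K : Type) [Field K] [Algebra ℂ K] (φ : E →ₐ[ℂ] K), FinC φ →
        ((∃ φ ψ : E →ₐ[ℂ] K, φ ≠ ψ ∧ φ (elt A) = ψ (elt A)) ↔
          ∃ φ ψ : E →ₐ[ℂ] K, φ ≠ ψ ∧ φ (elt A') = ψ (elt A')) := by
  have hn1 : 1 ≤ A.n := by omega
  obtain ⟨z0, c0, hz0, hc0⟩ := Normal_exists_point A hn1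
  obtain ⟨hSe, hSb, S', hS'n, hS'S, hSS', hSapp⟩ := moebius_facts (Normal_S z0) (Normal_S_n z0)
  obtain ⟨hTe, hTb, T', hT'n, hT'T, hTT', hTapp⟩ := moebius_facts (Normal_T c0) (Normal_T_n c0)
  have hSn : 1 ≤ (Normal_S z0).n := by rw [Normal_S_n]
  have hTn : 1 ≤ (Normal_T c0).n := by rw [Normal_T_n]
  have hS'n1 : 1 ≤ S'.n := by rw [hS'n]
  have hT'n1 : 1 ≤ T'.n := by rw [hT'n]
  obtain ⟨A1, hA1, hA1n⟩ := exists_comp A (Normal_S z0) hn1 hSn
  obtain ⟨A2, hA2, hA2n⟩ := exists_comp (Normal_T c0) A1 hTn hA1n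
  obtain ⟨A3, hA3, hmon, hA3n⟩ := Normal_monic A2 hA2n
  obtain ⟨-, hn1', hv1, he1⟩ := comp_facts hA1 hA1n hSn
  obtain ⟨-, hn2', hv2, he2⟩ := comp_facts hA2 hA2n hA1n
  obtain ⟨hn3, hv3, he3⟩ := congr_elt hA3 hA3n hA2n
  have hval : ∀ z, A3.val z = (Normal_T c0).val (A.val ((Normal_S z0).val z)) := by
    intro z; rw [hv3, hv2, hv1]
  have he : ∀ z, A3.e z = A.e ((Normal_S z0).val z) := by
    intro z; rw [he3, he2, he1, hTe, hSe, one_mul, mul_one]
  have hnn : A3.n = A.n := by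
    rw [hn3, hn2', hn1', Normal_S_n, Normal_T_n]; ring
  have hlt : A3.Q.natDegree < A3.P.natDegree := by
    have h1 : A3.val none = none := by
      rw [hval, Normal_S_none, hz0, Normal_T_some]
    have h2 : A3.Q.coeff A3.n = 0 := by
      by_contra h3
      simp only [RF.val] at h1
      rw [if_neg h3] at h1
      exact absurd h1 (by simp)
    have hQ0 := A3.Q_ne_zero hA3n
    by_contra hcon
    push Not at hcon
    have h3 : A3.n = A3.Q.natDegree := max_eq_right hcon
    rw [h3, coeff_natDegree] at h2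
    exact hQ0 (leadingCoeff_eq_zero.1 h2)
  refine ⟨A3, ⟨hmon, hlt, ?_, ?_⟩, hnn, ⟨(Normal_T c0).val, hTb, ?_⟩, ?_⟩
  · rw [hnn]; exact hn
  · intro z hz
    rw [he]
    apply hc0
    apply hTb.1
    rw [← hval, hz, Normal_T_some]
  · intro c
    have h1 : fibP A c = (fibP A3 ((Normal_T c0).val c)).map ⟨(Normal_S z0).val, hSb.1⟩ := by
      ext w
      rw [mem_fibP hn1, Finset.mem_map]
      constructor
      · intro hw
        obtain ⟨z, hz⟩ := hSb.2 w
        refine ⟨z, ?_, hz⟩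
        rw [mem_fibP hA3n, hval, hz, hw]
      · rintro ⟨z, hz, rfl⟩
        rw [mem_fibP hA3n, hval] at hz
        exact hTb.1 hz
    unfold pas
    rw [h1, Finset.map_val, Multiset.map_map]
    apply Multiset.map_congr rfl
    intro z _
    exact he z
  · intro K _ _ _ _
    have hkey : ∀ (χ χ' : E →ₐ[ℂ] K), χ RatFunc.X = (Normal_S z0).app (χ' RatFunc.X) →
        χ' (elt A3) = (Normal_T c0).app (χ (elt A)) := by
      intro χ χ' hχ
      have hU := coord_nonConst χ'
      rw [hA3, coord_elt, coord_elt, hχ, hA2.app_eq hU, hA1.app_eq hU]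
    constructor
    · rintro ⟨φ, ψ, hne, h⟩
      have hφ := coord_nonConst φ
      have hψ := coord_nonConst ψ
      obtain ⟨φ', hφ'⟩ := exists_subst (S'.app_nonConst hS'n1 hφ)
      obtain ⟨ψ', hψ'⟩ := exists_subst (S'.app_nonConst hS'n1 hψ)
      refine ⟨φ', ψ', ?_, ?_⟩
      · intro heq
        apply coord_ne hne
        rw [← (hSapp K _ hφ).1, ← (hSapp K _ hψ).1, ← hφ', ← hψ', heq]
      · rw [hkey φ φ' (by rw [hφ', (hSapp K _ hφ).1]), hkey ψ ψ' (by rw [hψ', (hSapp K _ hψ).1]), h]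
    · rintro ⟨φ, ψ, hne, h⟩
      have hφ := coord_nonConst φ
      have hψ := coord_nonConst ψ
      obtain ⟨φ', hφ'⟩ := exists_subst ((Normal_S z0).app_nonConst hSn hφ)
      obtain ⟨ψ', hψ'⟩ := exists_subst ((Normal_S z0).app_nonConst hSn hψ)
      refine ⟨φ', ψ', ?_, ?_⟩
      · intro heq
        apply coord_ne hne
        rw [← (hSapp K _ hφ).2, ← (hSapp K _ hψ).2, ← hφ', ← hψ', heq]
      · rw [hkey φ' φ hφ', hkey ψ' ψ hψ'] at h
        have k1 : NonConst (φ' (elt A)) := by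
          rw [coord_elt]
          exact A.app_nonConst hn1 (coord_nonConst φ')
        have k2 : NonConst (ψ' (elt A)) := by
          rw [coord_elt]
          exact A.app_nonConst hn1 (coord_nonConst ψ')
        rw [← (hTapp K _ k1).2, ← (hTapp K _ k2).2, h]

/-- Proof: reindex the sum by the bijection `τ`. -/
theorem TW_congr {A A' : RF} (hn : A'.n = A.n) {τ : P1 → P1} (hτ : Function.Bijective τ)
    (h : ∀ c, pas A' (τ c) = pas A c) (hT : TW A) : TW A' := by
  intro T
  have h1 := hT (T.map (Equiv.ofBijective τ hτ).symm.toEmbedding)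
  rw [Finset.sum_map] at h1
  rw [hn]
  refine le_trans (le_of_eq (Finset.sum_congr rfl fun c _ => ?_)) h1
  rw [← h]
  have h2 : τ ((Equiv.ofBijective τ hτ).symm c) = c := (Equiv.ofBijective τ hτ).apply_symm_apply c
  exact congrArg (fun x => wt (pas A' x)) h2.symm

/-- **A numerical condition for wildness.**

Proof.  Normalise `C` (`normaliseG`, `TW_congr`); `exists_genusLe` gives a pair of coordinates on a
field with `2g - 2 ≤ 0`, so `C` has a pair on this field (`normaliseG`), so `A` has one (`comp_pair`);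
`wild_of_pair` (GN/Genus.lean; `finC_all`, `GenusLe.other`). -/
theorem wild_of_TW {A B C : RF} (hn : 1 ≤ A.n) (h : A.IsComp B C) (hC : 2 ≤ C.n) (hT : TW C) :
    A.Wild := by
  obtain ⟨C', hN, hn', ⟨τ, hτ, hpas⟩, hpair⟩ := normaliseG C hC
  have hT' : TW C' := TW_congr hn' hτ hpas hT
  obtain ⟨K, i1, i2, φ, ψ, hφ, hne, heq, hg⟩ := exists_genusLe hN hT'
  obtain ⟨φ1, ψ1, hne1, heq1⟩ := (hpair K φ hφ).2 ⟨φ, ψ, hne, heq⟩
  exact wild_of_pair hn (finC_all φ hφ φ1) (hg.other hφ) hne1 (comp_pair h heq1)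

end WildG
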