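import Pool.Agent.helper44.Gen.InvC
import Pool.Agent.helper44.Gen.NormalG

/-!
# The number of even indices of `C` with irreducible `C_C` (helper44, MP_11236d_an, stage 4)
-/

namespace WildG

open Polynomial WildRat WildS WildV

/-- **The number of even indices**, normalised version.

Proof.  `exists_Irr`, `Irr.swap`: `τ`.  For every critical value `t0` and `a ∈ fC C t0` with even index choose a
fixed place over `(a, a)` (`Irr.fixed`); different `a` give different places (`Pl.value_unique`); the same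
`a` cannot lie over two values.  `F` = the set of these places, `F.card` = the left sum.
`z = φ (elt C)` is not constant and fixed by `τ` (`τ (φ (elt C)) = ψ (elt C)`: `τ ∘ φ = ψ` by
`coord_ext`), `exists_Fx_coord`: `χ`, `(Fx τ).val.comp χ` is finite by `finC_all`.  `inv_rh`: `S0`.
`ram_invariance` (`φ := φ`, `ψ := χL`, `T0 := S0`): `S ⊇ S0` with
`∑ S (ram χL - 1) - 2 deg χL = ∑ S (ram φ - 1) - 2 deg φ`; with `ram_pos` the left side is at least
`- 4 + F.card`.  `cmp_le` for `φ` and `S`, with `fam_ord` for `Fs = {mu0}` and `CntF_wt` as in the proof of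
`exists_genusLe` (Gen/CntF.lean): `∑ S (ram φ - 1) ≤ ∑ t0 ∈ crit C, wt (pas C (some t0))`.
`deg φ = C.n - 1`. -/
theorem even_leN {C : RF} (hC : NormG C) (h3 : 3 ≤ C.n) (hD : DT C) :
    (∑ t0 ∈ crit C, ((fC C t0).filter fun a => Even (C.e (some a))).card) + 2 * C.n ≤
      ∑ t0 ∈ crit C, wt (pas C (some t0)) + 6 := by
  classical
  have hn := CntF_n hC
  obtain ⟨K, i1, i2, φ, ψ, mu0, h⟩ := exists_Irr hC h3 hD
  obtain ⟨τ, h1, h2, hinv⟩ := h.swap
  set A0 : Finset ℂ := (crit C).biUnion fun t0 =>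
    (fC C t0).filter fun a => Even (C.e (some a)) with hA0
  have hcard : A0.card = ∑ t0 ∈ crit C, ((fC C t0).filter fun a => Even (C.e (some a))).card := by
    rw [hA0, Finset.card_biUnion]
    intro t1 _ t2 _ hne
    change Disjoint _ _
    rw [Finset.disjoint_left]
    intro a ha1 ha2
    have e1 := (mem_fC hn).1 (Finset.mem_filter.1 ha1).1
    have e2 := (mem_fC hn).1 (Finset.mem_filter.1 ha2).1
    exact hne (Option.some_injective _ (e1.symm.trans e2))
  have hex : ∀ a ∈ A0, ∃ Q, Q ∈ PT h.fin ψ a a ∧ plc τ Q = Q := by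
    intro a ha
    obtain ⟨t0, ht0, ha'⟩ := Finset.mem_biUnion.1 ha
    obtain ⟨ha1, ha2⟩ := Finset.mem_filter.1 ha'
    obtain ⟨Q, hQ1, hQ2⟩ := h.fixed h1 h2 ha1 ha2
    exact ⟨Q, hQ1, hQ2⟩
  choose f hf1 hf2 using hex
  set F : Finset (Pl K) := A0.attach.image fun a => f a.1 a.2 with hF
  have hFcard : F.card = A0.card := by
    rw [hF, Finset.card_image_of_injective, Finset.card_attach]
    rintro ⟨a, ha⟩ ⟨b, hb⟩ hab
    have k1 := ((mem_PT h.fin).1 (hf1 a ha)).1
    have k2 := ((mem_PT h.fin).1 (hf1 b hb)).1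
    change f a ha = f b hb at hab
    rw [← hab] at k2
    exact Subtype.ext ((f a ha).value_unique k1 k2)
  have hcomp : (τ.toAlgHom.comp φ) = ψ := coord_ext h1
  have hz : τ (φ (elt C)) = φ (elt C) := by
    have k1 : τ (φ (elt C)) = (τ.toAlgHom.comp φ) (elt C) := rfl
    rw [k1, hcomp]
    exact h.eqn.symm
  have hc : NonConst (φ (elt C)) := by
    rw [coord_elt]
    exact C.app_nonConst hn (coord_nonConst φ)
  obtain ⟨χ, hχ⟩ := exists_Fx_coord hz hc
  have hfin : FinC ((Fx τ).val.comp χ) := finC_all φ h.fin _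
  obtain ⟨S0, hS0⟩ := inv_rh hinv ⟨φ RatFunc.X, by rw [h1]; exact (coord_ne h.ne).symm⟩ hfin F
    (by
      intro Q hQ
      obtain ⟨a, _, rfl⟩ := Finset.mem_image.1 hQ
      exact hf2 a.1 a.2)
  obtain ⟨S, hSS, hS⟩ := ram_invariance (φ := φ) (ψ := (Fx τ).val.comp χ) h.fin S0
  have hmono : ∑ Q ∈ S0, (ram ((Fx τ).val.comp χ) Q - 1) ≤
      ∑ Q ∈ S, (ram ((Fx τ).val.comp χ) Q - 1) := by
    refine Finset.sum_le_sum_of_subset_of_nonneg hSS fun P _ _ => ?_
    have := ram_pos hfin P
    omega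
  have hle := cmp_le hC h.fin h.mudeg h.eqn S
  rw [h.mu] at hle
  have hR : ∑ t0 ∈ crit C, ∑ a ∈ fC C t0, ∑ b ∈ fC C t0,
        ((C.e (some b) : ℚ) - Nat.gcd (C.e (some a)) (C.e (some b))) / C.e (some a) *
          ((plE a).ord (mu0.eval (algebraMap ℂ E b)) : ℤ) =
      ∑ t0 ∈ crit C, ((wt (pas C (some t0)) : ℕ) : ℚ) := by
    refine Finset.sum_congr rfl fun t0 _ => ?_
    rw [CntF_wt hC t0]
    refine Finset.sum_congr rfl fun a ha => ?_
    refine Finset.sum_congr rfl fun b hb => ?_
    have h4 := fam_ord hC (Fs := {mu0}) (by rw [Finset.prod_singleton]; exact h.gg) ha hb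
    rw [Finset.sum_singleton] at h4
    rw [h4]
    have hea : (C.e (some a) : ℚ) ≠ 0 := by
      have := C.one_le_e hn (some a)
      exact_mod_cast (by omega : C.e (some a) ≠ 0)
    by_cases hab : a = b
    · subst hab
      rw [Nat.gcd_self, sub_self, zero_div, zero_mul]
    · rw [if_neg hab, sub_zero]
      push_cast
      rw [div_mul_cancel₀ _ hea]
  rw [hR] at hle
  have hle' : ∑ P ∈ S, (ram φ P - 1) ≤ ((∑ t0 ∈ crit C, wt (pas C (some t0)) : ℕ) : ℤ) := by
    exact_mod_cast hle
  have hdeg : (deg φ : ℤ) + 1 = C.n := by exact_mod_cast h.deg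
  have hfc : (F.card : ℤ) =
      ((∑ t0 ∈ crit C, ((fC C t0).filter fun a => Even (C.e (some a))).card : ℕ) : ℤ) := by
    rw [hFcard, hcard]
  have hfinal : ((∑ t0 ∈ crit C, ((fC C t0).filter fun a => Even (C.e (some a))).card : ℕ) : ℤ) +
      2 * (C.n : ℤ) ≤ ((∑ t0 ∈ crit C, wt (pas C (some t0)) : ℕ) : ℤ) + 6 := by
    rw [← hfc]
    linarith
  exact_mod_cast hfinal

/-- `DT` in terms of pairs of coordinates.

Proof.  Forward: `DT_deg`.  Backward: `GG C = (T - x) G`; an irreducible factor `F` of `G`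
(`exists_pair`'s proof in WV/DTFacts.lean) gives a pair with `mu` associated to `F`, so
`F.natDegree = C.n - 1 = G.natDegree`, and `G` is associated to `F`. -/
theorem DT_iff {C : RF} (hn : 2 ≤ C.n) : DT C ↔
    ∀ (K : Type) [Field K] [Algebra ℂ K] (φ ψ : E →ₐ[ℂ] K), FinC φ → φ ≠ ψ →
      φ (elt C) = ψ (elt C) → (mu φ (ψ RatFunc.X)).natDegree + 1 = C.n := by
  have hn1 : 1 ≤ C.n := by omega
  constructor
  · intro hC K _ _ φ ψ hφ hne h
    exact DT_deg hn1 hC hφ hne h
  · intro hall
    have hroot : (X - Polynomial.C RatFunc.X : E[X]) ∣ GG C := by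
      rw [dvd_iff_isRoot, IsRoot.def]
      exact GG_root C hn1
    obtain ⟨G, hG⟩ := hroot
    have hG0 : G ≠ 0 := by
      rintro rfl
      rw [mul_zero] at hG
      exact Gauss_GG_ne C hn1 hG
    have hdeg : C.n = 1 + G.natDegree := by
      rw [← GG_natDegree C hn1, hG, natDegree_mul (X_sub_C_ne_zero _) hG0, natDegree_X_sub_C]
    have hGu : ¬ IsUnit G := by
      intro hu
      have := natDegree_eq_zero_of_isUnit hu
      omega
    obtain ⟨F, hF, hFG⟩ := WfDvdMonoid.exists_irreducible_factor hGu hG0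
    obtain ⟨K, i1, i2, φ, ψ, h1, h2, h3, h4⟩ := exists_factor_pair C hn1 hF
      (by rw [hG]; exact mul_dvd_mul_left _ hFG)
    have h5 : (mu φ (ψ RatFunc.X)).natDegree = F.natDegree :=
      natDegree_eq_of_degree_eq (degree_eq_degree_of_associated h4)
    have h6 := hall K φ ψ h1 h2 h3
    obtain ⟨H, hH⟩ := hFG
    have hH0 : H ≠ 0 := by
      rintro rfl
      rw [mul_zero] at hH
      exact hG0 hH
    have h7 : G.natDegree = F.natDegree + H.natDegree := by
      rw [hH, natDegree_mul hF.ne_zero hH0]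
    have h8 : H.natDegree = 0 := by omega
    have h9 : IsUnit H := by
      rw [isUnit_iff_degree_eq_zero, degree_eq_natDegree hH0, h8]
      rfl
    refine ⟨G, ?_, hG⟩
    have h10 : Associated F G := by
      rw [hH]
      exact associated_mul_unit_right _ _ h9
    exact h10.irreducible hF

/-- Change of the base coordinate: one inequality. -/
private theorem InvD_base_le {K : Type} [Field K] [Algebra ℂ K] {φ φ' : E →ₐ[ℂ] K}
    (hφ : FinC φ) {α : E →ₐ[ℂ] E} (hα : φ = φ'.comp α) (u : K) :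
    (mu φ' u).natDegree ≤ (mu φ u).natDegree := by
  obtain ⟨hm, -⟩ := mu_pos φ hφ u
  obtain ⟨-, hr⟩ := Clique_mu φ hφ u
  have h1 : ((mu φ u).map α.toRingHom).Monic := hm.map _
  have h2 : mu φ' u ∣ (mu φ u).map α.toRingHom := by
    have h3 : eval₂ φ'.toRingHom u ((mu φ u).map α.toRingHom) = 0 := by
      rw [eval₂_map, eval₂_eq_eval_map]
      have h4 : φ'.toRingHom.comp α.toRingHom = φ.toRingHom := by
        rw [hα]
        rfl
      rw [h4]
      exact hr
    generalize (mu φ u).map α.toRingHom = p at h3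
    unfold mu
    let := φ'.toRingHom.toAlgebra
    exact minpoly.dvd E u h3
  calc (mu φ' u).natDegree ≤ ((mu φ u).map α.toRingHom).natDegree :=
        natDegree_le_of_dvd h2 h1.ne_zero
    _ = (mu φ u).natDegree := hm.natDegree_map _

/-- Change of the generator: one inequality. -/
private theorem InvD_gen_le {K : Type} [Field K] [Algebra ℂ K] {φ : E →ₐ[ℂ] K}
    (hφ : FinC φ) (M : RF) (v : K) :
    (mu φ (M.app v)).natDegree ≤ (mu φ v).natDegree := by
  unfold mu
  let := φ.toRingHom.toAlgebra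
  have : FiniteDimensional E K := hφ
  have hv : IsIntegral E v := Algebra.IsIntegral.isIntegral v
  have hpol : ∀ p : ℂ[X], aeval v p ∈ IntermediateField.adjoin E ({v} : Set K) := by
    intro p
    have h1 : aeval v p = aeval v (p.map (algebraMap ℂ E)) := by
      rw [aeval_def, aeval_def, eval₂_map]
      congr 1
      ext c
      exact (φ.commutes c).symm
    rw [h1]
    exact IntermediateField.algebra_adjoin_le_adjoin E {v}
      (aeval_mem_adjoin_singleton (R := E) v (p := p.map (algebraMap ℂ E)))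
  have hmem : M.app v ∈ IntermediateField.adjoin E ({v} : Set K) := by
    unfold RF.app
    exact div_mem (hpol _) (hpol _)
  have h2 : minpoly E (⟨M.app v, hmem⟩ : IntermediateField.adjoin E ({v} : Set K)) =
      minpoly E (M.app v) :=
    (minpoly.algebraMap_eq (algebraMap (IntermediateField.adjoin E ({v} : Set K)) K).injective
      (⟨M.app v, hmem⟩ : IntermediateField.adjoin E ({v} : Set K))).symm
  rw [← h2, ← IntermediateField.adjoin.finrank hv]
  exact minpoly.natDegree_le _

/-- Normalisation of a function with irreducible `C_C`.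

Proof.  Copy the proof of `normaliseG` (Gen/NormalG.lean).  `DT A'` by `DT_iff`: given a pair `φ'`, `ψ'` for
`A3` on `K`, the pair `φ`, `ψ` for `A` (with `φ X = S(φ' X)`, `S` a Moebius transformation) has
`(mu φ (ψ X)).natDegree = A.n - 1`; the degree of `mu φ (ψ X)` is the degree of `ℂ(φ X, ψ X)` over `ℂ(φ X)`,
and `ℂ(φ X) = ℂ(φ' X)`, `ℂ(φ X, ψ X) = ℂ(φ' X, ψ' X)`.  (In terms of `mu`: `mu (φ.comp α) u` for an
automorphism `α` of `E` is `(mu φ u).map α⁻¹`, of the same degree, `minpoly` and `RingEquiv`; and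
`mu φ (M.app u)` for a Moebius map `M` has the degree of `E(M u) = E(u)`: `IntermediateField.adjoin`
of `u` and of `M.app u` agree, `IntermediateField.adjoin.finrank`.) -/
theorem normaliseD (A : RF) (hn : 2 ≤ A.n) (hD : DT A) :
    ∃ A' : RF, NormG A' ∧ A'.n = A.n ∧ DT A' ∧
      ∃ τ : P1 → P1, Function.Bijective τ ∧ ∀ c, pas A' (τ c) = pas A c := by
  have hn1 : 1 ≤ A.n := by omega
  obtain ⟨z0, c0, hz0, hc0⟩ := Normal_exists_point A hn1
  obtain ⟨hSe, hSb, S', hS'n, hS'S, hSS', hSapp⟩ := moebius_facts (Normal_S z0) (Normal_S_n z0)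
  obtain ⟨hTe, hTb, T', hT'n, hT'T, hTT', hTapp⟩ := moebius_facts (Normal_T c0) (Normal_T_n c0)
  have hSn : 1 ≤ (Normal_S z0).n := by rw [Normal_S_n]
  have hTn : 1 ≤ (Normal_T c0).n := by rw [Normal_T_n]
  have hS'n1 : 1 ≤ S'.n := by rw [hS'n]
  have hT'n1 : 1 ≤ T'.n := by rw [hT'n]
  obtain ⟨A1, hA1, hA1n⟩ := exists_comp A (Normal_S z0) hn1 hSn
  obtain ⟨A2, hA2, hA2n⟩ := exists_comp (Normal_T c0) A1 hTn hA1n
  obtain ⟨A3, hA3, hmon, hA3n⟩ := Normal_monic A2 hA2n
  obtain ⟨-, hn1', hv1, he1⟩ := comp_facts hA1 hA1n hSn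
  obtain ⟨-, hn2', hv2, he2⟩ := comp_facts hA2 hA2n hA1n
  obtain ⟨hn3, hv3, he3⟩ := congr_elt hA3 hA3n hA2n
  have hval : ∀ z, A3.val z = (Normal_T c0).val (A.val ((Normal_S z0).val z)) := by
    intro z; rw [hv3, hv2, hv1]
  have he : ∀ z, A3.e z = A.e ((Normal_S z0).val z) := by
    intro z; rw [he3, he2, he1, hTe, hSe, one_mul, mul_one]
  have hnn : A3.n = A.n := by
    rw [hn3, hn2', hn1', Normal_S_n, Normal_T_n]; ring
  have hlt : A3.Q.natDegree < A3.P.natDegree := by
    have h1 : A3.val none = none := by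
      rw [hval, Normal_S_none, hz0, Normal_T_some]
    have h2 : A3.Q.coeff A3.n = 0 := by
      by_contra h3
      simp only [RF.val] at h1
      rw [if_neg h3] at h1
      exact absurd h1 (by simp)
    have hQ0 := A3.Q_ne_zero hA3n
    by_contra hcon
    push Not at hcon
    have h3 : A3.n = A3.Q.natDegree := max_eq_right hcon
    rw [h3, coeff_natDegree] at h2
    exact hQ0 (leadingCoeff_eq_zero.1 h2)
  refine ⟨A3, ⟨hmon, hlt, ?_, ?_⟩, hnn, ?_, (Normal_T c0).val, hTb, ?_⟩
  · rw [hnn]; exact hn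
  · intro z hz
    rw [he]
    apply hc0
    apply hTb.1
    rw [← hval, hz, Normal_T_some]
  · rw [DT_iff (by rw [hnn]; exact hn)]
    intro K _ _ φ' ψ' hφ' hne h
    have hφ'N := coord_nonConst φ'
    have hψ'N := coord_nonConst ψ'
    obtain ⟨φ, hφ⟩ := exists_subst ((Normal_S z0).app_nonConst hSn hφ'N)
    obtain ⟨ψ, hψ⟩ := exists_subst ((Normal_S z0).app_nonConst hSn hψ'N)
    have hkey : ∀ (χ χ' : E →ₐ[ℂ] K), χ RatFunc.X = (Normal_S z0).app (χ' RatFunc.X) →
        χ' (elt A3) = (Normal_T c0).app (χ (elt A)) := by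
      intro χ χ' hχ
      have hU := coord_nonConst χ'
      rw [hA3, coord_elt, coord_elt, hχ, hA2.app_eq hU, hA1.app_eq hU]
    have hne' : φ ≠ ψ := by
      intro heq
      apply coord_ne hne
      rw [← (hSapp K _ hφ'N).2, ← (hSapp K _ hψ'N).2, ← hφ, ← hψ, heq]
    have heqA : φ (elt A) = ψ (elt A) := by
      rw [hkey φ φ' hφ, hkey ψ ψ' hψ] at h
      have k1 : NonConst (φ (elt A)) := by
        rw [coord_elt]
        exact A.app_nonConst hn1 (coord_nonConst φ)
      have k2 : NonConst (ψ (elt A)) := by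
        rw [coord_elt]
        exact A.app_nonConst hn1 (coord_nonConst ψ)
      rw [← (hTapp K _ k1).2, ← (hTapp K _ k2).2, h]
    have hφF : FinC φ := finC_all φ' hφ' φ
    have h1 := (DT_iff hn).1 hD K φ ψ hφF hne' heqA
    obtain ⟨α, hα⟩ := exists_subst ((Normal_S z0).app_nonConst hSn
      (coord_nonConst (AlgHom.id ℂ E)))
    obtain ⟨β, hβ⟩ := exists_subst (S'.app_nonConst hS'n1 (coord_nonConst (AlgHom.id ℂ E)))
    have hαc : φ = φ'.comp α := by
      refine coord_ext ?_
      rw [hφ, AlgHom.comp_apply, hα, app_map]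
      rfl
    have hβc : φ' = φ.comp β := by
      refine coord_ext ?_
      rw [AlgHom.comp_apply, hβ, app_map, AlgHom.id_apply, hφ]
      exact (hSapp K _ hφ'N).2.symm
    have h2 : (mu φ (ψ RatFunc.X)).natDegree = (mu φ (ψ' RatFunc.X)).natDegree := by
      refine le_antisymm ?_ ?_
      · rw [hψ]
        exact InvD_gen_le hφF _ _
      · have h3 := InvD_gen_le hφF S' (ψ RatFunc.X)
        rw [hψ, (hSapp K _ hψ'N).2] at h3
        rw [hψ]
        exact h3
    have h4 : (mu φ (ψ' RatFunc.X)).natDegree = (mu φ' (ψ' RatFunc.X)).natDegree :=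
      le_antisymm (InvD_base_le hφ' hβc _) (InvD_base_le hφF hαc _)
    rw [hnn, ← h4, ← h2]
    exact h1
  · intro c
    have h1 : fibP A c = (fibP A3 ((Normal_T c0).val c)).map ⟨(Normal_S z0).val, hSb.1⟩ := by
      ext w
      rw [mem_fibP hn1, Finset.mem_map]
      constructor
      · intro hw
        obtain ⟨z, hz⟩ := hSb.2 w
        refine ⟨z, ?_, hz⟩
        rw [mem_fibP hA3n, hval, hz, hw]
      · rintro ⟨z, hz, rfl⟩
        rw [mem_fibP hA3n, hval] at hz
        exact hTb.1 hz
    unfold pas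
    rw [h1, Finset.map_val, Multiset.map_map]
    apply Multiset.map_congr rfl
    intro z _
    exact he z

/-- A fibre with all indices one has no weight. -/
private theorem InvD_wt_ones {L : Multiset ℕ} (h : ∀ e ∈ L, e = 1) :
    wt L = 0 ∧ L.countP Even = 0 := by
  constructor
  · unfold wt
    rw [Multiset.sum_eq_zero_iff]
    intro x hx
    obtain ⟨a, ha, rfl⟩ := Multiset.mem_map.1 hx
    rw [Multiset.sum_eq_zero_iff]
    intro y hy
    obtain ⟨b, hb, rfl⟩ := Multiset.mem_map.1 hy
    rw [h a ha, h b hb]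
    rfl
  · rw [Multiset.countP_eq_zero]
    intro e he
    rw [h e he]
    decide

open Classical in
/-- **The number of even indices of a function with irreducible `C_C`.**

Proof.  `normaliseD` and `even_leN`.  The fibre over `∞` and over the noncritical values of `A'` consist
of ones: they contribute nothing to both sides.  The critical values of `A'` (finite, `crit A'`,
`mem_crit`) correspond under `τ` to elements of `R`.  `pas_countP`: the number of even elements of
`pas A' (some t0)` is the card of the filter (`pasF_eq`, `Multiset.countP_map`). -/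
theorem even_le {C : RF} (h3 : 3 ≤ C.n) (hD : DT C) (R : Finset P1)
    (hR : ∀ z, C.e z ≠ 1 → C.val z ∈ R) :
    (∑ c ∈ R, (pas C c).countP Even) + 2 * C.n ≤ ∑ c ∈ R, wt (pas C c) + 6 := by
  have hn1 : 1 ≤ C.n := by omega
  obtain ⟨A, hN, hAn, hDA, τ, hτ, hpas⟩ := normaliseD C (by omega) hD
  have hA1 : 1 ≤ A.n := by rw [hAn]; exact hn1
  have hmain := even_leN hN (by rw [hAn]; exact h3) hDA
  have hcount : ∀ t0, ((fC A t0).filter fun a => Even (A.e (some a))).card =
      (pas A (some t0)).countP Even := by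
    intro t0
    rw [pasF_eq hA1 hN.lt]
    unfold pasF
    rw [Multiset.countP_map]
    rfl
  have hsum : ∀ g : Multiset ℕ → ℕ, (∀ L : Multiset ℕ, (∀ e ∈ L, e = 1) → g L = 0) →
      ∑ c ∈ R, g (pas C c) = ∑ t0 ∈ crit A, g (pas A (some t0)) := by
    intro g hg
    have e1 : ∑ c ∈ R, g (pas C c) = ∑ c ∈ R.map ⟨τ, hτ.1⟩, g (pas A c) := by
      rw [Finset.sum_map]
      refine Finset.sum_congr rfl fun c _ => ?_
      change _ = g (pas A (τ c))
      rw [hpas]
    have e2 : ∑ t0 ∈ crit A, g (pas A (some t0)) =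
        ∑ c ∈ (crit A).map ⟨some, Option.some_injective ℂ⟩, g (pas A c) := by
      rw [Finset.sum_map]
      rfl
    rw [e1, e2]
    symm
    refine Finset.sum_subset ?_ ?_
    · intro c' hc'
      obtain ⟨t0, ht0, rfl⟩ := Finset.mem_map.1 hc'
      obtain ⟨a, ha1, ha2⟩ := (mem_crit hA1).1 ht0
      obtain ⟨c, hc⟩ := hτ.2 (some t0)
      rw [Finset.mem_map]
      refine ⟨c, ?_, hc⟩
      have k1 : A.e (some a) ∈ pas A (some t0) := by
        unfold pas
        exact Multiset.mem_map.2 ⟨some a, (mem_fibP hA1).2 ha1, rfl⟩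
      rw [← hc, hpas] at k1
      unfold pas at k1
      obtain ⟨z, hz, hze⟩ := Multiset.mem_map.1 k1
      have k2 : C.val z = c := (mem_fibP hn1).1 hz
      rw [← k2]
      apply hR
      rw [hze]
      exact ha2
    · intro c' _ hc'
      apply hg
      intro e he
      unfold pas at he
      obtain ⟨z, hz, rfl⟩ := Multiset.mem_map.1 he
      have k1 : A.val z = c' := (mem_fibP hA1).1 hz
      by_contra hcon
      cases c' with
      | none => exact hcon (hN.unram z k1)
      | some t0 =>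
        cases z with
        | none =>
          exact hcon (hN.unram none (Quad_val_none A hN.lt))
        | some a =>
          apply hc'
          rw [Finset.mem_map]
          exact ⟨t0, (mem_crit hA1).2 ⟨a, k1, hcon⟩, rfl⟩
  rw [hsum (fun L => L.countP Even) (fun L hL => (InvD_wt_ones hL).2),
    hsum wt (fun L hL => (InvD_wt_ones hL).1), ← hAn]
  rw [Finset.sum_congr rfl fun t0 _ => hcount t0] at hmain
  exact hmain

end WildG
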