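import Pool.Agent.helper21.GN.Genus

/-!
# Function fields with `2g - 2 ≤ 0`: isomorphisms (helper44, MP_11236d_an, stage 3)
-/

namespace WildG

open Polynomial WildRat WildS WildV

variable {K : Type} [Field K] [Algebra ℂ K]

/-- If the value of `χ` at `X` is in the range of `ζ`, the range of `χ` is. -/
theorem Iso_range {χ ζ : E →ₐ[ℂ] K} {y : E} (h : χ RatFunc.X = ζ y) (p : E) :
    ∃ r : E, χ p = ζ r := by
  have hden : χ (algebraMap ℂ[X] E p.denom) ≠ 0 := by
    rw [Ne, map_eq_zero_iff χ (coord_inj χ), FaithfulSMul.algebraMap_eq_zero_iff]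
    exact p.denom_ne_zero
  refine ⟨aeval y p.num / aeval y p.denom, ?_⟩
  have h1 : χ p = χ (algebraMap ℂ[X] E p.num) / χ (algebraMap ℂ[X] E p.denom) := by
    rw [← map_div₀, RatFunc.num_div_denom]
  rw [h1, map_div₀, coord_poly, coord_poly, h, Polynomial.aeval_algHom_apply,
    Polynomial.aeval_algHom_apply]

/-- The coordinate `1 / (x - a)`. -/
theorem Iso_coord (χ : E →ₐ[ℂ] K) (a : ℂ) : ∃ χ' : E →ₐ[ℂ] K,
    χ' RatFunc.X = (χ RatFunc.X - algebraMap ℂ K a)⁻¹ ∧
    (∀ p : E, ∃ r : E, χ p = χ' r) ∧ ∀ r : E, ∃ p : E, χ' r = χ p := by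
  have hn : NonConst ((χ RatFunc.X - algebraMap ℂ K a)⁻¹) := by
    intro c hc
    have h0 := coord_sub_ne χ a
    have h1 : χ RatFunc.X - algebraMap ℂ K a = (algebraMap ℂ K c)⁻¹ := by
      rw [← hc, inv_inv]
    apply coord_nonConst χ (a + c⁻¹)
    rw [map_add, map_inv₀, ← h1]
    ring
  obtain ⟨χ', hχ'⟩ := exists_subst hn
  refine ⟨χ', hχ', ?_, ?_⟩
  · intro p
    apply Iso_range (y := algebraMap ℂ E a + RatFunc.X⁻¹)
    rw [map_add, coord_C, map_inv₀, hχ', inv_inv]
    ring
  · intro r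
    apply Iso_range (y := (RatFunc.X - algebraMap ℂ E a)⁻¹)
    rw [hχ', map_inv₀, map_sub, coord_C]

/-- Generation is inherited when the coordinate and the root are changed. -/
theorem Iso_gen {χ χ' : E →ₐ[ℂ] K} (h1 : ∀ p : E, ∃ r : E, χ p = χ' r)
    (h2 : ∀ r : E, ∃ p : E, χ' r = χ p) {w : K} {d : E} (hd : d ≠ 0)
    (hne : ∀ p : E, w ≠ χ p) (hgen : ∀ u : K, ∃ p q : E, u = χ p + χ q * w) :
    (∀ p : E, χ' d * w ≠ χ' p) ∧ ∀ u : K, ∃ p q : E, u = χ' p + χ' q * (χ' d * w) := by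
  have hd' : χ' d ≠ 0 := by
    rw [Ne, map_eq_zero_iff χ' (coord_inj χ')]
    exact hd
  constructor
  · intro p hp
    obtain ⟨r, hr⟩ := h2 (p / d)
    apply hne r
    rw [← hr, map_div₀, ← hp, mul_div_cancel_left₀ _ hd']
  · intro u
    obtain ⟨p, q, hpq⟩ := hgen u
    obtain ⟨p', hp'⟩ := h1 p
    obtain ⟨q', hq'⟩ := h1 q
    refine ⟨p', q' / d, ?_⟩
    rw [hpq, hp', hq', map_div₀]
    field_simp

/-- The Taylor expansion of `f` at a root, in an algebra. -/
theorem Iso_taylor (f : ℂ[X]) (a : ℂ) (ha : f.eval a = 0) (n : ℕ) (hn : f.natDegree < n + 1) :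
    ∃ c : ℕ → ℂ, c 0 = 0 ∧ c f.natDegree = f.leadingCoeff ∧ c 1 = f.derivative.eval a ∧
      (∀ {R : Type} [CommRing R] [Algebra ℂ R] (s : R),
        aeval (s + algebraMap ℂ R a) f = ∑ i ∈ Finset.range (n + 1), algebraMap ℂ R (c i) * s ^ i) ∧
      ∀ s : ℂ, (derivative f).eval (s + a) = ∑ i ∈ Finset.range (n + 1), c i * (i * s ^ (i - 1)) := by
  have hdeg : (f.comp (X + C a)).natDegree = f.natDegree := by
    rw [natDegree_comp, natDegree_X_add_C, mul_one]
  refine ⟨fun i => (f.comp (X + C a)).coeff i, ?_, ?_, ?_, ?_, ?_⟩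
  · simp only
    rw [coeff_zero_eq_eval_zero, eval_comp, eval_add, eval_X, eval_C, zero_add, ha]
  · simp only
    rw [← hdeg, coeff_natDegree, leadingCoeff_comp (by rw [natDegree_X_add_C]; exact one_ne_zero),
      leadingCoeff_X_add_C, one_pow, mul_one]
  · simp only
    have h1 : ((f.comp (X + C a)).derivative).eval 0 = (f.comp (X + C a)).coeff 1 := by
      rw [← coeff_zero_eq_eval_zero, coeff_derivative]
      norm_num
    rw [← h1, derivative_comp, derivative_add, derivative_X, derivative_C, add_zero,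
      eval_mul, eval_comp, eval_add, eval_X, eval_C, zero_add, eval_one, one_mul]
  · intro R _ _ s
    have h1 : aeval s (f.comp (X + C a)) = aeval (s + algebraMap ℂ R a) f := by
      rw [aeval_comp, map_add, aeval_X, aeval_C]
    rw [← h1, aeval_eq_sum_range' (by rw [hdeg]; exact hn)]
    apply Finset.sum_congr rfl
    intro i _
    rw [Algebra.smul_def]
  · intro s
    have h1 : ((f.comp (X + C a)).derivative).eval s = (derivative f).eval (s + a) := by
      rw [derivative_comp, derivative_add, derivative_X, derivative_C, add_zero, eval_mul,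
        eval_comp, eval_add, eval_X, eval_C, eval_one, one_mul]
    rw [← h1, derivative_eval, Polynomial.sum_over_range' _ (by intro i; simp) (n + 1)
      (by rw [hdeg]; exact hn)]
    apply Finset.sum_congr rfl
    intro i _
    ring

/-- A squarefree polynomial has no common root with its derivative, and conversely. -/
theorem Iso_sqf (f : ℂ[X]) : Squarefree f ↔ ∀ z : ℂ, f.eval z = 0 → (derivative f).eval z ≠ 0 := by
  rw [← PerfectField.separable_iff_squarefree, separable_def,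
    Polynomial.isCoprime_iff_aeval_ne_zero_of_isAlgClosed ℂ (k := ℂ)]
  constructor
  · intro h z hz
    rcases h z with h1 | h1
    · exact absurd (by rw [coe_aeval_eq_eval]; exact hz) h1
    · rw [coe_aeval_eq_eval] at h1
      exact h1
  · intro h z
    by_cases hz : f.eval z = 0
    · right
      rw [coe_aeval_eq_eval]
      exact h z hz
    · left
      rw [coe_aeval_eq_eval]
      exact hz

theorem Iso_root (f : ℂ[X]) (h : f.natDegree ≠ 0) : ∃ a : ℂ, f.eval a = 0 := by
  obtain ⟨a, ha⟩ := IsAlgClosed.exists_root f (fun h1 => h (natDegree_eq_of_degree_eq_some h1))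
  exact ⟨a, ha⟩

/-- `w ^ 2 = f(x)`, `f` a squarefree cubic: `K` is `KF f`.

Proof.  The homomorphism `KF f = QuadraticAlgebra E f 0 → K`, `p + q ω ↦ χ p + χ q w`
(`QuadraticAlgebra.lift`, or by hand: it is linear and multiplicative because `w ^ 2 = χ f`), is
surjective (`hgen`) and injective (`hne`). -/
theorem iso_cubic {χ : E →ₐ[ℂ] K} {f : ℂ[X]} {w : K} (hw : w ^ 2 = χ (algebraMap ℂ[X] E f))
    (hne : ∀ p : E, w ≠ χ p) (hgen : ∀ u : K, ∃ p q : E, u = χ p + χ q * w) :
    Nonempty (K ≃ₐ[ℂ] KF f) := by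
  have hww : w * w = χ (algebraMap ℂ[X] E f) := by
    rw [← hw]
    ring
  obtain ⟨Φ, hΦ⟩ : ∃ Φ : KF f →ₐ[ℂ] K, ∀ z, Φ z = χ z.re + χ z.im * w := by
    refine ⟨{ toFun := fun z => χ z.re + χ z.im * w
              map_one' := ?_
              map_mul' := ?_
              map_zero' := ?_
              map_add' := ?_
              commutes' := ?_ }, fun z => rfl⟩
    · rw [QuadraticAlgebra.re_one, QuadraticAlgebra.im_one, map_one, map_zero, zero_mul, add_zero]
    · intro z z'
      rw [QuadraticAlgebra.re_mul, QuadraticAlgebra.im_mul]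
      simp only [map_add, map_mul, zero_mul, add_zero, ← hww]
      ring
    · rw [QuadraticAlgebra.re_zero, QuadraticAlgebra.im_zero, map_zero, zero_mul, add_zero]
    · intro z z'
      rw [QuadraticAlgebra.re_add, QuadraticAlgebra.im_add, map_add, map_add]
      ring
    · intro c
      have h1 : (algebraMap ℂ (KF f) c).re = algebraMap ℂ E c := rfl
      have h2 : (algebraMap ℂ (KF f) c).im = 0 := rfl
      rw [h1, h2, map_zero, zero_mul, add_zero, coord_C]
  have hinj : Function.Injective Φ := by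
    rw [injective_iff_map_eq_zero]
    intro z hz
    rw [hΦ] at hz
    have him : z.im = 0 := by
      by_contra him
      have h1 : χ z.im ≠ 0 := by
        rw [Ne, map_eq_zero_iff χ (coord_inj χ)]
        exact him
      apply hne (- z.re / z.im)
      rw [map_div₀, map_neg, eq_div_iff h1]
      linear_combination hz
    rw [him, map_zero, zero_mul, add_zero, map_eq_zero_iff χ (coord_inj χ)] at hz
    ext
    · exact hz
    · exact him
  have hsurj : Function.Surjective Φ := by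
    intro u
    obtain ⟨p, q, hpq⟩ := hgen u
    refine ⟨⟨p, q⟩, ?_⟩
    rw [hΦ]
    exact hpq.symm
  exact ⟨(AlgEquiv.ofBijective Φ ⟨hinj, hsurj⟩).symm⟩

/-- `w ^ 2 = a x + b`, `a ≠ 0`: `K = ℂ(w)`.

Proof.  `w` is not constant (`hne` with the constant), so `w = ζ X` for a coordinate `ζ`
(`exists_subst`).  `ζ` is surjective: `χ X = (w ^ 2 - b) / a` is in its range, so the range of `χ` is in
the range of `ζ` (`coord_ext` for `ζ ∘ α` with `α X = (X ^ 2 - b) / a`), and `hgen`.  `AlgEquiv.ofBijective`. -/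
theorem iso_linear {χ : E →ₐ[ℂ] K} {a b : ℂ} (ha : a ≠ 0) {w : K}
    (hw : w ^ 2 = χ (algebraMap ℂ[X] E (C a * X + C b)))
    (hne : ∀ p : E, w ≠ χ p) (hgen : ∀ u : K, ∃ p q : E, u = χ p + χ q * w) :
    Nonempty (K ≃ₐ[ℂ] E) := by
  have hwn : NonConst w := by
    intro c hc
    apply hne (algebraMap ℂ E c)
    rw [coord_C, hc]
  obtain ⟨ζ, hζ⟩ := exists_subst hwn
  have haK : algebraMap ℂ K a ≠ 0 := by
    rw [_root_.map_ne_zero]
    exact ha
  have hX : χ RatFunc.X = ζ ((RatFunc.X ^ 2 - algebraMap ℂ E b) / algebraMap ℂ E a) := by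
    rw [map_div₀, map_sub, map_pow, coord_C, coord_C, hζ, hw, coord_poly, map_add, map_mul,
      aeval_C, aeval_C, aeval_X, add_sub_cancel_right, mul_div_cancel_left₀ _ haK]
  have hsurj : Function.Surjective ζ := by
    intro u
    obtain ⟨p, q, hpq⟩ := hgen u
    obtain ⟨p', hp'⟩ := Iso_range hX p
    obtain ⟨q', hq'⟩ := Iso_range hX q
    refine ⟨p' + q' * RatFunc.X, ?_⟩
    rw [map_add, map_mul, hζ, ← hp', ← hq', hpq]
  exact ⟨(AlgEquiv.ofBijective ζ ⟨coord_inj ζ, hsurj⟩).symm⟩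

/-- Moving a root to infinity: `x = a + 1 / t`, `f(a + 1 / t) = f1(t) / t ^ 4` with `f1` of degree three if `f`
has degree four and a simple root `a`; `(t ^ 2 w) ^ 2 = f1(t)`.

Proof.  `f = (X - C a) g`, `g(a) ≠ 0`, `g.natDegree = 3`.  `g.comp (X + C a)` has degree three and constant
term `g(a) ≠ 0`; `f1 = (g.comp (X + C a)).reverse` has degree three (`reverse_natDegree`), constant term
the leading coefficient of `g`.  `f(a + 1 / t) = (1 / t) g(a + 1 / t) = (1 / t) f1(t) / t ^ 3`.  `f1` is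
squarefree: `reverse` maps a factor to a factor (`g` is squarefree, so is `g.comp (X + C a)`; if
`r * r ∣ f1`, then `r.reverse * r.reverse ∣ f1.reverse = g.comp ..` (constant terms nonzero,
`reverse_mul_of_domain`, `reverse_reverse`-like lemma), and `r.natDegree = r.reverse.natDegree` because
`r` has nonzero constant term); or use separability and roots (`nodup_roots`): the roots of `f1` are the
inverses of the roots of `g.comp (X + C a)`.
The new coordinate: `χ' X = 1 / (χ X - a)`, `χ' = χ.comp α` with `α : E → E` the automorphism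
`X ↦ 1 / (X - a)`; `w' = (χ' X) ^ 2 * w`; the two generation hypotheses are inherited because `α` is
bijective. -/
theorem move_root {χ : E →ₐ[ℂ] K} {f : ℂ[X]} (hf : Squarefree f) (h4 : f.natDegree = 4) {w : K}
    (hw : w ^ 2 = χ (algebraMap ℂ[X] E f)) (hne : ∀ p : E, w ≠ χ p)
    (hgen : ∀ u : K, ∃ p q : E, u = χ p + χ q * w) :
    ∃ (χ' : E →ₐ[ℂ] K) (f' : ℂ[X]) (w' : K), Squarefree f' ∧ f'.natDegree = 3 ∧
      w' ^ 2 = χ' (algebraMap ℂ[X] E f') ∧ (∀ p : E, w' ≠ χ' p) ∧
      ∀ u : K, ∃ p q : E, u = χ' p + χ' q * w' := by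
  obtain ⟨a, ha⟩ := Iso_root f (by rw [h4]; decide)
  obtain ⟨c, hc0, hc4, hc1, htay, hder⟩ := Iso_taylor f a ha 4 (by rw [h4]; decide)
  rw [h4] at hc4
  have hsq := (Iso_sqf f).1 hf
  have hc1' : c 1 ≠ 0 := by
    rw [hc1]
    exact hsq a ha
  have hc4' : c 4 ≠ 0 := by
    rw [hc4, leadingCoeff_ne_zero]
    rintro rfl
    rw [natDegree_zero] at h4
    exact absurd h4 (by decide)
  obtain ⟨χ', hχ', hr1, hr2⟩ := Iso_coord χ a
  have ht0 : χ' RatFunc.X ≠ 0 := by
    rw [hχ']
    exact inv_ne_zero (coord_sub_ne χ a)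
  obtain ⟨hne', hgen'⟩ := Iso_gen hr1 hr2 (d := RatFunc.X ^ 2)
    (pow_ne_zero 2 RatFunc.X_ne_zero) hne hgen
  refine ⟨χ', C (c 1) * X ^ 3 + C (c 2) * X ^ 2 + C (c 3) * X + C (c 4), χ' (RatFunc.X ^ 2) * w,
    ?_, natDegree_cubic hc1', ?_, hne', hgen'⟩
  · rw [Iso_sqf]
    intro z hz hz'
    have e1 : c 1 * z ^ 3 + c 2 * z ^ 2 + c 3 * z + c 4 = 0 := by
      simpa using hz
    have e2 : 3 * c 1 * z ^ 2 + 2 * c 2 * z + c 3 = 0 := by
      have h1 : (derivative (C (c 1) * X ^ 3 + C (c 2) * X ^ 2 + C (c 3) * X + C (c 4))).eval z =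
          3 * c 1 * z ^ 2 + 2 * c 2 * z + c 3 := by
        simp
        ring
      rw [← h1]
      exact hz'
    have hz0 : z ≠ 0 := by
      rintro rfl
      apply hc4'
      linear_combination e1
    have hF : f.eval (z⁻¹ + a) = 0 := by
      have h1 := htay (R := ℂ) z⁻¹
      rw [Algebra.algebraMap_self_apply, coe_aeval_eq_eval] at h1
      rw [h1]
      simp only [Finset.sum_range_succ, Finset.sum_range_zero, Algebra.algebraMap_self_apply, hc0]
      field_simp
      linear_combination e1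
    apply hsq _ hF
    rw [hder]
    simp only [Finset.sum_range_succ, Finset.sum_range_zero, hc0]
    norm_num
    field_simp
    linear_combination 4 * e1 - z * e2
  · rw [coord_poly, map_pow]
    have h1 : w ^ 2 = aeval ((χ' RatFunc.X)⁻¹ + algebraMap ℂ K a) f := by
      rw [hw, coord_poly, hχ', inv_inv, sub_add_cancel]
    rw [mul_pow, h1, htay]
    simp only [Finset.sum_range_succ, Finset.sum_range_zero, hc0, map_zero, map_add, map_mul,
      map_pow, aeval_C, aeval_X]
    field_simp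
    ring

/-- Degree two: `f = a (x - r1) (x - r2)`; with `t = 1 / (x - r1)`: `(t w) ^ 2 = a + a (r1 - r2) t`, so
`iso_linear` applies. -/
theorem iso_quadratic {χ : E →ₐ[ℂ] K} {f : ℂ[X]} (hf : Squarefree f) (h2 : f.natDegree = 2)
    {w : K} (hw : w ^ 2 = χ (algebraMap ℂ[X] E f)) (hne : ∀ p : E, w ≠ χ p)
    (hgen : ∀ u : K, ∃ p q : E, u = χ p + χ q * w) : Nonempty (K ≃ₐ[ℂ] E) := by
  obtain ⟨a, ha⟩ := Iso_root f (by rw [h2]; decide)
  obtain ⟨c, hc0, -, hc1, htay, -⟩ := Iso_taylor f a ha 2 (by rw [h2]; decide)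
  have hc1' : c 1 ≠ 0 := by
    rw [hc1]
    exact (Iso_sqf f).1 hf a ha
  obtain ⟨χ', hχ', hr1, hr2⟩ := Iso_coord χ a
  have ht0 : χ' RatFunc.X ≠ 0 := by
    rw [hχ']
    exact inv_ne_zero (coord_sub_ne χ a)
  obtain ⟨hne', hgen'⟩ := Iso_gen hr1 hr2 (d := RatFunc.X) RatFunc.X_ne_zero hne hgen
  apply iso_linear (χ := χ') (a := c 1) (b := c 2) hc1' (w := χ' RatFunc.X * w) ?_ hne' hgen'
  rw [coord_poly]
  have h1 : w ^ 2 = aeval ((χ' RatFunc.X)⁻¹ + algebraMap ℂ K a) f := by
    rw [hw, coord_poly, hχ', inv_inv, sub_add_cancel]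
  rw [mul_pow, h1, htay]
  simp only [Finset.sum_range_succ, Finset.sum_range_zero, hc0, map_zero, map_add, map_mul,
    aeval_C, aeval_X]
  field_simp
  ring

/-- **A function field with `2g - 2 ≤ 0` is `ℂ(x)` or the function field of a nonsingular cubic.**

Proof.  `exists_deg_two` (GN/Riem.lean): `χ` of degree at most two.  Degree one: `deg_one_iso`.  Degree two:
`exists_sqrt`, `sqrt_deg` (with `GenusLe.other`): `f` squarefree of degree at most four.  Degree `0`:
`w ^ 2` is constant, so `w` is constant, contradiction to `hne`.  Degrees `1`, `2`, `3`, `4`: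
`iso_linear`, `iso_quadratic`, `iso_cubic`, `move_root` and `iso_cubic`. -/
theorem genus_iso {φ : E →ₐ[ℂ] K} (hφ : FinC φ) (h : GenusLe φ) :
    Nonempty (K ≃ₐ[ℂ] E) ∨
      ∃ f : ℂ[X], f.natDegree = 3 ∧ Squarefree f ∧ Nonempty (K ≃ₐ[ℂ] KF f) := by
  obtain ⟨χ, hχ, hd⟩ := exists_deg_two hφ h
  have hpos := deg_pos hχ
  rcases Nat.lt_or_ge (deg χ) 2 with h1 | h1
  · exact Or.inl (deg_one_iso (χ := χ) (by omega))
  have h2 : deg χ = 2 := by omega
  obtain ⟨f, w, hf, hw, hne, hgen⟩ := exists_sqrt hχ h2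
  have h4 := sqrt_deg hχ h2 (h.other hφ) hf hw
  obtain ⟨n, hn⟩ : ∃ n, f.natDegree = n := ⟨_, rfl⟩
  rw [hn] at h4
  interval_cases n
  · exfalso
    obtain ⟨c, rfl⟩ : ∃ c : ℂ, f = C c := ⟨_, eq_C_of_natDegree_eq_zero hn⟩
    obtain ⟨d, hd2⟩ := IsAlgClosed.exists_pow_nat_eq c (n := 2) (by norm_num)
    rw [coord_poly, aeval_C, ← hd2, map_pow] at hw
    rcases sq_eq_sq_iff_eq_or_eq_neg.1 hw with h5 | h5
    · apply hne (algebraMap ℂ E d)
      rw [coord_C, h5]
    · apply hne (- algebraMap ℂ E d)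
      rw [map_neg, coord_C, h5]
  · obtain ⟨a, b, rfl⟩ := exists_eq_X_add_C_of_natDegree_le_one (p := f) (by omega)
    have ha : a ≠ 0 := by
      rintro rfl
      rw [C_0, zero_mul, zero_add, natDegree_C] at hn
      exact absurd hn (by decide)
    exact Or.inl (iso_linear ha hw hne hgen)
  · exact Or.inl (iso_quadratic hf hn hw hne hgen)
  · exact Or.inr ⟨f, hn, hf, iso_cubic hw hne hgen⟩
  · obtain ⟨χ', f', w', hf', hd', hw', hne', hgen'⟩ := move_root hf hn hw hne hgen
    exact Or.inr ⟨f', hd', hf', iso_cubic hw' hne' hgen'⟩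

end WildG
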