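import Pool.Agent.helper44.Wild.Bridge
import Pool.Agent.helper44.Wild.Compose
import Pool.Agent.helper21.WS.Coord

/-!
# The factor of `C_A` of a solution (helper44, MP_11236d_an, stage 3)
-/

namespace WildG

open Polynomial WildRat WildS

variable {K : Type} [Field K] [Algebra ℂ K]

/-- Evaluation of `ℂ[x][y]` at `(x, y) = (U, V)`. -/
noncomputable def ev2 (U V : K) : ℂ[X][X] →ₐ[ℂ] K := aevalAeval U V

/-- Proof: `aevalAeval_C`. -/
theorem ev2_C (U V : K) (p : ℂ[X]) : ev2 U V (C p) = aeval U p :=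
  aevalAeval_C U V p

/-- Proof: induction on `p`, or `eval₂_map`. -/
theorem ev2_map (U V : K) (p : ℂ[X]) : ev2 U V (p.map C) = aeval V p := by
  have hY : ev2 U V X = V := aevalAeval_Y U V
  induction p using Polynomial.induction_on' with
  | add p q hp hq => simp only [map_add, hp, hq, Polynomial.map_add]
  | monomial n a =>
    rw [← C_mul_X_pow_eq_monomial, Polynomial.map_mul, Polynomial.map_pow, map_C, map_X,
      map_mul, map_pow, map_mul, map_pow, aeval_C, aeval_X, hY]
    congr 1
    have : (C (C a) : ℂ[X][X]) = algebraMap ℂ ℂ[X][X] a := rfl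
    rw [this, AlgHom.commutes]

theorem ev2_X (U V : K) : ev2 U V X = V := aevalAeval_Y U V

/-- Proof: `RF.W`, `RF.Eqn`, `ev2_C`, `ev2_map`. -/
theorem ev2_W {A : RF} {U V : K} (h : A.Eqn U V) : ev2 U V A.W = 0 := by
  rw [RF.W, map_sub, map_mul, map_mul, ev2_C, ev2_C, ev2_map, ev2_map, sub_eq_zero]
  exact h

/-- `W` is not zero.  Proof: if `W = 0`, then `C P * Q.map C = P.map C * C Q`; evaluate `y` at a
complex number `c` (`map (evalRingHom c)` or `eval (C c)`): `P(x) Q(c) = P(c) Q(x)` for every `c`,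
contradiction to `RF.const_of_prop` (Wild/Bridge.lean, with `RF.eval_ne`). -/
theorem W_ne_zero {A : RF} (hn : 1 ≤ A.n) : A.W ≠ 0 := by
  intro h0
  have h3 : A.W.map (evalRingHom (0 : ℂ)) = 0 := by rw [h0, Polynomial.map_zero]
  have h5 : ∀ p : ℂ[X], (p.map (C : ℂ →+* ℂ[X])).map (evalRingHom (0 : ℂ)) = p := by
    intro p
    rw [Polynomial.map_map]
    have : (evalRingHom (0 : ℂ)).comp (C : ℂ →+* ℂ[X]) = RingHom.id ℂ := by
      ext x; simp
    rw [this, Polynomial.map_id]
  rw [RF.W, Polynomial.map_sub, Polynomial.map_mul, Polynomial.map_mul, map_C, map_C, h5, h5] at h3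
  have h4 : C (A.P.eval 0) * A.Q - A.P * C (A.Q.eval 0) = 0 := by simpa using h3
  have := A.const_of_prop (A.eval_ne 0) (sub_eq_zero.1 h4).symm
  omega

/-- The evaluation factors through the coefficients in `ℂ(x)`. -/
theorem Ker_ev2_eq {U : K} (V : K) (ζ : WildS.E →ₐ[ℂ] K) (hζ : ζ RatFunc.X = U) (p : ℂ[X][X]) :
    ev2 U V p = (p.map (algebraMap ℂ[X] WildS.E)).eval₂ (ζ : WildS.E →+* K) V := by
  have hC : ∀ f : ℂ[X], ζ (algebraMap ℂ[X] WildS.E f) = aeval U f := by
    intro f
    rw [← hζ, aeval_algHom_apply, aeval_X_E]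
  induction p using Polynomial.induction_on' with
  | add p q hp hq => rw [map_add, hp, hq, Polynomial.map_add, eval₂_add]
  | monomial n a =>
    rw [← C_mul_X_pow_eq_monomial, map_mul, map_pow, ev2_C, ev2_X, Polynomial.map_mul,
      Polynomial.map_pow, map_C, map_X, eval₂_mul, eval₂_pow, eval₂_C, eval₂_X]
    congr 1
    exact (hC a).symm

/-- An irreducible polynomial which vanishes at `(U, V)` generates the kernel. -/
theorem Ker_of_irreducible {U V : K} (hU : NonConst U) {F : ℂ[X][X]} (hF : Irreducible F)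
    (h0 : ev2 U V F = 0) (p : ℂ[X][X]) : ev2 U V p = 0 ↔ F ∣ p := by
  constructor
  · intro hp
    obtain ⟨ζ, hζ⟩ := exists_subst hU
    have hdeg : F.natDegree ≠ 0 := by
      intro hd
      obtain ⟨f, hf⟩ := natDegree_eq_zero.1 hd
      rw [← hf, ev2_C] at h0
      refine hU.aeval_ne_zero ?_ h0
      intro hf0
      exact hF.ne_zero (by rw [← hf, hf0, C_0])
    have hprim : F.IsPrimitive := hF.isPrimitive hdeg
    have hirr : Irreducible (F.map (algebraMap ℂ[X] WildS.E)) :=
      (hprim.irreducible_iff_irreducible_map_fraction_map (K := WildS.E)).1 hF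
    rw [hprim.dvd_iff_fraction_map_dvd_fraction_map WildS.E]
    by_contra hnd
    obtain ⟨a, b, hab⟩ := (hirr.coprime_iff_not_dvd).2 hnd
    have h1 := congrArg (fun g => g.eval₂ (ζ : WildS.E →+* K) V) hab
    simp only [eval₂_add, eval₂_mul, eval₂_one] at h1
    rw [← Ker_ev2_eq V ζ hζ, ← Ker_ev2_eq V ζ hζ, hp, h0, mul_zero, mul_zero, add_zero] at h1
    exact zero_ne_one h1
  · rintro ⟨g, rfl⟩
    rw [map_mul, h0, zero_mul]

/-- The kernel of the evaluation is generated by an irreducible polynomial.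

Proof.  Let `W = ∏ (primes)` in the factorial ring `ℂ[X][X]`; the image of `W` is zero and `K` is a
field, so some irreducible factor `F` of `W` (`WfDvdMonoid.exists_irreducible_factor`-style
induction, or `UniqueFactorizationMonoid.factors`) has `ev2 U V F = 0`.  `F` is not a constant in `y`,
because `U` is not constant (`NonConst.aeval_ne_zero`), so `F` is primitive (irreducible of positive
degree, `Irreducible.isPrimitive`), and `F.map (algebraMap ℂ[X] E)` is irreducible
(`IsPrimitive.irreducible_iff_irreducible_map_fraction_map`).  Let `ζ : E →ₐ[ℂ] K`, `ζ X = U`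
(`exists_subst`); `ev2 U V p = eval₂ ζ V (p.map (algebraMap ℂ[X] E))`.  The polynomials `q ∈ E[X]` with
`eval₂ ζ V q = 0` form an ideal which contains `F.map` and not `1`, so they are the multiples of
`F.map` (irreducible in a principal ideal domain: if `F.map ∤ q` then they are coprime).  So
`ev2 U V p = 0` implies `F.map ∣ p.map`, and `F ∣ p` by
`IsPrimitive.dvd_iff_fraction_map_dvd_fraction_map` needs `p` primitive; in general write
`p = C (content) * primPart` or use `IsPrimitive.dvd_of_fraction_map_dvd_fraction_map`-like lemmas. -/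
theorem exists_ker {A : RF} (hn : 1 ≤ A.n) {U V : K} (hU : NonConst U) (h : A.Eqn U V) :
    ∃ F : ℂ[X][X], Irreducible F ∧ F ∣ A.W ∧ ∀ p, ev2 U V p = 0 ↔ F ∣ p := by
  classical
  have hW := W_ne_zero hn
  have key : ∀ s : Multiset ℂ[X][X], (∀ f ∈ s, Irreducible f) → ev2 U V s.prod = 0 →
      ∃ f ∈ s, ev2 U V f = 0 := by
    intro s
    induction s using Multiset.induction_on with
    | empty =>
      intro _ h1
      rw [Multiset.prod_zero, map_one] at h1
      exact absurd h1 one_ne_zero
    | cons a s ih =>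
      intro hs h1
      rw [Multiset.prod_cons, map_mul, mul_eq_zero] at h1
      rcases h1 with h1 | h1
      · exact ⟨a, Multiset.mem_cons_self a s, h1⟩
      · obtain ⟨f, hf, hf0⟩ := ih (fun f hf => hs f (Multiset.mem_cons_of_mem hf)) h1
        exact ⟨f, Multiset.mem_cons_of_mem hf, hf0⟩
  obtain ⟨s, hs, hprod⟩ := WfDvdMonoid.exists_factors A.W hW
  have h0 : ev2 U V s.prod = 0 := by
    obtain ⟨g, hg⟩ := hprod.symm.dvd
    rw [hg, map_mul, ev2_W h, zero_mul]
  obtain ⟨F, hFs, hF0⟩ := key s hs h0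
  exact ⟨F, hs F hFs, (Multiset.dvd_prod hFs).trans hprod.dvd,
    Ker_of_irreducible hU (hs F hFs) hF0⟩

/-- It is a factor of `C_A`.

Proof.  `x - y` (that is `C X - X`) divides `W` (`dvd_iff_isRoot`: `W.eval X = 0`), it is prime
(`prime_X_sub_C` up to sign) and not associated to `F`: otherwise `ev2 U V (C X - X) = U - V = 0`.  So
`W = (C X - X) * W1`, `F ∣ W`, `F` prime, `F ∤ C X - X`, so `F ∣ W1`. -/
theorem isFactor_of_ker {A : RF} {U V : K} (hne : U ≠ V) {F : ℂ[X][X]} (hF : Irreducible F)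
    (hW : F ∣ A.W) (hker : ∀ p, ev2 U V p = 0 ↔ F ∣ p) : A.IsFactor F := by
  refine ⟨hF, ?_⟩
  have h5 : ∀ p : ℂ[X], (p.map (C : ℂ →+* ℂ[X])).eval X = p := by
    intro p
    rw [eval_map]
    exact eval₂_C_X
  have h1 : (X - C X : ℂ[X][X]) ∣ A.W := by
    rw [dvd_iff_isRoot, IsRoot.def, RF.W, eval_sub, eval_mul, eval_mul, eval_C, eval_C, h5, h5]
    ring
  have h2 : (C X - X : ℂ[X][X]) ∣ A.W := by
    have h3 : (C X - X : ℂ[X][X]) = -(X - C X) := by ring
    rw [h3]
    exact (neg_dvd).2 h1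
  obtain ⟨W1, hW1⟩ := h2
  rw [hW1] at hW ⊢
  refine mul_dvd_mul_left _ ((hF.prime.dvd_or_dvd hW).resolve_left ?_)
  intro h3
  rw [← hker, map_sub, ev2_C, ev2_X, aeval_X, sub_eq_zero] at h3
  exact hne h3

/-- The function field of `F` is `ℂ(U, V)`.

Proof.  The ring homomorphism `θ : ℂ[X][X] ⧸ span {F} → K` induced by `ev2 U V` (`Ideal.Quotient.liftₐ`)
is injective (`hker`), so it extends to the field of fractions (`IsFractionRing.liftAlgHom`), and the
extension is surjective: its range is a subfield containing `U` and `V` (as an intermediate field: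
`AlgHom.fieldRange`), so it is `⊤` by `hgen`.  `AlgEquiv.ofBijective`.  The quotient is a domain because
`span {F}` is prime (see `RF.solIn_of_factor` in Wild/Bridge.lean for the instances). -/
theorem funField_iso {U V : K} {F : ℂ[X][X]} (hF : Irreducible F)
    (hker : ∀ p, ev2 U V p = 0 ↔ F ∣ p)
    (hgen : IntermediateField.adjoin ℂ ({U, V} : Set K) = ⊤) :
    Nonempty (FunField F ≃ₐ[ℂ] K) := by
  have hprime : (Ideal.span {F} : Ideal ℂ[X][X]).IsPrime := by
    rw [Ideal.span_singleton_prime hF.ne_zero]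
    exact hF.prime
  have : IsDomain (ℂ[X][X] ⧸ Ideal.span {F}) := Ideal.Quotient.isDomain _
  let θ : (ℂ[X][X] ⧸ Ideal.span {F}) →ₐ[ℂ] K :=
    Ideal.Quotient.liftₐ (Ideal.span {F}) (ev2 U V) (by
      intro a ha
      rw [Ideal.mem_span_singleton] at ha
      exact (hker a).2 ha)
  have hθ : ∀ p, θ (Ideal.Quotient.mk (Ideal.span {F}) p) = ev2 U V p := fun p => rfl
  have hinj : Function.Injective θ := by
    rw [injective_iff_map_eq_zero]
    intro a ha
    obtain ⟨p, rfl⟩ := Ideal.Quotient.mk_surjective a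
    rw [hθ, hker] at ha
    rw [Ideal.Quotient.eq_zero_iff_mem, Ideal.mem_span_singleton]
    exact ha
  let η : FunField F →ₐ[ℂ] K :=
    IsFractionRing.liftAlgHom (R := ℂ) (A := ℂ[X][X] ⧸ Ideal.span {F}) (L := K)
      (K := FunField F) (g := θ) hinj
  have hη : ∀ a, η (algebraMap (ℂ[X][X] ⧸ Ideal.span {F}) (FunField F) a) = θ a := fun a =>
    IsFractionRing.lift_algebraMap (K := FunField F) hinj a
  have hsurj : Function.Surjective η := by
    have h1 : η.fieldRange = ⊤ := by
      rw [eq_top_iff, ← hgen, IntermediateField.adjoin_le_iff]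
      intro x hx
      have hU2 := hη (Ideal.Quotient.mk (Ideal.span {F}) (C X))
      rw [hθ, ev2_C, aeval_X] at hU2
      have hV2 := hη (Ideal.Quotient.mk (Ideal.span {F}) X)
      rw [hθ, ev2_X] at hV2
      rcases hx with hx | hx
      · exact ⟨_, hU2.trans hx.symm⟩
      · exact ⟨_, hV2.trans (Set.mem_singleton_iff.1 hx).symm⟩
    exact AlgHom.fieldRange_eq_top.1 h1
  exact ⟨AlgEquiv.ofBijective η ⟨η.toRingHom.injective, hsurj⟩⟩

end WildG
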