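import Pool.Agent.helper44.Gen.Over
import Pool.Agent.helper44.Gen.Iso
import Pool.Agent.helper44.Gen.Ker
import Pool.Agent.helper21.WV.Main

/-!
# Wild if and only if a component has genus zero or one (helper44, MP_11236d_an, stage 3)
-/

namespace WildG

open Polynomial WildRat WildS WildV

variable {K : Type} [Field K] [Algebra ℂ K]

/-- The rational function `1 / (x - c)`. -/
private noncomputable def IffG_inv (c : ℂ) : RF where
  P := 1
  Q := X - C c
  cop := isCoprime_one_left

private theorem IffG_n (c : ℂ) : (IffG_inv c).n = 1 := by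
  unfold RF.n IffG_inv
  simp

private theorem IffG_app (φ : E →ₐ[ℂ] K) (c : ℂ) :
    φ (elt (IffG_inv c)) = (φ RatFunc.X - algebraMap ℂ K c)⁻¹ := by
  rw [coord_elt]
  unfold RF.app IffG_inv
  simp

/-- The order of `1 / (x - c) - b`, at a place which does not lie over `c`. -/
private theorem IffG_ord {φ : E →ₐ[ℂ] K} (hφ : FinC φ) {P : Pl K} {c : ℂ} (hc : P ∉ fib φ c) :
    ∃ b : ℂ, P.ord ((φ RatFunc.X - algebraMap ℂ K c)⁻¹ - algebraMap ℂ K b) = ram φ P := by
  rcases le_or_gt 0 (P.ord (φ RatFunc.X)) with h | h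
  · obtain ⟨a, ha⟩ := exists_value φ hφ P h
    have hac : a ≠ c := fun h0 => hc (h0 ▸ ha)
    have ha' : 0 < P.ord (φ RatFunc.X - algebraMap ℂ K a) := ha
    obtain ⟨h1, h2⟩ := P.ord_sub_of_ne ha' hac
    have h3 : algebraMap ℂ K (a - c) ≠ 0 := by
      rw [Ne, map_eq_zero]
      exact sub_ne_zero.2 hac
    refine ⟨(a - c)⁻¹, ?_⟩
    have h4 : (φ RatFunc.X - algebraMap ℂ K c)⁻¹ - algebraMap ℂ K (a - c)⁻¹ =
        -(φ RatFunc.X - algebraMap ℂ K a) /
          ((φ RatFunc.X - algebraMap ℂ K c) * algebraMap ℂ K (a - c)) := by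
      rw [map_inv₀]
      field_simp
      rw [map_sub]
      ring
    rw [h4, P.ord_div (neg_ne_zero.2 (coord_sub_ne φ a)) (mul_ne_zero h1 h3), P.ord_neg,
      P.ord_mul h1 h3, P.ord_C, h2, ram_fib ha]
    ring
  · refine ⟨0, ?_⟩
    rw [map_zero, sub_zero, P.ord_inv, (P.ord_sub_of_pole h c).2, ram_pole h]

/-- The Riemann-Hurwitz inequality of `Good` is `GenusLe`.

Proof.  `Good.rh` is the inequality for sets of places over finite points.  Given `T`, choose a complex
number `c` such that no `P ∈ T` and no pole of `φ X` lies over `c` (finite sets: `Pl.value_unique`,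
`fibS`).  Let `φ' = φ.comp α`, `α X = 1 / (X - c)`, `φ' X = 1 / (φ X - c)`: all places of `T` have a finite
value of `φ'` (at the poles of `φ X` it is `0`, otherwise `1 / (a - c)`), and `ram φ' P = ram φ P`
(`ram_inv` for the coordinate `φ X - c`, whose `ram` is the one of `φ`), `deg φ' = deg φ` (`deg_comp`;
or `sum_self` and `sum_poles`).  `hK.rh φ' T`, `ram_fib`. -/
theorem genusLe_of_good (hK : Good K) (φ : E →ₐ[ℂ] K) : GenusLe φ := by
  classical
  intro T
  have hφ := hK.fin φ
  -- a number which is not a value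
  obtain ⟨c, hc⟩ : ∃ c : ℂ, ∀ P ∈ T, P ∉ fib φ c := by
    obtain ⟨c, hc⟩ := Infinite.exists_notMem_finset
      (T.image fun P => if h : ∃ a, P ∈ fib φ a then h.choose else 0)
    refine ⟨c, fun P hP h => hc ?_⟩
    rw [Finset.mem_image]
    refine ⟨P, hP, ?_⟩
    have hex : ∃ a, P ∈ fib φ a := ⟨c, h⟩
    rw [dif_pos hex]
    exact P.value_unique hex.choose_spec h
  obtain ⟨α, hα⟩ := exists_subst (elt_nonConst (IffG_inv c) (by rw [IffG_n]))
  have hdeg : deg (φ.comp α) = deg φ := by
    rw [deg_comp, deg_elt (IffG_inv c) (by rw [IffG_n]) α hα, IffG_n, one_mul]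
  have hX : (φ.comp α) RatFunc.X = (φ RatFunc.X - algebraMap ℂ K c)⁻¹ := by
    rw [AlgHom.comp_apply, hα, IffG_app]
  have key : ∀ P : Pl K, ∃ b : ℂ, P ∈ T →
      P.ord ((φ.comp α) RatFunc.X - algebraMap ℂ K b) = ram φ P := by
    intro P
    by_cases hP : P ∈ T
    · obtain ⟨b, hb⟩ := IffG_ord hφ (hc P hP)
      exact ⟨b, fun _ => by rw [hX, hb]⟩
    · exact ⟨0, fun h => absurd h hP⟩
  choose b hb using key
  have h1 := hK.rh (φ.comp α) T b (fun P hP => by
    change 0 < P.ord ((φ.comp α) RatFunc.X - algebraMap ℂ K (b P))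
    rw [hb P hP]
    have := ram_pos hφ P
    omega)
  rw [hdeg] at h1
  refine le_trans (le_of_eq ?_) h1
  exact Finset.sum_congr rfl fun P hP => by rw [hb P hP]

/-- **A solution in a good field gives a component with `2g - 2 ≤ 0`.**

Proof.  `L = IntermediateField.adjoin ℂ {U, V}`, a field with the coordinate `φ`, `φ X = U`
(`exists_subst`), `ι = L.val`, `ι.comp φ` is a coordinate of `K`, finite by `hK.fin`; `φ` is finite because
`K` is finite over `E` through `ι.comp φ` and `L` is a subspace (`FiniteDimensional` of a subspace; mind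
the algebra instances).  `GenusLe φ` by `GenusLe.sub` and `genusLe_of_good`.  `exists_ker`,
`isFactor_of_ker`, `funField_iso` for `U`, `V` in `L`, `genus_iso`. -/
theorem genus_of_solIn {A : RF} (hn : 1 ≤ A.n) (hK : Good K) (h : A.SolIn K) :
    A.GenusZero ∨ A.GenusOne := by
  obtain ⟨U, V, hU, hUV, hE⟩ := h
  set L : IntermediateField ℂ K := IntermediateField.adjoin ℂ ({U, V} : Set K) with hL
  have hUL : U ∈ L := IntermediateField.subset_adjoin ℂ _ (Set.mem_insert _ _)
  have hVL : V ∈ L := IntermediateField.subset_adjoin ℂ _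
    (Set.mem_insert_of_mem _ (Set.mem_singleton _))
  set U' : L := ⟨U, hUL⟩ with hU'
  set V' : L := ⟨V, hVL⟩ with hV'
  have hιU : L.val U' = U := rfl
  have hιV : L.val V' = V := rfl
  have hnc : NonConst U' := by
    intro c hc
    apply hU c
    rw [← hιU, hc]
    exact L.val.commutes c
  have hne : U' ≠ V' := fun h0 => hUV (congrArg L.val h0)
  have hEq : A.Eqn U' V' := by
    unfold RF.Eqn at hE ⊢
    apply L.val.toRingHom.injective
    change L.val _ = L.val _
    rw [map_mul, map_mul, ← aeval_algHom_apply, ← aeval_algHom_apply, ← aeval_algHom_apply,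
      ← aeval_algHom_apply, hιU, hιV]
    exact hE
  obtain ⟨φ, hφX⟩ := exists_subst hnc
  have hι : FinC (L.val.comp φ) := hK.fin _
  have hφ : FinC φ := by
    change φ.toRingHom.Finite
    let _ : Algebra E L := φ.toRingHom.toAlgebra
    let _ : Algebra E K := (L.val.comp φ).toRingHom.toAlgebra
    have hfin : Module.Finite E K := hι
    let g : L →ₗ[E] K :=
      { toFun := L.val
        map_add' := map_add _
        map_smul' := fun c z => by
          rw [Algebra.smul_def, map_mul, RingHom.id_apply, Algebra.smul_def]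
          rfl }
    exact Module.Finite.of_injective g L.val.toRingHom.injective
  have hg : GenusLe φ := GenusLe.sub L.val hφ hι (genusLe_of_good hK _)
  obtain ⟨F, hF, hFW, hker⟩ := exists_ker hn hnc hEq
  have hfac := isFactor_of_ker hne hF hFW hker
  have htop : IntermediateField.adjoin ℂ ({U', V'} : Set L) = ⊤ := by
    have h1 : (IntermediateField.adjoin ℂ ({U', V'} : Set L)).map L.val = L := by
      rw [IntermediateField.adjoin_map, Set.image_pair, hιU, hιV]
    have h2 : (⊤ : IntermediateField ℂ L).map L.val = L := by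
      rw [← AlgHom.fieldRange_eq_map, IntermediateField.fieldRange_val]
    exact IntermediateField.map_injective L.val (h1.trans h2.symm)
  obtain ⟨e⟩ := funField_iso hF hker htop
  rcases genus_iso hφ hg with ⟨⟨e1⟩⟩ | ⟨f, hf3, hsq, ⟨e1⟩⟩
  · exact Or.inl ⟨F, hfac, ⟨e.trans e1⟩⟩
  · exact Or.inr ⟨F, hfac, f, hf3, hsq, ⟨e.trans e1⟩⟩

/-- **Wild if and only if some factor of `C_A` has genus zero or one.**  Proof: `good_E`, `good_KF`
(`kf_fact`), `genus_of_solIn`; `RF.wild_of_genus`. -/
theorem wild_iff_genus {A : RF} (hn : 1 ≤ A.n) : A.Wild ↔ A.GenusZero ∨ A.GenusOne := by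
  refine ⟨fun h => ?_, A.wild_of_genus hn⟩
  rcases h with hr | ⟨f, hf3, hsq, hsol⟩
  · exact genus_of_solIn hn good_E hr
  · have := kf_fact f (by rw [hf3]; decide)
    exact genus_of_solIn hn (good_KF f hf3 hsq) hsol

end WildG
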