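import Pool.Agent.helper21.WV.Bdd

/-!
# The local ring at a place of a plane curve and its derivation (helper44, MP_11236d_an, stage 3)

proofs: helper58

A place `P` of `K = ℂ(s, u)` with `s` of positive order `k` and `u` a unit.  If the derivation `D` with
`D s = 1` maps `u` into the local ring of `(s, u)`, then `k = 1`.
-/

namespace WildG

open Polynomial WildRat WildS WildV

variable {K : Type} [Field K] [Algebra ℂ K]

/-- The local ring of the curve `(s, u)` at `P`: the quotients `p / q` with `p`, `q` polynomials in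
`s`, `u`, and `q` of order zero at `P`. -/
def LR (P : Pl K) (s u : K) : Set K :=
  {z | ∃ p ∈ Algebra.adjoin ℂ ({s, u} : Set K), ∃ q ∈ Algebra.adjoin ℂ ({s, u} : Set K),
    q ≠ 0 ∧ P.ord q = 0 ∧ z * q = p}

/-- Proof: `q = 1`. -/
theorem LR_of_adjoin {P : Pl K} {s u z : K} (hz : z ∈ Algebra.adjoin ℂ ({s, u} : Set K)) :
    z ∈ LR P s u := by
  exact ⟨z, hz, 1, one_mem _, one_ne_zero, P.ord_one, mul_one z⟩

theorem LR_const (P : Pl K) (s u : K) (c : ℂ) : algebraMap ℂ K c ∈ LR P s u := by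
  exact LR_of_adjoin (Subalgebra.algebraMap_mem _ c)

theorem LR_s (P : Pl K) (s u : K) : s ∈ LR P s u := by
  exact LR_of_adjoin (Algebra.subset_adjoin (by simp))

theorem LR_u (P : Pl K) (s u : K) : u ∈ LR P s u := by
  exact LR_of_adjoin (Algebra.subset_adjoin (by simp))

/-- Proof: common denominator `q q'`. -/
theorem LR_add {P : Pl K} {s u z w : K} (hz : z ∈ LR P s u) (hw : w ∈ LR P s u) :
    z + w ∈ LR P s u := by
  obtain ⟨p, hp, q, hq, hq0, hqo, h⟩ := hz
  obtain ⟨p', hp', q', hq', hq0', hqo', h'⟩ := hw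
  refine ⟨p * q' + p' * q, add_mem (mul_mem hp hq') (mul_mem hp' hq), q * q', mul_mem hq hq',
    mul_ne_zero hq0 hq0', by rw [P.ord_mul hq0 hq0', hqo, hqo', add_zero], ?_⟩
  rw [← h, ← h']
  ring

theorem LR_mul {P : Pl K} {s u z w : K} (hz : z ∈ LR P s u) (hw : w ∈ LR P s u) :
    z * w ∈ LR P s u := by
  obtain ⟨p, hp, q, hq, hq0, hqo, h⟩ := hz
  obtain ⟨p', hp', q', hq', hq0', hqo', h'⟩ := hw
  refine ⟨p * p', mul_mem hp hp', q * q', mul_mem hq hq',
    mul_ne_zero hq0 hq0', by rw [P.ord_mul hq0 hq0', hqo, hqo', add_zero], ?_⟩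
  rw [← h, ← h']
  ring

theorem LR_neg {P : Pl K} {s u z : K} (hz : z ∈ LR P s u) : -z ∈ LR P s u := by
  obtain ⟨p, hp, q, hq, hq0, hqo, h⟩ := hz
  exact ⟨-p, neg_mem hp, q, hq, hq0, hqo, by rw [← h]; ring⟩

theorem LR_pow {P : Pl K} {s u z : K} (hz : z ∈ LR P s u) (n : ℕ) : z ^ n ∈ LR P s u := by
  induction n with
  | zero =>
    rw [pow_zero]
    have h := LR_const P s u 1
    rwa [map_one] at h
  | succ n ih =>
    rw [pow_succ]
    exact LR_mul ih hz

/-- Polynomials in an element of the ring.  Proof: `Polynomial.induction_on'`. -/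
theorem LR_aeval {P : Pl K} {s u z : K} (hz : z ∈ LR P s u) (p : ℂ[X]) :
    aeval z p ∈ LR P s u := by
  induction p using Polynomial.induction_on' with
  | add p q hp hq =>
    rw [map_add]
    exact LR_add hp hq
  | monomial n a =>
    rw [aeval_monomial]
    exact LR_mul (LR_const P s u a) (LR_pow hz n)

/-- Units.  Proof: `z q = p`, `P.ord p = P.ord z + P.ord q = 0`, `z⁻¹ p = q`. -/
theorem LR_inv {P : Pl K} {s u z : K} (hz : z ∈ LR P s u) (h0 : z ≠ 0) (h : P.ord z = 0) :
    z⁻¹ ∈ LR P s u := by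
  obtain ⟨p, hp, q, hq, hq0, hqo, h1⟩ := hz
  have hp0 : p ≠ 0 := by
    rw [← h1]
    exact mul_ne_zero h0 hq0
  have hpo : P.ord p = 0 := by
    rw [← h1, P.ord_mul h0 hq0, h, hqo, add_zero]
  exact ⟨q, hq, p, hp, hp0, hpo, by rw [← h1, ← mul_assoc, inv_mul_cancel₀ h0, one_mul]⟩

/-- Integer powers of a unit. -/
theorem LR_zpow {P : Pl K} {s u z : K} (hz : z ∈ LR P s u) (h0 : z ≠ 0) (h : P.ord z = 0)
    (n : ℤ) : z ^ n ∈ LR P s u := by
  cases n with
  | ofNat n =>
    rw [Int.ofNat_eq_natCast, zpow_natCast]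
    exact LR_pow hz n
  | negSucc n =>
    rw [zpow_negSucc, ← inv_pow]
    exact LR_pow (LR_inv hz h0 h) (n + 1)

/-- Elements of the ring are regular.  Proof: `Algebra.adjoin_induction` with `Pl.ord_nonneg_add`,
`Pl.ord_nonneg_mul`, `Pl.ord_C` for polynomials in `s`, `u`; then `P.ord z = P.ord p - 0`. -/
theorem LR_nonneg {P : Pl K} {s u z : K} (hs : 0 ≤ P.ord s) (hu : 0 ≤ P.ord u)
    (hz : z ∈ LR P s u) : 0 ≤ P.ord z := by
  have key : ∀ p ∈ Algebra.adjoin ℂ ({s, u} : Set K), 0 ≤ P.ord p := by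
    intro p hp
    induction hp using Algebra.adjoin_induction with
    | mem x hx =>
      rcases hx with rfl | hx
      · exact hs
      · rw [Set.mem_singleton_iff.1 hx]
        exact hu
    | algebraMap c => rw [P.ord_C]
    | add x y _ _ hx hy => exact P.ord_nonneg_add hx hy
    | mul x y _ _ hx hy => exact P.ord_nonneg_mul hx hy
  obtain ⟨p, hp, q, hq, hq0, hqo, h⟩ := hz
  by_cases hz0 : z = 0
  · rw [hz0, P.ord_zero]
  · have h1 := key p hp
    rw [← h, P.ord_mul hz0 hq0, hqo, add_zero] at h1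
    exact h1

/-- The derivation maps the ring to itself.  Proof: for polynomials in `s`, `u` by
`Algebra.adjoin_induction` (Leibniz, `D s = 1`, `D u` in the ring, `D` of a constant is zero); from
`z q = p`: `D z = (D p - z D q) q⁻¹`. -/
theorem LR_D {P : Pl K} {s u : K} (D : Derivation ℂ K K) (hDs : D s = 1)
    (hDu : D u ∈ LR P s u) {z : K} (hz : z ∈ LR P s u) : D z ∈ LR P s u := by
  have h1 : (1 : K) ∈ LR P s u := by
    have h := LR_const P s u 1
    rwa [map_one] at h
  have key : ∀ p ∈ Algebra.adjoin ℂ ({s, u} : Set K), D p ∈ LR P s u := by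
    intro p hp
    induction hp using Algebra.adjoin_induction with
    | mem x hx =>
      rcases hx with rfl | hx
      · rw [hDs]
        exact h1
      · rw [Set.mem_singleton_iff.1 hx]
        exact hDu
    | algebraMap c =>
      rw [D.map_algebraMap]
      have h := LR_const P s u 0
      rwa [map_zero] at h
    | add x y _ _ hx hy =>
      rw [map_add]
      exact LR_add hx hy
    | mul x y hx' hy' hx hy =>
      rw [D.leibniz, smul_eq_mul, smul_eq_mul]
      exact LR_add (LR_mul (LR_of_adjoin hx') hy) (LR_mul (LR_of_adjoin hy') hx)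
  obtain ⟨p, hp, q, hq, hq0, hqo, h⟩ := id hz
  have h2 : D p = z * D q + q * D z := by
    rw [← h, D.leibniz, smul_eq_mul, smul_eq_mul]
  have h3 : D z = (D p + -(z * D q)) * q⁻¹ := by
    rw [h2]
    field_simp
    ring
  rw [h3]
  exact LR_mul (LR_add (key p hp) (LR_neg (LR_mul hz (key q hq))))
    (LR_inv (LR_of_adjoin hq) hq0 hqo)

/-- Every element is a quotient of two elements of the ring.  Proof:
`IntermediateField.mem_adjoin_iff_div` or `IntermediateField.adjoin_induction`. -/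
theorem LR_frac {s u : K} (hgen : IntermediateField.adjoin ℂ ({s, u} : Set K) = ⊤) (P : Pl K)
    (z : K) : ∃ p ∈ LR P s u, ∃ q ∈ LR P s u, q ≠ 0 ∧ z * q = p := by
  have hz : z ∈ IntermediateField.adjoin ℂ ({s, u} : Set K) := by
    rw [hgen]
    exact IntermediateField.mem_top
  rw [IntermediateField.mem_adjoin_iff_div] at hz
  obtain ⟨p, hp, q, hq, hzpq⟩ := hz
  by_cases hq0 : q = 0
  · refine ⟨0, LR_of_adjoin (zero_mem _), 1, LR_of_adjoin (one_mem _), one_ne_zero, ?_⟩
    rw [hzpq, hq0, div_zero, zero_mul]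
  · refine ⟨p, LR_of_adjoin hp, q, LR_of_adjoin hq, hq0, ?_⟩
    rw [hzpq, div_mul_cancel₀ _ hq0]

/-- **The order of `s` is one.**

Proof.  There is a derivation `D` with `D s = 1`: `s` is not constant (`P.ord s ≠ 0`), so `s = χ X` for a
coordinate `χ` (`exists_subst`), finite (`finC_all φ hφ`), and `exists_deriv χ` gives `D`.  Let `κ` be the
number of `exists_kappa χ _ D _ P`, `k = P.ord s > 0`.  `P.ord (D s) = P.ord 1 = 0 = k - 1 + κ`, so
`κ = 1 - k`.  Suppose `k ≥ 2`.  Take `t` with `P.ord t = 1` (`Pl.exists_unif`); `t q = p` with `p`, `q` in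
`LR P s u` (`LR_frac`), so one of `p`, `q` (both nonzero) has an order not divisible by `k`; call it
`z`.  By induction on `j`: `D^[j] z ∈ LR P s u`, `D^[j] z ≠ 0`, `P.ord (D^[j] z) = P.ord z - j k` (the order
is not divisible by `k`, so it is not zero, and `hκ` applies: the order changes by `-1 + κ = -k`).  For
large `j` this contradicts `LR_nonneg`. -/
theorem ord_s_one (φ : E →ₐ[ℂ] K) (hφ : FinC φ) (P : Pl K) {s u : K} (hs : 0 < P.ord s)
    (hu : P.ord u = 0) (hgen : IntermediateField.adjoin ℂ ({s, u} : Set K) = ⊤)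
    (hD : ∀ D : Derivation ℂ K K, D s = 1 → D u ∈ LR P s u) : P.ord s = 1 := by
  have hnc : NonConst s := by
    intro c hc
    rw [hc, P.ord_C] at hs
    exact lt_irrefl _ hs
  obtain ⟨χ, hχ⟩ := exists_subst hnc
  have hχf := finC_all φ hφ χ
  obtain ⟨D, hD1, -⟩ := exists_deriv χ hχf
  have hDs : D s = 1 := by
    rw [← hχ]
    exact hD1
  obtain ⟨κ, hκ, -⟩ := exists_kappa χ hχf D ⟨s, by rw [hDs]; exact one_ne_zero⟩ P
  have hs0 : s ≠ 0 := by
    rintro rfl
    rw [P.ord_zero] at hs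
    exact lt_irrefl _ hs
  have hk1 := (hκ s hs0 hs.ne').2
  rw [hDs, P.ord_one] at hk1
  have hDu := hD D hDs
  by_contra hne
  have hk2 : 2 ≤ P.ord s := by omega
  obtain ⟨z, hz, hz0, hzd⟩ : ∃ z ∈ LR P s u, z ≠ 0 ∧ ¬ P.ord s ∣ P.ord z := by
    obtain ⟨t, ht0, ht1⟩ := P.exists_unif
    obtain ⟨p, hp, q, hq, hq0, h⟩ := LR_frac hgen P t
    have hp0 : p ≠ 0 := by
      rw [← h]
      exact mul_ne_zero ht0 hq0
    have hpo : P.ord p = 1 + P.ord q := by
      rw [← h, P.ord_mul ht0 hq0, ht1]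
    by_cases hd : P.ord s ∣ P.ord q
    · refine ⟨p, hp, hp0, fun hd' => ?_⟩
      rw [hpo, Int.dvd_add_left hd] at hd'
      have := Int.le_of_dvd one_pos hd'
      omega
    · exact ⟨q, hq, hq0, hd⟩
  have key : ∀ j : ℕ, D^[j] z ∈ LR P s u ∧ D^[j] z ≠ 0 ∧
      P.ord (D^[j] z) = P.ord z - j * P.ord s := by
    intro j
    induction j with
    | zero => exact ⟨hz, hz0, by simp⟩
    | succ j ih =>
      obtain ⟨h1, h2, h3⟩ := ih
      have hnz : P.ord (D^[j] z) ≠ 0 := by
        intro h4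
        rw [h3] at h4
        exact hzd ⟨j, by linarith⟩
      obtain ⟨h5, h6⟩ := hκ _ h2 hnz
      rw [Function.iterate_succ', Function.comp_apply]
      refine ⟨LR_D D hDs hDu h1, h5, ?_⟩
      rw [h6, h3]
      push_cast
      linarith
  obtain ⟨h1, -, h3⟩ := key ((P.ord z).toNat + 1)
  have h4 := LR_nonneg hs.le hu.ge h1
  rw [h3] at h4
  have h5 : P.ord z ≤ (P.ord z).toNat := Int.self_le_toNat _
  push_cast at h4
  nlinarith

end WildG
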