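import Pool.Agent.helper44.Gen.Abh

/-!
# The derivative of the unit `u` (helper44, MP_11236d_an, stage 3)
-/

namespace WildG

open Polynomial WildRat WildS WildV

variable {K : Type} [Field K] [Algebra ℂ K]

/-- The ring of the `z` in the local ring with `D z = z1 + s z2 D u`, `z1`, `z2` in the local ring. -/
def TR (P : Pl K) (s u : K) (D : Derivation ℂ K K) : Set K :=
  {z | z ∈ LR P s u ∧ ∃ z1 ∈ LR P s u, ∃ z2 ∈ LR P s u, D z = z1 + s * z2 * D u}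

theorem TR_const (P : Pl K) (s u : K) (D : Derivation ℂ K K) (c : ℂ) :
    algebraMap ℂ K c ∈ TR P s u D := by
  refine ⟨LR_const P s u c, 0, ?_, 0, ?_, ?_⟩
  · simpa using LR_const P s u 0
  · simpa using LR_const P s u 0
  · rw [D.map_algebraMap]
    ring

theorem TR_add {P : Pl K} {s u : K} {D : Derivation ℂ K K} {z w : K} (hz : z ∈ TR P s u D)
    (hw : w ∈ TR P s u D) : z + w ∈ TR P s u D := by
  obtain ⟨hz0, z1, hz1, z2, hz2, hz⟩ := hz
  obtain ⟨hw0, w1, hw1, w2, hw2, hw⟩ := hw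
  refine ⟨LR_add hz0 hw0, z1 + w1, LR_add hz1 hw1, z2 + w2, LR_add hz2 hw2, ?_⟩
  rw [map_add, hz, hw]
  ring

theorem TR_mul {P : Pl K} {s u : K} {D : Derivation ℂ K K} {z w : K} (hz : z ∈ TR P s u D)
    (hw : w ∈ TR P s u D) : z * w ∈ TR P s u D := by
  obtain ⟨hz0, z1, hz1, z2, hz2, hz⟩ := hz
  obtain ⟨hw0, w1, hw1, w2, hw2, hw⟩ := hw
  refine ⟨LR_mul hz0 hw0, z * w1 + w * z1, LR_add (LR_mul hz0 hw1) (LR_mul hw0 hz1),
    z * w2 + w * z2, LR_add (LR_mul hz0 hw2) (LR_mul hw0 hz2), ?_⟩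
  rw [D.leibniz, hz, hw, smul_eq_mul, smul_eq_mul]
  ring

theorem TR_aeval {P : Pl K} {s u : K} {D : Derivation ℂ K K} {z : K} (hz : z ∈ TR P s u D)
    (p : ℂ[X]) : aeval z p ∈ TR P s u D := by
  have hpow : ∀ n : ℕ, z ^ n ∈ TR P s u D := by
    intro n
    induction n with
    | zero =>
      rw [pow_zero, ← map_one (algebraMap ℂ K)]
      exact TR_const P s u D 1
    | succ n ih =>
      rw [pow_succ]
      exact TR_mul ih hz
  induction p using Polynomial.induction_on' with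
  | add p q hp hq =>
    rw [map_add]
    exact TR_add hp hq
  | monomial n c =>
    rw [aeval_monomial]
    exact TR_mul (TR_const P s u D c) (hpow n)

/-- Proof: `D z⁻¹ = - z⁻¹ ^ 2 * D z`. -/
theorem TR_inv {P : Pl K} {s u : K} {D : Derivation ℂ K K} {z : K} (hz : z ∈ TR P s u D)
    (h0 : z ≠ 0) (h : P.ord z = 0) : z⁻¹ ∈ TR P s u D := by
  obtain ⟨hz0, z1, hz1, z2, hz2, hz⟩ := hz
  have hi := LR_inv hz0 h0 h
  have hm : -z⁻¹ ^ 2 ∈ LR P s u := LR_neg (LR_pow hi 2)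
  refine ⟨hi, -z⁻¹ ^ 2 * z1, LR_mul hm hz1, -z⁻¹ ^ 2 * z2, LR_mul hm hz2, ?_⟩
  rw [D.leibniz_inv, hz, smul_eq_mul]
  ring

/-- `s ^ f * u ^ i` with `f ≥ 1` and an integer `i`.  Proof:
`D (s ^ f * u ^ i) = f s ^ (f - 1) u ^ i + s * (s ^ (f - 1) * i * u ^ (i - 1)) * D u`. -/
theorem TR_mon {P : Pl K} {s u : K} {D : Derivation ℂ K K} (hDs : D s = 1) (hu0 : u ≠ 0)
    (hu : P.ord u = 0) {f : ℕ} (hf : 1 ≤ f) (i : ℤ) : s ^ f * u ^ i ∈ TR P s u D := by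
  have hs := LR_s P s u
  have huL := LR_u P s u
  refine ⟨LR_mul (LR_pow hs f) (LR_zpow huL hu0 hu i), algebraMap ℂ K f * s ^ (f - 1) * u ^ i,
    LR_mul (LR_mul (LR_const P s u _) (LR_pow hs _)) (LR_zpow huL hu0 hu i),
    s ^ (f - 1) * algebraMap ℂ K i * u ^ (i - 1),
    LR_mul (LR_mul (LR_pow hs _) (LR_const P s u _)) (LR_zpow huL hu0 hu (i - 1)), ?_⟩
  have h1 : s ^ f = s * s ^ (f - 1) := by
    rw [← pow_succ']
    congr 1
    omega
  rw [D.leibniz, D.leibniz_zpow, D.leibniz_pow, hDs]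
  simp only [smul_eq_mul, nsmul_eq_mul, zsmul_eq_mul, map_natCast, map_intCast]
  rw [h1]
  ring

/-- The value of a polynomial with nonzero constant term at an element of positive order is a unit.
Proof: `p = C (p.eval 0) + X * q` (`Polynomial.divX`), `Pl.ord_add_eq`; `aeval z q` has order at least
zero (`DInt_aeval` of WS/DInt.lean). -/
theorem aeval_unit (P : Pl K) {z : K} (hz : 0 < P.ord z) {p : ℂ[X]} (hp : p.eval 0 ≠ 0) :
    aeval z p ≠ 0 ∧ P.ord (aeval z p) = 0 := by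
  have hz0 : z ≠ 0 := by
    intro h
    rw [h, P.ord_zero] at hz
    exact lt_irrefl _ hz
  have h1 : aeval z p = algebraMap ℂ K (p.coeff 0) + aeval z (divX p) * z := by
    conv_lhs => rw [← divX_mul_X_add p]
    rw [map_add, map_mul, aeval_X, aeval_C]
    ring
  have hc : algebraMap ℂ K (p.coeff 0) ≠ 0 := by
    rw [_root_.map_ne_zero, coeff_zero_eq_eval_zero]
    exact hp
  have h2 := P.ord_add_eq hc (w := aeval z (divX p) * z) (by
    by_cases h : aeval z (divX p) = 0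
    · left
      rw [h, zero_mul]
    · right
      rw [P.ord_C, P.ord_mul h hz0]
      have := DInt_aeval P hz.le (divX p)
      omega)
  rw [← h1, P.ord_C] at h2
  exact h2

/-- **The derivative of `u` lies in the local ring.**

Proof.  `x`, `y` are in `TR` (`TR_mon`), so are `H1 = p1(x) p2(y)` and `H2 = p3(x) p4(y)`; they have order
zero (`aeval_unit`).  `u ^ g = H2 H1⁻¹ =: H ∈ TR`.  `g u ^ (g - 1) D u = D H = z1 + s z2 D u`, so
`(g u ^ (g - 1) - s z2) D u = z1`; the coefficient `c` is in the local ring and has order zero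
(`g u ^ (g - 1)` has order zero, `s z2` is zero or has positive order: `Pl.ord_add_eq`), so
`D u = c⁻¹ z1` is in the local ring (`LR_inv`). -/
theorem D_unit {P : Pl K} {s u : K} (hs : 0 < P.ord s) (hu0 : u ≠ 0) (hu : P.ord u = 0)
    {i j : ℤ} {e f g : ℕ} (he : 1 ≤ e) (hf : 1 ≤ f) (hg : 1 ≤ g) {x y : K}
    (hx : x = s ^ f * u ^ i) (hy : y = s ^ e * u ^ j)
    {p1 p2 p3 p4 : ℂ[X]} (h1 : p1.eval 0 ≠ 0) (h2 : p2.eval 0 ≠ 0) (h3 : p3.eval 0 ≠ 0)
    (h4 : p4.eval 0 ≠ 0)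
    (h : u ^ g * (aeval x p1 * aeval y p2) = aeval x p3 * aeval y p4) (D : Derivation ℂ K K)
    (hDs : D s = 1) : D u ∈ LR P s u := by
  have hs0 : s ≠ 0 := by
    intro h0
    rw [h0, P.ord_zero] at hs
    exact lt_irrefl _ hs
  have hxT : x ∈ TR P s u D := hx ▸ TR_mon hDs hu0 hu hf i
  have hyT : y ∈ TR P s u D := hy ▸ TR_mon hDs hu0 hu he j
  have hord : ∀ (k : ℕ) (m : ℤ), 1 ≤ k → 0 < P.ord (s ^ k * u ^ m) := by
    intro k m hk
    rw [P.ord_mul (pow_ne_zero _ hs0) (zpow_ne_zero _ hu0), P.ord_pow, RH_ord_zpow, hu, mul_zero,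
      add_zero]
    positivity
  have hxo : 0 < P.ord x := hx ▸ hord f i hf
  have hyo : 0 < P.ord y := hy ▸ hord e j he
  obtain ⟨a1, b1⟩ := aeval_unit P hxo h1
  obtain ⟨a2, b2⟩ := aeval_unit P hyo h2
  have hH1 : aeval x p1 * aeval y p2 ≠ 0 := mul_ne_zero a1 a2
  have hH1o : P.ord (aeval x p1 * aeval y p2) = 0 := by rw [P.ord_mul a1 a2, b1, b2, add_zero]
  have hH : u ^ g = (aeval x p3 * aeval y p4) * (aeval x p1 * aeval y p2)⁻¹ := by
    rw [← h, mul_assoc, mul_inv_cancel₀ hH1, mul_one]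
  have hT : u ^ g ∈ TR P s u D := by
    rw [hH]
    exact TR_mul (TR_mul (TR_aeval hxT p3) (TR_aeval hyT p4))
      (TR_inv (TR_mul (TR_aeval hxT p1) (TR_aeval hyT p2)) hH1 hH1o)
  obtain ⟨-, z1, hz1, z2, hz2, hD⟩ := hT
  rw [D.leibniz_pow, smul_eq_mul, nsmul_eq_mul] at hD
  have hgK : (g : K) = algebraMap ℂ K (g : ℂ) := (map_natCast _ _).symm
  have hg0 : (g : K) ≠ 0 := by
    rw [hgK, _root_.map_ne_zero]
    exact_mod_cast Nat.one_le_iff_ne_zero.1 hg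
  have hA : (g : K) * u ^ (g - 1) ≠ 0 := mul_ne_zero hg0 (pow_ne_zero _ hu0)
  have hAo : P.ord ((g : K) * u ^ (g - 1)) = 0 := by
    rw [P.ord_mul hg0 (pow_ne_zero _ hu0), hgK, P.ord_C, P.ord_pow, hu, mul_zero, add_zero]
  have hc := P.ord_add_eq hA (w := -(s * z2)) (by
    by_cases h0 : z2 = 0
    · left
      rw [h0, mul_zero, neg_zero]
    · right
      rw [hAo, P.ord_neg, P.ord_mul hs0 h0]
      have := LR_nonneg hs.le hu.ge hz2
      omega)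
  rw [hAo] at hc
  have hcL : (g : K) * u ^ (g - 1) + -(s * z2) ∈ LR P s u := by
    apply LR_add
    · rw [hgK]
      exact LR_mul (LR_const P s u _) (LR_pow (LR_u P s u) _)
    · exact LR_neg (LR_mul (LR_s P s u) hz2)
  have hDu : D u = ((g : K) * u ^ (g - 1) + -(s * z2))⁻¹ * z1 := by
    rw [eq_inv_mul_iff_mul_eq₀ hc.1]
    linear_combination hD
  rw [hDu]
  exact LR_mul (LR_inv hcL hc.1 hc.2) hz1

/-- **Exact orders.**  If `K = ℂ(ξ, η)`, and `ξ ^ e` is a unit times `η ^ f` (quotients of polynomials in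
`ξ` and in `η` with nonzero constant terms), then `ord ξ = f / gcd`, `ord η = e / gcd`.

Proof.  `g = gcd e f`, `e = g e'`, `f = g f'`, `e'`, `f'` coprime.  Orders of `h` (`aeval_unit`):
`e ord ξ = f ord η`, so `e' ord ξ = f' ord η`; `f'` divides `ord ξ`: `ord ξ = f' k`, `ord η = e' k`, `k ≥ 1`.
Claim: `k = 1`.  Bezout: integers `α`, `β` with `α f' + β e' = 1`.  `s = ξ ^ α * η ^ β`,
`u = η ^ f' * ξ ^ (- e')` (integer powers; `ξ`, `η` are nonzero).  `ord s = k`, `ord u = 0`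
(`RH_ord_zpow`, `Pl.ord_mul`), `ξ = s ^ f' * u ^ (- β)`, `η = s ^ e' * u ^ α`.  `ξ`, `η` lie in
`adjoin ℂ {s, u}`, so this is `⊤`.  `u ^ g = η ^ f * ξ ^ (- e)`, so
`u ^ g * (aeval ξ p3 * aeval η p4) = aeval ξ p1 * aeval η p2`.  `D_unit`, `ord_s_one`. -/
theorem ord_pair_gen (φ : E →ₐ[ℂ] K) (hφ : FinC φ) (P : Pl K) {ξ η : K} (hξ : 0 < P.ord ξ)
    (hη : 0 < P.ord η) (hgen : IntermediateField.adjoin ℂ ({ξ, η} : Set K) = ⊤) {e f : ℕ}
    (he : 1 ≤ e) (hf : 1 ≤ f) {p1 p2 p3 p4 : ℂ[X]} (h1 : p1.eval 0 ≠ 0) (h2 : p2.eval 0 ≠ 0)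
    (h3 : p3.eval 0 ≠ 0) (h4 : p4.eval 0 ≠ 0)
    (h : ξ ^ e * (aeval ξ p1 * aeval η p2) = η ^ f * (aeval ξ p3 * aeval η p4)) :
    P.ord ξ * Nat.gcd e f = f ∧ P.ord η * Nat.gcd e f = e := by
  have hξ0 : ξ ≠ 0 := by
    intro h0
    rw [h0, P.ord_zero] at hξ
    exact lt_irrefl _ hξ
  have hη0 : η ≠ 0 := by
    intro h0
    rw [h0, P.ord_zero] at hη
    exact lt_irrefl _ hη
  obtain ⟨a1, b1⟩ := aeval_unit P hξ h1
  obtain ⟨a2, b2⟩ := aeval_unit P hη h2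
  obtain ⟨a3, b3⟩ := aeval_unit P hξ h3
  obtain ⟨a4, b4⟩ := aeval_unit P hη h4
  have hO := congrArg P.ord h
  rw [P.ord_mul (pow_ne_zero _ hξ0) (mul_ne_zero a1 a2), P.ord_mul a1 a2, b1, b2,
    P.ord_mul (pow_ne_zero _ hη0) (mul_ne_zero a3 a4), P.ord_mul a3 a4, b3, b4,
    P.ord_pow, P.ord_pow] at hO
  have hg : 0 < Nat.gcd e f := Nat.gcd_pos_of_pos_left _ he
  obtain ⟨g, hgdef⟩ : ∃ g, g = Nat.gcd e f := ⟨_, rfl⟩
  rw [← hgdef] at hg ⊢
  obtain ⟨e', he'⟩ : g ∣ e := hgdef ▸ Nat.gcd_dvd_left e f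
  obtain ⟨f', hf'⟩ : g ∣ f := hgdef ▸ Nat.gcd_dvd_right e f
  have hcop : Nat.Coprime f' e' := by
    have h5 := Nat.coprime_div_gcd_div_gcd (m := e) (n := f) (hgdef ▸ hg)
    rw [← hgdef, he', hf', Nat.mul_div_cancel_left _ hg, Nat.mul_div_cancel_left _ hg] at h5
    exact h5.symm
  have he'1 : 1 ≤ e' := by
    rcases Nat.eq_zero_or_pos e' with h5 | h5
    · rw [h5, mul_zero] at he'
      omega
    · exact h5
  have hf'1 : 1 ≤ f' := by
    rcases Nat.eq_zero_or_pos f' with h5 | h5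
    · rw [h5, mul_zero] at hf'
      omega
    · exact h5
  have hgZ : (g : ℤ) ≠ 0 := by exact_mod_cast hg.ne'
  have hrel : (e' : ℤ) * P.ord ξ = f' * P.ord η := by
    rw [he', hf'] at hO
    push_cast at hO
    apply mul_left_cancel₀ hgZ
    linear_combination hO
  have hcopZ : IsCoprime (f' : ℤ) (e' : ℤ) := Nat.isCoprime_iff_coprime.2 hcop
  obtain ⟨k, hk⟩ : (f' : ℤ) ∣ P.ord ξ := hcopZ.dvd_of_dvd_mul_left ⟨P.ord η, hrel⟩
  have hf'Z : (f' : ℤ) ≠ 0 := by exact_mod_cast (Nat.one_le_iff_ne_zero.1 hf'1)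
  have hkη : P.ord η = e' * k := by
    apply mul_left_cancel₀ hf'Z
    rw [← hrel, hk]
    ring
  have hkpos : 0 < k := by
    rw [hk] at hξ
    have : (0 : ℤ) < f' := by exact_mod_cast hf'1
    exact (mul_pos_iff_of_pos_left this).1 hξ
  obtain ⟨α, β, hαβ⟩ := hcopZ
  obtain ⟨s, hs⟩ : ∃ s, s = ξ ^ α * η ^ β := ⟨_, rfl⟩
  obtain ⟨u, hu⟩ : ∃ u, u = η ^ (f' : ℤ) * ξ ^ (-(e' : ℤ)) := ⟨_, rfl⟩
  have hs0 : s ≠ 0 := hs ▸ mul_ne_zero (zpow_ne_zero _ hξ0) (zpow_ne_zero _ hη0)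
  have hu0 : u ≠ 0 := hu ▸ mul_ne_zero (zpow_ne_zero _ hη0) (zpow_ne_zero _ hξ0)
  have hso : P.ord s = k := by
    rw [hs, P.ord_mul (zpow_ne_zero _ hξ0) (zpow_ne_zero _ hη0), RH_ord_zpow, RH_ord_zpow, hk, hkη]
    linear_combination k * hαβ
  have huo : P.ord u = 0 := by
    rw [hu, P.ord_mul (zpow_ne_zero _ hη0) (zpow_ne_zero _ hξ0), RH_ord_zpow, RH_ord_zpow, hk, hkη]
    ring
  have hξs : ξ = s ^ f' * u ^ (-β) := by
    rw [hs, hu, ← zpow_natCast, mul_zpow, mul_zpow, ← zpow_mul, ← zpow_mul, ← zpow_mul,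
      ← zpow_mul]
    have h5 : ξ ^ (α * (f' : ℤ)) * η ^ (β * (f' : ℤ)) *
        (η ^ ((f' : ℤ) * -β) * ξ ^ (-(e' : ℤ) * -β)) =
        ξ ^ (α * (f' : ℤ) + -(e' : ℤ) * -β) * η ^ (β * (f' : ℤ) + (f' : ℤ) * -β) := by
      rw [zpow_add₀ hξ0, zpow_add₀ hη0]
      ring
    rw [h5]
    have h6 : α * (f' : ℤ) + -(e' : ℤ) * -β = 1 := by linear_combination hαβ
    have h7 : β * (f' : ℤ) + (f' : ℤ) * -β = 0 := by ring
    rw [h6, h7, zpow_one, zpow_zero, mul_one]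
  have hηs : η = s ^ e' * u ^ α := by
    rw [hs, hu, ← zpow_natCast, mul_zpow, mul_zpow, ← zpow_mul, ← zpow_mul, ← zpow_mul,
      ← zpow_mul]
    have h5 : ξ ^ (α * (e' : ℤ)) * η ^ (β * (e' : ℤ)) *
        (η ^ ((f' : ℤ) * α) * ξ ^ (-(e' : ℤ) * α)) =
        ξ ^ (α * (e' : ℤ) + -(e' : ℤ) * α) * η ^ (β * (e' : ℤ) + (f' : ℤ) * α) := by
      rw [zpow_add₀ hξ0, zpow_add₀ hη0]
      ring
    rw [h5]
    have h6 : β * (e' : ℤ) + (f' : ℤ) * α = 1 := by linear_combination hαβ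
    have h7 : α * (e' : ℤ) + -(e' : ℤ) * α = 0 := by ring
    rw [h6, h7, zpow_one, zpow_zero, one_mul]
  have hgen' : IntermediateField.adjoin ℂ ({s, u} : Set K) = ⊤ := by
    rw [eq_top_iff, ← hgen, IntermediateField.adjoin_le_iff]
    have hsm : s ∈ IntermediateField.adjoin ℂ ({s, u} : Set K) :=
      IntermediateField.subset_adjoin _ _ (by simp)
    have hum : u ∈ IntermediateField.adjoin ℂ ({s, u} : Set K) :=
      IntermediateField.subset_adjoin _ _ (by simp)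
    rintro z (rfl | hz)
    · rw [hξs]
      exact mul_mem (pow_mem hsm _) (zpow_mem hum _)
    · rw [Set.mem_singleton_iff] at hz
      rw [hz, hηs]
      exact mul_mem (pow_mem hsm _) (zpow_mem hum _)
  have hug : u ^ g * (aeval ξ p3 * aeval η p4) = aeval ξ p1 * aeval η p2 := by
    have h5 : u ^ g = η ^ f * (ξ ^ e)⁻¹ := by
      rw [hu, mul_pow, ← zpow_natCast, ← zpow_natCast, ← zpow_mul, ← zpow_mul, he', hf',
        ← zpow_natCast η, ← zpow_natCast ξ, ← zpow_neg]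
      push_cast
      congr 2 <;> ring
    rw [h5]
    have h6 : ξ ^ e ≠ 0 := pow_ne_zero _ hξ0
    field_simp
    linear_combination -h
  have hone := ord_s_one φ hφ P (hso ▸ hkpos) huo hgen' (fun D hD =>
    D_unit (hso ▸ hkpos) hu0 huo he'1 hf'1 hg hξs hηs h3 h4 h1 h2 hug D hD)
  rw [hso] at hone
  rw [hkη, hk, hone, he', hf']
  push_cast
  constructor <;> ring

end WildG
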