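import Pool.Agent.helper44.Gen.AbhT
import Pool.Agent.helper21.GN.Ram
import Pool.Agent.helper21.WV.Cnt

/-!
# The point of a coordinate at a place; exact ramification numbers at the places of a pair
(helper44, MP_11236d_an, stage 3)
-/

namespace WildG

open Polynomial WildRat WildS WildV

variable {K : Type} [Field K] [Algebra ℂ K]

/-- The coordinate `φ` has the value `z ∈ P1` at the place `P`. -/
def Pt (φ : E →ₐ[ℂ] K) (P : Pl K) : P1 → Prop
  | none => P.ord (φ RatFunc.X) < 0
  | some a => P ∈ fib φ a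

/-- Proof: `exists_value`. -/
theorem exists_Pt {φ : E →ₐ[ℂ] K} (hφ : FinC φ) (P : Pl K) : ∃ z, Pt φ P z := by
  rcases le_or_gt 0 (P.ord (φ RatFunc.X)) with h | h
  · obtain ⟨a, ha⟩ := exists_value φ hφ P h
    exact ⟨some a, ha⟩
  · exact ⟨none, h⟩

/-- Proof: `Pl.value_unique`, `Pl.ord_nonneg_of_value`. -/
theorem Pt_unique {φ : E →ₐ[ℂ] K} {P : Pl K} {z w : P1} (hz : Pt φ P z) (hw : Pt φ P w) :
    z = w := by
  cases z with
  | none =>
    cases w with
    | none => rfl
    | some b =>
      exfalso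
      have h1 : P.ord (φ RatFunc.X) < 0 := hz
      have h2 : 0 ≤ P.ord (φ RatFunc.X) := P.ord_nonneg_of_value hw
      omega
  | some a =>
    cases w with
    | none =>
      exfalso
      have h1 : P.ord (φ RatFunc.X) < 0 := hw
      have h2 : 0 ≤ P.ord (φ RatFunc.X) := P.ord_nonneg_of_value hz
      omega
    | some b => rw [P.value_unique hz hw]

theorem Place_aeval_mem (L : IntermediateField ℂ K) {x : K} (hx : x ∈ L) (p : ℂ[X]) :
    aeval x p ∈ L := by
  have h1 := Polynomial.aeval_algebraMap_apply K (⟨x, hx⟩ : L) p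
  have h2 : algebraMap L K ⟨x, hx⟩ = x := rfl
  rw [h2] at h1
  rw [h1]
  exact (aeval (⟨x, hx⟩ : L) p).2

theorem Place_range_mem (L : IntermediateField ℂ K) {φ : E →ₐ[ℂ] K} (hx : φ RatFunc.X ∈ L)
    (c : E) : φ c ∈ L := by
  have h1 : φ c = aeval (φ RatFunc.X) c.num / aeval (φ RatFunc.X) c.denom := by
    rw [← coord_poly, ← coord_poly, ← map_div₀, RatFunc.num_div_denom]
  rw [h1]
  exact L.div_mem (Place_aeval_mem L hx _) (Place_aeval_mem L hx _)

/-- Proof.  `K` is finite over `E` (through `φ`) and `minpoly E u` has degree `[K : E]`, so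
`E⟮u⟯ = ⊤` (`IntermediateField.adjoin.finrank`, equality of dimensions).  Let `L = adjoin ℂ {φ X, u}`.  It
contains the range of `φ` (every element of `E` is a quotient of polynomials in `X`;
`RatFunc.induction_on`, or `coord_poly` and `num_div_denom`), and `u`, so `L ⊇ E⟮u⟯`
(`IntermediateField.adjoin_induction` over `E`, or `Algebra.adjoin E {u} = ⊤` because `u` is
integral, and `Algebra.adjoin_induction`). -/
theorem gen_of_deg {φ : E →ₐ[ℂ] K} (hφ : FinC φ) {u : K} (h : (mu φ u).natDegree = deg φ) :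
    IntermediateField.adjoin ℂ ({φ RatFunc.X, u} : Set K) = ⊤ := by
  letI : Algebra E K := φ.toRingHom.toAlgebra
  haveI : FiniteDimensional E K := hφ
  have hprim : IntermediateField.adjoin E ({u} : Set K) = ⊤ := by
    rw [Field.primitive_element_iff_minpoly_natDegree_eq]
    exact h
  set L := IntermediateField.adjoin ℂ ({φ RatFunc.X, u} : Set K) with hL
  have hX : φ RatFunc.X ∈ L := IntermediateField.subset_adjoin _ _ (by simp)
  have hu : u ∈ L := IntermediateField.subset_adjoin _ _ (by simp)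
  rw [eq_top_iff]
  intro z _
  have hz : z ∈ IntermediateField.adjoin E ({u} : Set K) := by
    rw [hprim]
    exact IntermediateField.mem_top
  induction hz using IntermediateField.adjoin_induction with
  | mem x hx =>
    rw [Set.mem_singleton_iff.1 hx]
    exact hu
  | algebraMap c => exact Place_range_mem L hX c
  | add x y _ _ hx hy => exact L.add_mem (hx trivial) (hy trivial)
  | inv x _ hx => exact L.inv_mem (hx trivial)
  | mul x y _ _ hx hy => exact L.mul_mem (hx trivial) (hy trivial)

/-- The function `A(x) - c`, respectively `1 / A(x)` if `c = ∞`. -/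
noncomputable def tpar (t : K) : P1 → K
  | none => t⁻¹
  | some c => t - algebraMap ℂ K c

/-- The other polynomial of the value at a point. -/
theorem Place_other {A : RF} (hn : 1 ≤ A.n) {x : K} (hx : NonConst x) (z : P1) :
    ∃ F' : ℂ[X], tpar (A.app x) (A.val z) * aeval x F' = aeval x (A.F (A.val z)) ∧
      (∀ a, z = some a → F'.eval a ≠ 0) ∧ (z = none → F'.natDegree = A.n) := by
  have hQ : aeval x A.Q ≠ 0 := hx.aeval_ne_zero (A.Q_ne_zero hn)
  cases hc : A.val z with
  | some c =>
    refine ⟨A.Q, ?_, ?_, ?_⟩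
    · change (A.app x - algebraMap ℂ K c) * _ = _
      rw [A.app_sub hn hx c, div_mul_cancel₀ _ hQ]
    · rintro a rfl h0
      simp only [RF.val, h0, if_true] at hc
      exact absurd hc (by simp)
    · rintro rfl
      have h0 : A.Q.coeff A.n ≠ 0 := by
        intro h0
        simp only [RF.val, h0, if_true] at hc
        exact absurd hc (by simp)
      exact le_antisymm (le_max_right _ _) (le_natDegree_of_ne_zero h0)
  | none =>
    refine ⟨A.P, ?_, ?_, ?_⟩
    · change (A.app x)⁻¹ * _ = aeval x A.Q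
      have hP0 : A.P ≠ 0 := by
        intro h0
        have h1 : A.val z = none := hc
        have hu : IsUnit A.Q := by
          have h2 := A.cop
          rw [h0, isCoprime_zero_left] at h2
          exact h2
        have h3 : A.Q.natDegree = 0 := natDegree_eq_zero_of_isUnit hu
        have h4 : A.n = max A.P.natDegree A.Q.natDegree := rfl
        rw [h0, h3, natDegree_zero] at h4
        simp only [max_self] at h4
        omega
      have hP : aeval x A.P ≠ 0 := hx.aeval_ne_zero hP0
      unfold RF.app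
      rw [inv_div, div_mul_cancel₀ _ hP]
    · rintro a rfl h0
      have h1 : A.Q.eval a = 0 := by
        by_contra h1
        simp only [RF.val, h1, if_false] at hc
        exact absurd hc (by simp)
      obtain ⟨b, c, hbc⟩ := A.cop
      have h2 := congrArg (fun f => f.eval a) hbc
      simp [h0, h1] at h2
    · rintro rfl
      have h0 : A.Q.coeff A.n = 0 := by
        by_contra h0
        simp only [RF.val, h0, if_false] at hc
        exact absurd hc (by simp)
      have h4 : A.n = max A.P.natDegree A.Q.natDegree := rfl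
      have h5 : A.Q.natDegree ≠ A.n := by
        intro h5
        rw [← h5] at h0
        exact A.Q_ne_zero hn (leadingCoeff_eq_zero.1 h0)
      rcases le_total A.P.natDegree A.Q.natDegree with h | h
      · rw [max_eq_right h] at h4
        exact absurd h4.symm h5
      · rw [max_eq_left h] at h4
        exact h4.symm

theorem Place_reverse {x : K} (hx : x ≠ 0) (p : ℂ[X]) :
    aeval x⁻¹ p.reverse * x ^ p.natDegree = aeval x p := by
  letI : Invertible x := invertibleOfNonzero hx
  have h1 := eval₂_reverse_mul_pow (algebraMap ℂ K) x p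
  rw [invOf_eq_inv] at h1
  exact h1

/-- **Charts.**  At a place `P` with value `z` of `φ`: there is `ξ` (`x - a`, or `1 / x`), with
`ord ξ = ram φ P`, such that `A(x) - A(z)` (or `1 / A(x)`) is `ξ ^ (A.e z)` times a quotient of
polynomials in `ξ` with nonzero constant terms.

Proof.  Put `x = φ X`, `c = A.val z`, `F = A.F c` (`RF.F`), `F' = A.Q` if `c` is finite, `F' = A.P` if `c = ∞`.
In both cases `tpar t c = F(x) / F'(x)` (`coord_elt`, `RF.app`; the denominators are nonzero:
`NonConst.aeval_ne_zero`).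
`z = some a`: `ξ = x - a`, `x = a + ξ`.  `F = (X - a) ^ e * G0` with `e = A.e z = F.rootMultiplicity a` (`RF.e`,
`RF.mult`), `G0(a) ≠ 0` (`pow_mul_divByMonic_rootMultiplicity_eq`,
`eval_divByMonic_pow_rootMultiplicity_ne_zero`, `RF.F_ne_zero`), `F'(a) ≠ 0` (from the definition of
`A.val` and coprimality).  `G = G0.comp (X + C a)`, `H = F'.comp (X + C a)`.
`z = none`: `ξ = 1 / x`.  For a polynomial `p ≠ 0` and `N ≥ p.natDegree`:
`ξ ^ N * aeval x p = ξ ^ (N - p.natDegree) * aeval ξ p.reverse` (`Polynomial.eval₂_reverse_mul_pow` or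
`reverse`; the constant term of `reverse` is the leading coefficient).  With `N = A.n`:
`F'.natDegree = A.n` (from the definition of `A.val none`) and `e = A.n - F.natDegree`.
`G = F.reverse`, `H = F'.reverse`. -/
theorem exists_chart {A : RF} (hn : 1 ≤ A.n) {φ : E →ₐ[ℂ] K} {P : Pl K} {z : P1}
    (hz : Pt φ P z) : ∃ (ξ : K) (G H : ℂ[X]), G.eval 0 ≠ 0 ∧ H.eval 0 ≠ 0 ∧
      P.ord ξ = ram φ P ∧ 0 < P.ord ξ ∧
      (∀ L : IntermediateField ℂ K, ξ ∈ L → φ RatFunc.X ∈ L) ∧
      tpar (φ (elt A)) (A.val z) * aeval ξ H = ξ ^ (A.e z) * aeval ξ G := by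
  obtain ⟨F', hF', hsome, hnone⟩ := Place_other hn (coord_nonConst φ) z
  rw [← coord_elt] at hF'
  cases z with
  | some a =>
    have ha : P ∈ fib φ a := hz
    have hFe : (X - C a) ^ (A.e (some a)) * (A.F (A.val (some a)) /ₘ (X - C a) ^ (A.e (some a))) =
        A.F (A.val (some a)) := pow_mul_divByMonic_rootMultiplicity_eq _ a
    have hG0 : (A.F (A.val (some a)) /ₘ (X - C a) ^ (A.e (some a))).eval a ≠ 0 :=
      eval_divByMonic_pow_rootMultiplicity_ne_zero a (A.F_ne_zero hn _)
    set G0 := A.F (A.val (some a)) /ₘ (X - C a) ^ (A.e (some a)) with hG0d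
    have hcomp : ∀ p : ℂ[X], aeval (φ RatFunc.X - algebraMap ℂ K a) (p.comp (X + C a)) =
        aeval (φ RatFunc.X) p := by
      intro p
      rw [aeval_comp, map_add, aeval_X, aeval_C, sub_add_cancel]
    refine ⟨φ RatFunc.X - algebraMap ℂ K a, G0.comp (X + C a), F'.comp (X + C a), ?_, ?_, ?_, ?_,
      ?_, ?_⟩
    · rw [eval_comp, eval_add, eval_X, eval_C, zero_add]
      exact hG0
    · rw [eval_comp, eval_add, eval_X, eval_C, zero_add]
      exact hsome a rfl
    · rw [ram_fib ha]
    · exact ha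
    · intro L hL
      have h1 := L.add_mem hL (L.algebraMap_mem a)
      rw [sub_add_cancel] at h1
      exact h1
    · rw [hcomp, hcomp, hF', ← hFe, map_mul, map_pow, map_sub, aeval_X, aeval_C]
  | none =>
    have ha : P.ord (φ RatFunc.X) < 0 := hz
    have hx0 : φ RatFunc.X ≠ 0 := by
      intro h0
      rw [h0, P.ord_zero] at ha
      exact lt_irrefl _ ha
    have hF0 : A.F (A.val none) ≠ 0 := A.F_ne_zero hn _
    have hdeg : F'.natDegree = A.n := hnone rfl
    have hF'0 : F' ≠ 0 := by
      rintro rfl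
      rw [natDegree_zero] at hdeg
      omega
    refine ⟨(φ RatFunc.X)⁻¹, (A.F (A.val none)).reverse, F'.reverse, ?_, ?_, ?_, ?_, ?_, ?_⟩
    · rw [← coeff_zero_eq_eval_zero, coeff_zero_reverse]
      exact leadingCoeff_ne_zero.2 hF0
    · rw [← coeff_zero_eq_eval_zero, coeff_zero_reverse]
      exact leadingCoeff_ne_zero.2 hF'0
    · rw [P.ord_inv, ram_pole ha]
    · rw [P.ord_inv]
      omega
    · intro L hL
      have h1 := L.inv_mem hL
      rw [inv_inv] at h1
      exact h1
    · have h1 := Place_reverse hx0 F'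
      have h2 := Place_reverse hx0 (A.F (A.val none))
      rw [← h1, ← h2, hdeg] at hF'
      have hle : (A.F (A.val none)).natDegree ≤ A.n := A.natDegree_F_le _
      have he : A.e none = A.n - (A.F (A.val none)).natDegree := rfl
      have h3 : (φ RatFunc.X)⁻¹ ^ A.e none * φ RatFunc.X ^ A.n =
          φ RatFunc.X ^ (A.F (A.val none)).natDegree := by
        have h4 : φ RatFunc.X ^ A.n = φ RatFunc.X ^ A.e none *
            φ RatFunc.X ^ (A.F (A.val none)).natDegree := by
          rw [← pow_add]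
          congr 1
          omega
        rw [h4, ← mul_assoc, ← mul_pow, inv_mul_cancel₀ hx0, one_pow, one_mul]
      have hxn : φ RatFunc.X ^ A.n ≠ 0 := pow_ne_zero _ hx0
      apply mul_right_cancel₀ hxn
      calc tpar (φ (elt A)) (A.val none) * aeval (φ RatFunc.X)⁻¹ F'.reverse * φ RatFunc.X ^ A.n
          = tpar (φ (elt A)) (A.val none) * (aeval (φ RatFunc.X)⁻¹ F'.reverse *
            φ RatFunc.X ^ A.n) := by ring
        _ = aeval (φ RatFunc.X)⁻¹ (A.F (A.val none)).reverse *
            φ RatFunc.X ^ (A.F (A.val none)).natDegree := hF'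
        _ = aeval (φ RatFunc.X)⁻¹ (A.F (A.val none)).reverse *
            ((φ RatFunc.X)⁻¹ ^ A.e none * φ RatFunc.X ^ A.n) := by rw [h3]
        _ = _ := by ring

theorem Place_tpar_pos {A : RF} (hn : 1 ≤ A.n) {φ : E →ₐ[ℂ] K} {P : Pl K} {z : P1}
    (hz : Pt φ P z) : 0 < P.ord (tpar (φ (elt A)) (A.val z)) := by
  obtain ⟨ξ, G, H, hG, hH, -, hξ, -, heq⟩ := exists_chart hn hz
  obtain ⟨hG0, hG1⟩ := aeval_unit P hξ hG
  obtain ⟨hH0, hH1⟩ := aeval_unit P hξ hH
  have hξ0 : ξ ≠ 0 := by
    rintro rfl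
    rw [P.ord_zero] at hξ
    exact lt_irrefl _ hξ
  have he := A.one_le_e hn z
  have ht0 : tpar (φ (elt A)) (A.val z) ≠ 0 := by
    intro h0
    rw [h0, zero_mul] at heq
    exact mul_ne_zero (pow_ne_zero _ hξ0) hG0 heq.symm
  have h1 := congrArg P.ord heq
  rw [P.ord_mul ht0 hH0, P.ord_mul (pow_ne_zero _ hξ0) hG0, P.ord_pow, hG1, hH1, add_zero,
    add_zero] at h1
  rw [h1]
  have he' : (0 : ℤ) < (A.e z : ℤ) := by exact_mod_cast he
  exact mul_pos he' hξ

theorem Place_tpar_unique {P : Pl K} {t : K} {c c' : P1} (h : 0 < P.ord (tpar t c))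
    (h' : 0 < P.ord (tpar t c')) : c = c' := by
  cases c with
  | none =>
    cases c' with
    | none => rfl
    | some b =>
      exfalso
      have h1 : 0 < P.ord t⁻¹ := h
      rw [P.ord_inv] at h1
      have h2 : 0 ≤ P.ord t := P.ord_nonneg_of_value h'
      omega
  | some a =>
    cases c' with
    | none =>
      exfalso
      have h1 : 0 < P.ord t⁻¹ := h'
      rw [P.ord_inv] at h1
      have h2 : 0 ≤ P.ord t := P.ord_nonneg_of_value h
      omega
    | some b => rw [P.value_unique h h']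

/-- The value of `t = A(x)` at the place is `A(z)`.  Proof: from `exists_chart` (`aeval_unit`) `tpar t c`
has positive order; this determines `c` (`Pl.value_unique`, `Pl.ord_nonneg_of_value`, `Pl.ord_inv`). -/
theorem val_eq {A : RF} (hn : 1 ≤ A.n) {φ ψ : E →ₐ[ℂ] K} (h : φ (elt A) = ψ (elt A)) {P : Pl K}
    {z w : P1} (hz : Pt φ P z) (hw : Pt ψ P w) : A.val z = A.val w := by
  have h1 := Place_tpar_pos hn hz
  have h2 := Place_tpar_pos hn hw
  rw [← h] at h2
  exact Place_tpar_unique h1 h2

/-- **Exact ramification numbers** at every place of a field generated by two coordinates with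
`A(x) = A(y)`.

Proof.  Charts `(ξ, G, H)` for `φ`, `z` and `(η, G', H')` for `ψ`, `w`; `A.val z = A.val w` (`val_eq`) and
`φ (elt A) = ψ (elt A)`, so `ξ ^ (A.e z) G(ξ) H'(η) = η ^ (A.e w) G'(η) H(ξ)`; `ord_pair_gen` with `p1 = G`,
`p2 = H'`, `p3 = H`, `p4 = G'`; `adjoin {ξ, η}` contains `φ X`, `ψ X`, so it is `⊤`. -/
theorem ram_pair {A : RF} (hn : 1 ≤ A.n) {φ ψ : E →ₐ[ℂ] K} (hφ : FinC φ)
    (hgen : IntermediateField.adjoin ℂ ({φ RatFunc.X, ψ RatFunc.X} : Set K) = ⊤)
    (h : φ (elt A) = ψ (elt A)) {P : Pl K} {z w : P1} (hz : Pt φ P z) (hw : Pt ψ P w) :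
    ram φ P * Nat.gcd (A.e z) (A.e w) = A.e w ∧ ram ψ P * Nat.gcd (A.e z) (A.e w) = A.e z := by
  have hval := val_eq hn h hz hw
  obtain ⟨ξ, G, H, hG, hH, hξr, hξ, hξL, heq⟩ := exists_chart hn hz
  obtain ⟨η, G', H', hG', hH', hηr, hη, hηL, heq'⟩ := exists_chart hn hw
  rw [← h, ← hval] at heq'
  have htop : IntermediateField.adjoin ℂ ({ξ, η} : Set K) = ⊤ := by
    rw [eq_top_iff, ← hgen, IntermediateField.adjoin_le_iff]
    have h1 : ξ ∈ IntermediateField.adjoin ℂ ({ξ, η} : Set K) :=
      IntermediateField.subset_adjoin _ _ (by simp)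
    have h2 : η ∈ IntermediateField.adjoin ℂ ({ξ, η} : Set K) :=
      IntermediateField.subset_adjoin _ _ (by simp)
    rintro y (rfl | hy)
    · exact hξL _ h1
    · rw [Set.mem_singleton_iff.1 hy]
      exact hηL _ h2
  have key : ξ ^ (A.e z) * (aeval ξ G * aeval η H') =
      η ^ (A.e w) * (aeval ξ H * aeval η G') := by
    calc ξ ^ (A.e z) * (aeval ξ G * aeval η H')
        = (ξ ^ (A.e z) * aeval ξ G) * aeval η H' := by ring
      _ = (tpar (φ (elt A)) (A.val z) * aeval η H') * aeval ξ H := by rw [← heq]; ring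
      _ = _ := by rw [heq']; ring
  have h5 := ord_pair_gen φ hφ P hξ hη htop (A.one_le_e hn z) (A.one_le_e hn w) hG hH' hH hG' key
  rw [hξr, hηr] at h5
  exact h5

end WildG
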