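import Pool.Agent.helper44.Gen.Fam
import Pool.Agent.helper44.Gen.Place

/-!
# Counting the places of a component (helper44, MP_11236d_an, stage 3)
-/

namespace WildG

open Polynomial WildRat WildS WildV

variable {K : Type} [Field K] [Algebra ℂ K]

open Classical in
/-- The places over the pair `(a, b)`. -/
noncomputable def PT {φ : E →ₐ[ℂ] K} (hφ : FinC φ) (ψ : E →ₐ[ℂ] K) (a b : ℂ) : Finset (Pl K) :=
  (fibS φ hφ a).filter fun P => P ∈ fib ψ b

theorem mem_PT {φ : E →ₐ[ℂ] K} (hφ : FinC φ) {ψ : E →ₐ[ℂ] K} {a b : ℂ} {P : Pl K} :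
    P ∈ PT hφ ψ a b ↔ P ∈ fib φ a ∧ P ∈ fib ψ b := by
  classical
  unfold PT
  rw [Finset.mem_filter, mem_fibS]

theorem CntF_n {A : RF} (hA : NormG A) : 1 ≤ A.n := by
  have := hA.two
  omega

/-- Orders at a place over `(a, b)`. -/
theorem CntF_ord {A : RF} (hA : NormG A) {φ ψ : E →ₐ[ℂ] K} (hφ : FinC φ)
    (hdeg : (mu φ (ψ RatFunc.X)).natDegree = deg φ) (h : φ (elt A) = ψ (elt A)) {a b : ℂ}
    {P : Pl K} (hP : P ∈ PT hφ ψ a b) :
    ram φ P * Nat.gcd (A.e (some a)) (A.e (some b)) = A.e (some b) ∧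
    P.ord (ψ RatFunc.X - algebraMap ℂ K b) * Nat.gcd (A.e (some a)) (A.e (some b)) =
      A.e (some a) := by
  obtain ⟨h1, h2⟩ := (mem_PT hφ).1 hP
  obtain ⟨h3, h4⟩ := ram_pair (CntF_n hA) hφ (gen_of_deg hφ hdeg) h
    (z := some a) (w := some b) h1 h2
  refine ⟨h3, ?_⟩
  rwa [ram_fib h2] at h4

/-- The number of places over `(a, b)`.

Proof.  `mu_norm φ hφ (ψ X)` with `m * natDegree = deg φ`, so `m = 1` (`deg_pos`):
`∑ P ∈ fibS φ hφ a, P.ord (ψ X - b) = (plE a).ord (mu(b))`.  The places not over `(a, b)` contribute zero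
(as in `PS_mu`, WV/Cnt.lean: `place_pair`, `Pl.ord_sub_of_ne`).  At the others
`P.ord (ψ X - b) * gcd = A.e (some a)` (`ram_pair`, `ram_fib`, `gen_of_deg`); multiply by `gcd`. -/
theorem PT_card {A : RF} (hA : NormG A) {φ ψ : E →ₐ[ℂ] K} (hφ : FinC φ)
    (hdeg : (mu φ (ψ RatFunc.X)).natDegree = deg φ) (h : φ (elt A) = ψ (elt A)) {a b t0 : ℂ}
    (ha : a ∈ fC A t0) :
    ((PT hφ ψ a b).card : ℤ) * A.e (some a) =
      Nat.gcd (A.e (some a)) (A.e (some b)) *
        (plE a).ord ((mu φ (ψ RatFunc.X)).eval (algebraMap ℂ E b)) := by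
  have hn := CntF_n hA
  obtain ⟨m, hm, hmd, hmu⟩ := mu_norm φ hφ (ψ RatFunc.X)
  have hm1 : m = 1 := by
    have h1 := deg_pos hφ
    rw [hdeg] at hmd
    nlinarith
  have hne : ψ RatFunc.X ≠ algebraMap ℂ K b := fun h' => coord_sub_ne ψ b (by rw [h', sub_self])
  have h1 := (hmu a b hne).2
  rw [hm1, Nat.cast_one, one_mul] at h1
  have h2 : ∑ P ∈ PT hφ ψ a b, P.ord (ψ RatFunc.X - algebraMap ℂ K b) =
      (plE a).ord ((mu φ (ψ RatFunc.X)).eval (algebraMap ℂ E b)) := by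
    rw [← h1]
    refine Finset.sum_subset ?_ fun P hP hP' => ?_
    · intro P hP
      rw [mem_fibS]
      exact ((mem_PT hφ).1 hP).1
    · rw [mem_fibS] at hP
      rw [mem_PT] at hP'
      obtain ⟨hQa, hA'⟩ := (mem_fC' hn).1 ha
      obtain ⟨b', hb', -, -, -⟩ := place_pair A hA.lt (finC_all φ hφ ψ) h hP hQa hA'
      have hbb : b' ≠ b := by
        rintro rfl
        exact hP' ⟨hP, hb'⟩
      exact (P.ord_sub_of_ne hb' hbb).2
  rw [← h2, Finset.mul_sum, Finset.sum_congr rfl fun P hP => (by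
    rw [mul_comm]
    exact (CntF_ord hA hφ hdeg h hP).2 : _ = (A.e (some a) : ℤ))]
  simp

/-- The contribution of the places over `(a, b)` to the ramification of `φ`.

Proof.  `ram φ P * g = A.e (some b)` (`ram_pair`), so the sum is
`card * (e_b / g - 1) = (g ord / e_a) (e_b - g) / g` by `PT_card`. -/
theorem PT_ram {A : RF} (hA : NormG A) {φ ψ : E →ₐ[ℂ] K} (hφ : FinC φ)
    (hdeg : (mu φ (ψ RatFunc.X)).natDegree = deg φ) (h : φ (elt A) = ψ (elt A)) {a b t0 : ℂ}
    (ha : a ∈ fC A t0) :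
    ((∑ P ∈ PT hφ ψ a b, (ram φ P - 1) : ℤ) : ℚ) =
      ((A.e (some b) : ℚ) - Nat.gcd (A.e (some a)) (A.e (some b))) / A.e (some a) *
        ((plE a).ord ((mu φ (ψ RatFunc.X)).eval (algebraMap ℂ E b)) : ℤ) := by
  have hn := CntF_n hA
  have h1 := PT_card hA hφ hdeg h (b := b) ha
  set g := Nat.gcd (A.e (some a)) (A.e (some b)) with hg
  have hea : (A.e (some a) : ℚ) ≠ 0 := by
    have := A.one_le_e hn (some a)
    exact_mod_cast (by omega : A.e (some a) ≠ 0)
  have hg0 : (g : ℚ) ≠ 0 := by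
    have h2 : 0 < g := Nat.gcd_pos_of_pos_left _ (A.one_le_e hn (some a))
    exact_mod_cast h2.ne'
  have h3 : ((∑ P ∈ PT hφ ψ a b, (ram φ P - 1) : ℤ) : ℚ) =
      (PT hφ ψ a b).card * ((A.e (some b) : ℚ) / g - 1) := by
    push_cast
    rw [Finset.sum_congr rfl fun P hP => (by
      have h4 := (CntF_ord hA hφ hdeg h hP).1
      rw [← hg] at h4
      have h5 : (ram φ P : ℚ) * g = A.e (some b) := by exact_mod_cast h4
      rw [← h5, mul_div_assoc, div_self hg0, mul_one] :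
        (ram φ P : ℚ) - 1 = (A.e (some b) : ℚ) / g - 1)]
    rw [Finset.sum_const, nsmul_eq_mul]
  have h4 : ((PT hφ ψ a b).card : ℚ) * A.e (some a) =
      g * ((plE a).ord ((mu φ (ψ RatFunc.X)).eval (algebraMap ℂ E b)) : ℤ) := by
    exact_mod_cast h1
  rw [h3]
  have h5 : ((PT hφ ψ a b).card : ℚ) =
      g * ((plE a).ord ((mu φ (ψ RatFunc.X)).eval (algebraMap ℂ E b)) : ℤ) / A.e (some a) := by
    rw [← h4, mul_div_assoc, div_self hea, mul_one]
  rw [h5]
  field_simp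

open Classical in
/-- The finite critical values of `A`. -/
noncomputable def crit (A : RF) : Finset ℂ :=
  if h : {p : ℂ | ∃ a, A.val (some a) = some p ∧ A.e (some a) ≠ 1}.Finite then h.toFinset else ∅

/-- Proof: the set is the image of the finite set of ramified points (`ramified_finite`). -/
theorem mem_crit {A : RF} (hn : 1 ≤ A.n) {p : ℂ} :
    p ∈ crit A ↔ ∃ a, A.val (some a) = some p ∧ A.e (some a) ≠ 1 := by
  classical
  have hfin : {p : ℂ | ∃ a, A.val (some a) = some p ∧ A.e (some a) ≠ 1}.Finite := by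
    have h1 : (A.val '' {z | A.e z ≠ 1}).Finite := (A.ramified_finite hn).image _
    refine Set.Finite.of_finite_image (f := (some : ℂ → P1)) (h1.subset ?_)
      ((Option.some_injective ℂ).injOn)
    rintro _ ⟨p, ⟨a, h2, h3⟩, rfl⟩
    exact ⟨some a, h3, h2⟩
  unfold crit
  rw [dif_pos hfin, Set.Finite.mem_toFinset]
  rfl

/-- Ramified places lie over pairs of points over a critical value. -/
theorem ram_cover {A : RF} (hA : NormG A) {φ ψ : E →ₐ[ℂ] K} (hφ : FinC φ)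
    (hdeg : (mu φ (ψ RatFunc.X)).natDegree = deg φ) (h : φ (elt A) = ψ (elt A)) {P : Pl K}
    (hP : ram φ P ≠ 1) : ∃ t0 ∈ crit A, ∃ a ∈ fC A t0, ∃ b ∈ fC A t0, P ∈ PT hφ ψ a b := by
  have hn := CntF_n hA
  obtain ⟨z, hz⟩ := exists_Pt hφ P
  obtain ⟨w, hw⟩ := exists_Pt (finC_all φ hφ ψ) P
  have h1 := (ram_pair hn hφ (gen_of_deg hφ hdeg) h hz hw).1
  have h2 := val_eq hn h hz hw
  have hew : A.e w ≠ 1 := by
    intro h3
    rw [h3, Nat.gcd_one_right, Nat.cast_one, mul_one] at h1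
    exact hP h1
  have hv0 : A.val none = none := Quad_val_none A hA.lt
  cases w with
  | none => exact absurd (hA.unram none hv0) hew
  | some b =>
    cases hvb : A.val (some b) with
    | none => exact absurd (hA.unram _ hvb) hew
    | some t0 =>
      rw [hvb] at h2
      cases z with
      | none =>
        rw [hv0] at h2
        exact absurd h2 (by simp)
      | some a =>
        exact ⟨t0, (mem_crit hn).2 ⟨b, hvb, hew⟩, a, (mem_fC hn).2 h2, b, (mem_fC hn).2 hvb,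
          (mem_PT hφ).2 ⟨hz, hw⟩⟩

/-- The bound for the ramification of one component. -/
theorem cmp_le {A : RF} (hA : NormG A) {φ ψ : E →ₐ[ℂ] K} (hφ : FinC φ)
    (hdeg : (mu φ (ψ RatFunc.X)).natDegree = deg φ) (h : φ (elt A) = ψ (elt A))
    (T : Finset (Pl K)) :
    ((∑ P ∈ T, (ram φ P - 1) : ℤ) : ℚ) ≤
      ∑ t0 ∈ crit A, ∑ a ∈ fC A t0, ∑ b ∈ fC A t0,
        ((A.e (some b) : ℚ) - Nat.gcd (A.e (some a)) (A.e (some b))) / A.e (some a) *
          ((plE a).ord ((mu φ (ψ RatFunc.X)).eval (algebraMap ℂ E b)) : ℤ) := by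
  classical
  have hn := CntF_n hA
  have h1 : ∑ t0 ∈ crit A, ∑ a ∈ fC A t0, ∑ b ∈ fC A t0,
        ((A.e (some b) : ℚ) - Nat.gcd (A.e (some a)) (A.e (some b))) / A.e (some a) *
          ((plE a).ord ((mu φ (ψ RatFunc.X)).eval (algebraMap ℂ E b)) : ℤ) =
      ((∑ t0 ∈ crit A, ∑ a ∈ fC A t0, ∑ b ∈ fC A t0,
        ∑ P ∈ PT hφ ψ a b, (ram φ P - 1) : ℤ) : ℚ) := by
    rw [Int.cast_sum]
    refine Finset.sum_congr rfl fun t0 _ => ?_
    rw [Int.cast_sum]
    refine Finset.sum_congr rfl fun a ha => ?_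
    rw [Int.cast_sum]
    refine Finset.sum_congr rfl fun b _ => ?_
    exact (PT_ram hA hφ hdeg h ha).symm
  rw [h1, Int.cast_le]
  have hram : ∀ P : Pl K, 0 ≤ ram φ P - 1 := fun P => by
    have := ram_pos hφ P
    omega
  set S : Finset (ℂ × ℂ × ℂ) := (crit A).biUnion fun t0 => (fC A t0).biUnion fun a =>
    (fC A t0).image fun b => (t0, a, b) with hS
  have h2 : ∑ P ∈ T, (ram φ P - 1) ≤
      ∑ P ∈ (crit A).biUnion fun t0 => (fC A t0).biUnion fun a => (fC A t0).biUnion fun b =>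
        PT hφ ψ a b, (ram φ P - 1) := by
    rw [← Finset.sum_filter_add_sum_filter_not T (fun P => ram φ P = 1)]
    have h3 : ∑ P ∈ T.filter (fun P => ram φ P = 1), (ram φ P - 1) = 0 := by
      refine Finset.sum_eq_zero fun P hP => ?_
      rw [(Finset.mem_filter.1 hP).2, sub_self]
    rw [h3, zero_add]
    refine Finset.sum_le_sum_of_subset_of_nonneg ?_ fun P _ _ => hram P
    intro P hP
    obtain ⟨t0, ht0, a, ha, b, hb, hPT⟩ := ram_cover hA hφ hdeg h (Finset.mem_filter.1 hP).2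
    simp only [Finset.mem_biUnion]
    exact ⟨t0, ht0, a, ha, b, hb, hPT⟩
  refine h2.trans ?_
  have hsb : ∀ {ι : Type} (s : Finset ι) (f : ι → Finset (Pl K)),
      ∑ P ∈ s.biUnion f, (ram φ P - 1) ≤ ∑ i ∈ s, ∑ P ∈ f i, (ram φ P - 1) := by
    intro ι s f
    induction s using Finset.induction_on with
    | empty => simp
    | insert i s hi ih =>
      rw [Finset.biUnion_insert, Finset.sum_insert hi]
      have h4 := Finset.sum_union_inter (s₁ := f i) (s₂ := s.biUnion f)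
        (f := fun P => ram φ P - 1)
      have h5 : 0 ≤ ∑ P ∈ f i ∩ s.biUnion f, (ram φ P - 1) :=
        Finset.sum_nonneg fun P _ => hram P
      linarith
  refine (hsb _ _).trans (Finset.sum_le_sum fun t0 _ => ?_)
  refine (hsb _ _).trans (Finset.sum_le_sum fun a _ => ?_)
  exact hsb _ _

/-- The weight of a fibre as a sum over pairs of points. -/
theorem CntF_wt {A : RF} (hA : NormG A) (t0 : ℂ) :
    ((wt (pas A (some t0)) : ℕ) : ℚ) = ∑ a ∈ fC A t0, ∑ b ∈ fC A t0,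
      ((A.e (some b) : ℚ) - Nat.gcd (A.e (some a)) (A.e (some b))) := by
  have hn := CntF_n hA
  rw [pasF_eq hn hA.lt]
  unfold wt pasF
  rw [Multiset.map_map]
  have h1 : ∀ a : ℂ, (((fC A t0).val.map fun a => A.e (some a)).map fun b =>
      A.e (some a) - Nat.gcd (A.e (some a)) b).sum =
      ∑ b ∈ fC A t0, (A.e (some a) - Nat.gcd (A.e (some a)) (A.e (some b))) := by
    intro a
    rw [Multiset.map_map]
    rfl
  have h2 : (Multiset.map ((fun a => (Multiset.map (fun b => a - a.gcd b)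
      (Multiset.map (fun a => A.e (some a)) (fC A t0).val)).sum) ∘ fun a => A.e (some a))
      (fC A t0).val).sum = ∑ a ∈ fC A t0, ∑ b ∈ fC A t0,
        (A.e (some a) - Nat.gcd (A.e (some a)) (A.e (some b))) := by
    rw [Finset.sum_congr rfl fun a _ => (h1 a).symm]
    rfl
  rw [h2, Finset.sum_comm]
  push_cast
  refine Finset.sum_congr rfl fun a _ => Finset.sum_congr rfl fun b _ => ?_
  rw [Nat.cast_sub (Nat.gcd_le_left _ (A.one_le_e hn (some b))), Nat.gcd_comm]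

/-- **A component with `2g - 2 ≤ 0`.** -/
theorem exists_genusLe {A : RF} (hA : NormG A) (hT : TW A) :
    ∃ (K : Type) (_ : Field K) (_ : Algebra ℂ K) (φ ψ : E →ₐ[ℂ] K), FinC φ ∧ φ ≠ ψ ∧
      φ (elt A) = ψ (elt A) ∧ GenusLe φ := by
  classical
  have hn := CntF_n hA
  obtain ⟨Fs, hF, hGG⟩ := exists_fam hA
  by_contra hcon
  have hB : ∀ F ∈ Fs, (2 * (F.natDegree : ℚ) + 1) ≤
      ∑ t0 ∈ crit A, ∑ a ∈ fC A t0, ∑ b ∈ fC A t0,
        ((A.e (some b) : ℚ) - Nat.gcd (A.e (some a)) (A.e (some b))) / A.e (some a) *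
          ((plE a).ord (F.eval (algebraMap ℂ E b)) : ℤ) := by
    intro F hFs
    obtain ⟨hFi, hFm⟩ := hF F hFs
    have hd : (X - C RatFunc.X) * F ∣ GG A := by
      rw [hGG]
      exact mul_dvd_mul_left _ (Finset.dvd_prod_of_mem _ hFs)
    obtain ⟨K, i1, i2, φ, ψ, hφ, hne, hAe, hmu, hdeg⟩ := exists_cmp hn hFi hFm hd
    have hnot : ¬ GenusLe φ := fun h => hcon ⟨K, i1, i2, φ, ψ, hφ, hne, hAe, h⟩
    unfold GenusLe at hnot
    push Not at hnot
    obtain ⟨T, hTl⟩ := hnot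
    have h1 := cmp_le hA hφ (by rw [hmu, hdeg]) hAe T
    rw [hmu] at h1
    refine le_trans ?_ h1
    rw [hdeg] at hTl
    have h2 : 2 * (F.natDegree : ℤ) + 1 ≤ ∑ P ∈ T, (ram φ P - 1) := by omega
    exact_mod_cast h2
  have hS := Finset.sum_le_sum hB
  have hR : ∑ F ∈ Fs, ∑ t0 ∈ crit A, ∑ a ∈ fC A t0, ∑ b ∈ fC A t0,
        ((A.e (some b) : ℚ) - Nat.gcd (A.e (some a)) (A.e (some b))) / A.e (some a) *
          ((plE a).ord (F.eval (algebraMap ℂ E b)) : ℤ) =
      ∑ t0 ∈ crit A, ((wt (pas A (some t0)) : ℕ) : ℚ) := by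
    rw [Finset.sum_comm]
    refine Finset.sum_congr rfl fun t0 _ => ?_
    rw [CntF_wt hA t0, Finset.sum_comm]
    refine Finset.sum_congr rfl fun a ha => ?_
    rw [Finset.sum_comm]
    refine Finset.sum_congr rfl fun b hb => ?_
    rw [← Finset.mul_sum]
    have h1 := fam_ord hA hGG ha hb
    have h2 : ∑ F ∈ Fs, (((plE a).ord (F.eval (algebraMap ℂ E b)) : ℤ) : ℚ) =
        (A.e (some a) : ℚ) - (if a = b then 1 else 0) := by
      have h3 : ((∑ F ∈ Fs, (plE a).ord (F.eval (algebraMap ℂ E b)) : ℤ) : ℚ) =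
          (((A.e (some a) : ℤ) - (if a = b then 1 else 0) : ℤ) : ℚ) := by rw [h1]
      rw [Int.cast_sum] at h3
      rw [h3]
      push_cast
      split_ifs <;> simp
    rw [h2]
    have hea : (A.e (some a) : ℚ) ≠ 0 := by
      have := A.one_le_e hn (some a)
      exact_mod_cast (by omega : A.e (some a) ≠ 0)
    by_cases hab : a = b
    · subst hab
      rw [Nat.gcd_self, sub_self, zero_div, zero_mul]
    · rw [if_neg hab, sub_zero, div_mul_cancel₀ _ hea]
  rw [hR] at hS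
  have hdeg := fam_deg hA hF hGG
  have hL : ∑ F ∈ Fs, (2 * (F.natDegree : ℚ) + 1) = 2 * ((A.n : ℚ) - 1) + Fs.card := by
    rw [Finset.sum_add_distrib, ← Finset.mul_sum]
    have h1 : (∑ F ∈ Fs, (F.natDegree : ℚ)) + 1 = A.n := by exact_mod_cast hdeg
    rw [← h1]
    simp
  have hne : 0 < Fs.card := by
    rw [Finset.card_pos]
    by_contra h
    rw [Finset.not_nonempty_iff_eq_empty] at h
    rw [h, Finset.sum_empty] at hdeg
    have := hA.two
    omega
  have hT' := hT ((crit A).map ⟨some, Option.some_injective ℂ⟩)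
  rw [Finset.sum_map] at hT'
  have hT2 : ((∑ t0 ∈ crit A, wt (pas A (some t0)) : ℕ) : ℚ) ≤ 2 * (A.n : ℚ) - 2 := by
    have h1 : ((∑ t0 ∈ crit A, wt (pas A (some t0)) : ℕ) : ℚ) ≤ ((2 * A.n - 2 : ℕ) : ℚ) := by
      exact_mod_cast hT'
    rw [Nat.cast_sub (by omega)] at h1
    push_cast at h1 ⊢
    exact h1
  push_cast at hT2
  rw [hL] at hS
  have hne' : (0 : ℚ) < Fs.card := by exact_mod_cast hne
  linarith

end WildG
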