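import Pool.Agent.helper44.Gen.GDefs

/-!
# The family of all components (helper44, MP_11236d_an, stage 3)
-/

namespace WildG

open Polynomial WildRat WildS WildV

theorem Fam_n {A : RF} (hA : NormG A) : 1 ≤ A.n := by
  have := hA.two
  omega

theorem Fam_fact (n : ℕ) : ∀ G : E[X], G.Monic → Squarefree G → G.natDegree ≤ n →
    ∃ Fs : Finset E[X], (∀ F ∈ Fs, Irreducible F ∧ F.Monic) ∧ G = ∏ F ∈ Fs, F := by
  classical
  induction n with
  | zero =>
    intro G hG _ hd
    refine ⟨∅, by simp, ?_⟩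
    rw [Finset.prod_empty]
    exact hG.natDegree_eq_zero.1 (by omega)
  | succ n ih =>
    intro G hG hsq hd
    by_cases hu : IsUnit G
    · refine ⟨∅, by simp, ?_⟩
      rw [Finset.prod_empty]
      exact hG.isUnit_iff.1 hu
    · obtain ⟨F, hFm, hFi, H, hH⟩ := exists_monic_irreducible_factor G hu
      have hHm : H.Monic := hFm.of_mul_monic_left (by rw [← hH]; exact hG)
      have hHs : Squarefree H := hsq.squarefree_of_dvd (Dvd.intro_left F hH.symm)
      have hdeg : G.natDegree = F.natDegree + H.natDegree := by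
        rw [hH, hFm.natDegree_mul hHm]
      have hFpos : 0 < F.natDegree := hFi.natDegree_pos
      obtain ⟨Fs, h1, h2⟩ := ih H hHm hHs (by omega)
      have hnot : F ∉ Fs := by
        intro hF
        have h3 : F ∣ H := by
          rw [h2]
          exact Finset.dvd_prod_of_mem _ hF
        have h4 : F * F ∣ G := by
          rw [hH]
          exact mul_dvd_mul_left F h3
        exact hFi.not_isUnit (hsq F h4)
      refine ⟨insert F Fs, ?_, ?_⟩
      · intro F' hF'
        rcases Finset.mem_insert.1 hF' with h | h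
        · rw [h]
          exact ⟨hFi, hFm⟩
        · exact h1 F' h
      · rw [Finset.prod_insert hnot, ← h2, hH]

/-- All irreducible factors.

Proof.  `GG A` is monic (`Clique_monic`), `T - x` divides it (`GG_root`), `GG A = (T - x) G`, `G` monic.
Factor `G` into monic irreducible polynomials (strong induction on the degree with
`exists_monic_irreducible_factor`, as in `Clique_find` of WV/Clique.lean; or
`UniqueFactorizationMonoid.normalizedFactors`), a multiset; it has no repetitions because `GG A` is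
squarefree (`GG_separable`). -/
theorem exists_fam {A : RF} (hA : NormG A) : ∃ Fs : Finset E[X],
    (∀ F ∈ Fs, Irreducible F ∧ F.Monic) ∧ GG A = (X - C RatFunc.X) * ∏ F ∈ Fs, F := by
  have hn := Fam_n hA
  have hGm := Clique_monic hn hA.monic hA.lt
  have hroot : (X - C RatFunc.X : E[X]) ∣ GG A := by
    rw [dvd_iff_isRoot, IsRoot.def]
    exact GG_root A hn
  obtain ⟨G0, hG0⟩ := hroot
  have hG0m : G0.Monic := (monic_X_sub_C _).of_mul_monic_left (by rw [← hG0]; exact hGm)
  have hsq : Squarefree G0 :=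
    (GG_separable A hn).squarefree.squarefree_of_dvd (Dvd.intro_left _ hG0.symm)
  obtain ⟨Fs, h1, h2⟩ := Fam_fact G0.natDegree G0 hG0m hsq le_rfl
  exact ⟨Fs, h1, by rw [hG0, ← h2]⟩

/-- The degrees.  Proof: `GG_natDegree`, `natDegree_prod_of_monic`. -/
theorem fam_deg {A : RF} (hA : NormG A) {Fs : Finset E[X]}
    (hF : ∀ F ∈ Fs, Irreducible F ∧ F.Monic) (h : GG A = (X - C RatFunc.X) * ∏ F ∈ Fs, F) :
    ∑ F ∈ Fs, F.natDegree + 1 = A.n := by
  have hm : ∀ F ∈ Fs, F.Monic := fun F h1 => (hF F h1).2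
  rw [← GG_natDegree A (Fam_n hA), h,
    (monic_X_sub_C _).natDegree_mul (monic_prod_of_monic _ _ hm), natDegree_X_sub_C,
    natDegree_prod_of_monic _ _ hm, add_comm]

/-- The component of a monic irreducible factor; its function field is generated by the two
coordinates.

Proof.  Copy the proof of `exists_factor_pair` (WV/DTFacts.lean).  `deg φ = F.natDegree`: the power
basis of `AdjoinRoot F` (`AdjoinRoot.powerBasis`, `PowerBasis.finrank`, `AdjoinRoot.powerBasis_dim`);
`mu = F` because both are monic and associated (`mu_pos`, `eq_of_monic_of_associated`). -/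
theorem exists_cmp {A : RF} (hn : 1 ≤ A.n) {F : E[X]} (hF : Irreducible F) (hm : F.Monic)
    (hd : (X - C RatFunc.X) * F ∣ GG A) :
    ∃ (K : Type) (_ : Field K) (_ : Algebra ℂ K) (φ ψ : E →ₐ[ℂ] K), FinC φ ∧ φ ≠ ψ ∧
      φ (elt A) = ψ (elt A) ∧ mu φ (ψ RatFunc.X) = F ∧ deg φ = F.natDegree := by
  have hfact : Fact (Irreducible F) := ⟨hF⟩
  let φ : E →ₐ[ℂ] AdjoinRoot F := IsScalarTower.toAlgHom ℂ E (AdjoinRoot F)
  have hφ : φ.toRingHom = AdjoinRoot.of F := rfl
  have hφ' : ∀ u : E, φ u = AdjoinRoot.of F u := fun u => rfl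
  set y : AdjoinRoot F := AdjoinRoot.root F with hy
  have hFG : F ∣ GG A := (dvd_mul_left _ _).trans hd
  have hroot : (GG A).eval₂ (AdjoinRoot.of F) y = 0 :=
    eval₂_eq_zero_of_dvd_of_eval₂_eq_zero _ _ hFG (AdjoinRoot.eval₂_root F)
  have hev : ∀ p : ℂ[X], eval₂ (AdjoinRoot.of F) y (p.map (algebraMap ℂ E)) = aeval y p := by
    intro p
    rw [eval₂_map, aeval_def]
    rfl
  have hPQ : aeval y A.P = φ (elt A) * aeval y A.Q := by
    rw [GG, eval₂_sub, eval₂_mul, eval₂_C, hev, hev] at hroot
    exact sub_eq_zero.1 hroot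
  have hyN : NonConst y := by
    intro c hc
    rw [hc, aeval_algebraMap_apply_eq_algebraMap_eval,
      aeval_algebraMap_apply_eq_algebraMap_eval] at hPQ
    by_cases hq : A.Q.eval c = 0
    · rw [hq, map_zero, mul_zero, map_eq_zero] at hPQ
      obtain ⟨u, v, huv⟩ := A.cop
      have := congrArg (Polynomial.eval c) huv
      rw [eval_add, eval_mul, eval_mul, hPQ, hq] at this
      simp at this
    · apply elt_nonConst A hn (A.P.eval c / A.Q.eval c)
      apply coord_inj φ
      rw [coord_C, map_div₀, hPQ, mul_div_assoc, div_self, mul_one]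
      rwa [Ne, map_eq_zero]
  obtain ⟨ψ, hψ⟩ := exists_subst hyN
  refine ⟨AdjoinRoot F, inferInstance, inferInstance, φ, ψ, ?_, ?_, ?_, ?_, ?_⟩
  · have hfin : Module.Finite E (AdjoinRoot F) := (AdjoinRoot.powerBasis hF.ne_zero).finite
    have h1 : (algebraMap E (AdjoinRoot F)).Finite := RingHom.finite_algebraMap.2 hfin
    exact h1
  · intro heq
    have h1 : AdjoinRoot.mk F (X - C RatFunc.X) = 0 := by
      rw [map_sub, AdjoinRoot.mk_X, AdjoinRoot.mk_C, sub_eq_zero, ← hy, ← hψ, ← heq]
      rfl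
    rw [AdjoinRoot.mk_eq_zero] at h1
    have h2 : F * F ∣ GG A := (mul_dvd_mul_right h1 F).trans hd
    exact hF.not_isUnit ((GG_separable A hn).squarefree F h2)
  · rw [coord_elt ψ, hψ]
    unfold RF.app
    rw [hPQ, mul_div_assoc, div_self, mul_one]
    exact hyN.aeval_ne_zero (A.Q_ne_zero hn)
  · rw [hψ]
    unfold mu
    let := φ.toRingHom.toAlgebra
    have h1 : aeval (R := E) y F = 0 := by
      rw [aeval_def]
      exact AdjoinRoot.eval₂_root F
    have h2 : IsIntegral E y := by
      have : IsAlgebraic E y := ⟨F, hF.ne_zero, h1⟩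
      exact this.isIntegral
    exact eq_of_monic_of_associated (minpoly.monic h2) hm
      ((minpoly.irreducible h2).associated_of_dvd hF (minpoly.dvd E y h1))
  · have h1 : Module.finrank E (AdjoinRoot F) = F.natDegree := by
      rw [(AdjoinRoot.powerBasis hF.ne_zero).finrank, AdjoinRoot.powerBasis_dim]
    have h2 : φ.toRingHom.toAlgebra = (inferInstance : Algebra E (AdjoinRoot F)) :=
      Algebra.algebra_ext _ _ fun _ => rfl
    unfold deg
    rw [h2]
    exact h1

theorem Fam_x (a b : ℂ) : (plE a).ord (algebraMap ℂ E b - RatFunc.X) =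
    if a = b then 1 else 0 := by
  have e1 : algebraMap ℂ E b - RatFunc.X = -(algebraMap ℂ[X] E (X - C b)) := by
    rw [map_sub, RatFunc.algebraMap_X, ← algC_E]
    ring
  rw [e1, Pl.ord_neg, plE_poly a (X_sub_C_ne_zero b), rootMultiplicity_X_sub_C]
  split_ifs <;> simp

/-- The orders of the values of the factors add up.

Proof.  Evaluate `h` at the constant `b` and take `ord` at `a` (`plE a`): `ord_GG` gives
`A.e (some a)` (`e_fC`) for the left side and that it is not zero; `ord_a (b - x)` is `1` if `a = b`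
(`Clique_x`) and `0` otherwise (`Clique_x` has the computation: `b - x = -(x - b)`, root multiplicity);
`Pl.ord_prod`. -/
theorem fam_ord {A : RF} (hA : NormG A) {Fs : Finset E[X]}
    (h : GG A = (X - C RatFunc.X) * ∏ F ∈ Fs, F) {a b t0 : ℂ} (ha : a ∈ fC A t0)
    (hb : b ∈ fC A t0) :
    ∑ F ∈ Fs, (plE a).ord (F.eval (algebraMap ℂ E b)) =
      (A.e (some a) : ℤ) - (if a = b then 1 else 0) := by
  classical
  have hn := Fam_n hA
  obtain ⟨hQa, hPa⟩ := (mem_fC' hn).1 ha
  obtain ⟨hQb, hPb⟩ := (mem_fC' hn).1 hb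
  obtain ⟨h1, h2⟩ := ord_GG A hn hPa hQa hPb hQb
  rw [← e_fC hn ha, h, eval_mul, eval_sub, eval_X, eval_C, eval_prod] at h2
  rw [h, eval_mul, eval_sub, eval_X, eval_C, eval_prod] at h1
  have h3 := left_ne_zero_of_mul h1
  have h4 := right_ne_zero_of_mul h1
  rw [Pl.ord_mul _ h3 h4, Pl.ord_prod _ _ _ (Finset.prod_ne_zero_iff.1 h4), Fam_x] at h2
  rw [← h2]
  ring

end WildG
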