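import Mathlib

/-!
# Hensel's lemma for power series over the complex numbers (helper44, MP_11236d_an, stage 3)
-/

namespace WildG

open Polynomial

/-- The power series ring. -/
abbrev PS : Type := PowerSeries ℂ

theorem mem_span_X {f : PS} : f ∈ Ideal.span {(PowerSeries.X : PS)} ↔
    PowerSeries.constantCoeff f = 0 := by
  rw [Ideal.mem_span_singleton, PowerSeries.X_dvd_iff]

/-- The reversed polynomial, divided by its leading coefficient. -/
noncomputable def revP (H : PS[X]) (u : PS) : PS[X] :=
  ∑ i ∈ Finset.range (H.natDegree + 1), C (u * H.coeff i) * X ^ (H.natDegree - i)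

theorem revP_monic (H : PS[X]) {u : PS} (hu : u * H.coeff 0 = 1) : (revP H u).Monic := by
  refine monic_of_natDegree_le_of_coeff_eq_one H.natDegree ?_ ?_
  · unfold revP
    refine natDegree_sum_le_of_forall_le _ _ fun i _ => ?_
    refine (natDegree_C_mul_X_pow_le _ _).trans (Nat.sub_le _ _)
  · unfold revP
    rw [finset_sum_coeff, Finset.sum_eq_single 0]
    · rw [Nat.sub_zero, coeff_C_mul_X_pow, if_pos rfl, hu]
    · intro i hi hi0
      rw [coeff_C_mul_X_pow, if_neg]
      rw [Finset.mem_range] at hi
      omega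
    · intro h
      exact absurd (Finset.mem_range.2 (Nat.succ_pos _)) h

theorem revP_eval (H : PS[X]) (u : PS) {v w : PS} (h : v * w = 1) :
    (revP H u).eval v = u * v ^ H.natDegree * H.eval w := by
  unfold revP
  rw [eval_finset_sum, H.eval_eq_sum_range (x := w), Finset.mul_sum]
  refine Finset.sum_congr rfl fun i hi => ?_
  rw [Finset.mem_range] at hi
  rw [eval_mul, eval_C, eval_pow, eval_X]
  have h1 : v ^ H.natDegree * w ^ i = v ^ (H.natDegree - i) := by
    have h2 : H.natDegree = (H.natDegree - i) + i := by omega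
    conv_lhs => rw [h2]
    rw [pow_add, mul_assoc, ← mul_pow, h, one_pow, mul_one]
  rw [← h1]
  ring

theorem revP_deriv (H : PS[X]) (u : PS) {v w : PS} (h : v * w = 1) :
    v * (revP H u).derivative.eval v = H.natDegree * (revP H u).eval v -
      u * v ^ H.natDegree * (w * H.derivative.eval w) := by
  have hw : w * H.derivative.eval w =
      ∑ i ∈ Finset.range (H.natDegree + 1), (i : PS) * H.coeff i * w ^ i := by
    rw [derivative_eval, sum_over_range]
    · rw [Finset.mul_sum]
      refine Finset.sum_congr rfl fun i _ => ?_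
      cases i with
      | zero => simp
      | succ i =>
        rw [Nat.add_sub_cancel, pow_succ]
        ring
    · intro i
      rw [zero_mul, zero_mul]
  rw [hw]
  unfold revP
  rw [derivative_sum, eval_finset_sum, eval_finset_sum, Finset.mul_sum, Finset.mul_sum,
    Finset.mul_sum, ← Finset.sum_sub_distrib]
  refine Finset.sum_congr rfl fun i hi => ?_
  rw [Finset.mem_range] at hi
  rw [derivative_C_mul_X_pow, eval_mul, eval_C, eval_pow, eval_X, eval_mul, eval_C, eval_pow,
    eval_X]
  have h1 : v ^ H.natDegree * w ^ i = v ^ (H.natDegree - i) := by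
    have h2 : H.natDegree = (H.natDegree - i) + i := by omega
    conv_lhs => rw [h2]
    rw [pow_add, mul_assoc, ← mul_pow, h, one_pow, mul_one]
  have h3 : ((H.natDegree - i : ℕ) : PS) = (H.natDegree : PS) - (i : PS) := by
    rw [Nat.cast_sub (by omega)]
  have h4 : v * (((H.natDegree - i : ℕ) : PS) * v ^ (H.natDegree - i - 1)) =
      ((H.natDegree - i : ℕ) : PS) * v ^ (H.natDegree - i) := by
    rcases Nat.eq_zero_or_pos (H.natDegree - i) with h0 | h0
    · rw [h0]
      simp
    · obtain ⟨k, hk⟩ : ∃ k, H.natDegree - i = k + 1 := ⟨H.natDegree - i - 1, by omega⟩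
      rw [hk, Nat.add_sub_cancel, pow_succ]
      ring
  calc v * (u * H.coeff i * ((H.natDegree - i : ℕ) : PS) * v ^ (H.natDegree - i - 1))
      = u * H.coeff i * (v * (((H.natDegree - i : ℕ) : PS) * v ^ (H.natDegree - i - 1))) := by
        ring
    _ = u * H.coeff i * (((H.natDegree - i : ℕ) : PS) * v ^ (H.natDegree - i)) := by rw [h4]
    _ = (H.natDegree : PS) * (u * H.coeff i * v ^ (H.natDegree - i)) -
        u * v ^ H.natDegree * ((i : PS) * H.coeff i * w ^ i) := by
        rw [h3, ← h1]
        ring

/-- **Hensel's lemma** for power series, the polynomial need not be monic. -/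
theorem hensel_ps (H : PS[X]) {w0 : ℂ} (hw0 : w0 ≠ 0)
    (h0 : PowerSeries.constantCoeff (H.coeff 0) ≠ 0)
    (h1 : PowerSeries.constantCoeff (H.eval (PowerSeries.C w0)) = 0)
    (h2 : PowerSeries.constantCoeff (H.derivative.eval (PowerSeries.C w0)) ≠ 0) :
    ∃ w : PS, PowerSeries.constantCoeff w = w0 ∧ H.eval w = 0 := by
  have hinst : HenselianRing PS (Ideal.span {(PowerSeries.X : PS)}) := inferInstance
  set u : PS := (H.coeff 0)⁻¹ with hu
  have hu1 : u * H.coeff 0 = 1 := PowerSeries.inv_mul_cancel _ h0
  set v0 : PS := PowerSeries.C w0⁻¹ with hv0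
  have hvw : v0 * PowerSeries.C w0 = 1 := by
    rw [hv0, ← map_mul, inv_mul_cancel₀ hw0, map_one]
  have e1 : (revP H u).eval v0 ∈ Ideal.span {(PowerSeries.X : PS)} := by
    rw [mem_span_X, revP_eval H u hvw, map_mul, h1, mul_zero]
  have e2 : IsUnit (Ideal.Quotient.mk (Ideal.span {(PowerSeries.X : PS)})
      ((revP H u).derivative.eval v0)) := by
    apply IsUnit.map
    rw [PowerSeries.isUnit_iff_constantCoeff, isUnit_iff_ne_zero]
    intro hcon
    have h3 := congrArg PowerSeries.constantCoeff (revP_deriv H u hvw)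
    rw [map_mul, hcon, mul_zero, map_sub, map_mul, mem_span_X.1 e1, mul_zero, zero_sub,
      map_mul, map_mul, map_mul] at h3
    have hu0 : PowerSeries.constantCoeff u ≠ 0 := by
      intro h4
      have h5 := congrArg PowerSeries.constantCoeff hu1
      rw [map_mul, h4, zero_mul, map_one] at h5
      exact zero_ne_one h5
    have hv00 : PowerSeries.constantCoeff (v0 ^ H.natDegree) ≠ 0 := by
      rw [map_pow, hv0, PowerSeries.constantCoeff_C]
      exact pow_ne_zero _ (inv_ne_zero hw0)
    have h6 : PowerSeries.constantCoeff (PowerSeries.C w0) ≠ 0 := by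
      rw [PowerSeries.constantCoeff_C]
      exact hw0
    exact (neg_ne_zero.2 (mul_ne_zero (mul_ne_zero hu0 hv00) (mul_ne_zero h6 h2))) h3.symm
  obtain ⟨v, hv, hvv⟩ := hinst.is_henselian (revP H u) (revP_monic H hu1) v0 e1 e2
  have hcv : PowerSeries.constantCoeff v = w0⁻¹ := by
    have h3 := mem_span_X.1 hvv
    rw [map_sub, hv0, PowerSeries.constantCoeff_C, sub_eq_zero] at h3
    exact h3
  have hcv0 : PowerSeries.constantCoeff v ≠ 0 := by
    rw [hcv]
    exact inv_ne_zero hw0
  have hvv1 : v * v⁻¹ = 1 := PowerSeries.mul_inv_cancel _ hcv0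
  refine ⟨v⁻¹, ?_, ?_⟩
  · rw [PowerSeries.constantCoeff_inv, hcv, inv_inv]
  · have h3 := revP_eval H u hvv1
    have h4 : (revP H u).eval v = 0 := hv
    rw [h4] at h3
    have hu0 : u ≠ 0 := by
      intro h5
      rw [h5, zero_mul] at hu1
      exact zero_ne_one hu1
    have hv00 : v ≠ 0 := by
      intro h5
      rw [h5, zero_mul] at hvv1
      exact zero_ne_one hvv1
    rcases mul_eq_zero.1 h3.symm with h6 | h6
    · exact absurd h6 (mul_ne_zero hu0 (pow_ne_zero _ hv00))
    · exact h6

end WildG
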