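import Pool.Agent.helper44.Gen.CntF

/-!
# The places on the diagonal of an irreducible curve `C_C` (helper44, helper11, MP_11236d_an, stage 4)
-/

namespace WildG

open Polynomial WildRat WildS WildV

variable {K : Type} [Field K] [Algebra ℂ K]

/-- The function field of the irreducible curve `C_C`, `C` normalised. -/
structure Irr (C : RF) (mu0 : E[X]) (φ ψ : E →ₐ[ℂ] K) : Prop where
  norm : NormG C
  three : 3 ≤ C.n
  irr : Irreducible mu0
  mon : mu0.Monic
  gg : GG C = (X - Polynomial.C RatFunc.X) * mu0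
  fin : FinC φ
  ne : φ ≠ ψ
  eqn : φ (elt C) = ψ (elt C)
  mu : mu φ (ψ RatFunc.X) = mu0
  deg : deg φ + 1 = C.n

theorem Irr.mudeg {C : RF} {mu0 : E[X]} {φ ψ : E →ₐ[ℂ] K} (h : Irr C mu0 φ ψ) :
    (WildS.mu φ (ψ RatFunc.X)).natDegree = WildS.deg φ := by
  have h1 := GG_natDegree C (CntF_n h.norm)
  have h2 := h.deg
  rw [h.gg, natDegree_mul (X_sub_C_ne_zero _) h.irr.ne_zero, natDegree_X_sub_C] at h1
  rw [h.mu]
  omega

/-- Existence.  Proof: `exists_cmp` for `mu0` (`DT` gives `mu0`, make it monic by dividing by the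
leading coefficient: `GG C` is monic, `Clique_monic`, so `mu0` is monic), degrees by
`GG_natDegree`. -/
theorem exists_Irr {C : RF} (hC : NormG C) (h3 : 3 ≤ C.n) (hD : DT C) :
    ∃ (K : Type) (_ : Field K) (_ : Algebra ℂ K) (φ ψ : E →ₐ[ℂ] K) (mu0 : E[X]),
      Irr C mu0 φ ψ := by
  have hn : 1 ≤ C.n := by omega
  have h30 := h3
  obtain ⟨mu0, hirr, hgg⟩ := hD
  have hGm := Clique_monic hn hC.monic hC.lt
  have hmon : mu0.Monic := (monic_X_sub_C _).of_mul_monic_left (by rw [← hgg]; exact hGm)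
  obtain ⟨K, i1, i2, φ, ψ, h1, h2, h3, h4, h5⟩ := exists_cmp hn hirr hmon (dvd_of_eq hgg.symm)
  refine ⟨K, i1, i2, φ, ψ, mu0, ⟨hC, h30, hirr, hmon, hgg, h1, h2, h3, h4, ?_⟩⟩
  have h6 := GG_natDegree C hn
  rw [hgg, natDegree_mul (X_sub_C_ne_zero _) hirr.ne_zero, natDegree_X_sub_C] at h6
  omega

private theorem InvA_norm {F L : Type} [Field F] [Field L] [Algebra F L]
    [FiniteDimensional F L] [CharZero F] (w : L) :
    Algebra.norm F w = ((-1) ^ (minpoly F w).natDegree * (minpoly F w).coeff 0) ^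
      Module.finrank (IntermediateField.adjoin F {w}) L := by
  have hint : IsIntegral F w := Algebra.IsIntegral.isIntegral w
  rw [Algebra.norm_eq_norm_adjoin F w]
  congr 1
  have h := Algebra.PowerBasis.norm_gen_eq_coeff_zero_minpoly
    (IntermediateField.adjoin.powerBasis hint)
  rw [IntermediateField.adjoin.powerBasis_gen] at h
  rw [h, IntermediateField.minpoly_gen, IntermediateField.adjoin.powerBasis_dim]

private theorem InvA_coeff {F L : Type} [Field F] [Field L] [Algebra F L] (u : L) (b : F) :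
    (minpoly F (u - algebraMap F L b)).natDegree = (minpoly F u).natDegree ∧
    (minpoly F (u - algebraMap F L b)).coeff 0 = (minpoly F u).eval b := by
  rw [minpoly.sub_algebraMap]
  constructor
  · rw [natDegree_comp, natDegree_X_add_C, mul_one]
  · rw [coeff_zero_eq_eval_zero, eval_comp]
    simp

/-- The norm of `u - r`, `r ∈ E`.

Proof.  As `mu_norm` (WS/MuNorm.lean): `N(u - r) = ± mu(r)`, because the minimal polynomial of `u - r` is
`mu(T + r)` and `E(u) = K` (`m = 1`), and the norm formula `sum_fibS`. -/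
theorem norm_sub {φ : E →ₐ[ℂ] K} (hφ : FinC φ) {u : K} (hdeg : (mu φ u).natDegree = deg φ)
    {r : E} (hne : u ≠ φ r) (a : ℂ) : (mu φ u).eval r ≠ 0 ∧
      ∑ P ∈ fibS φ hφ a, P.ord (u - φ r) = (plE a).ord ((mu φ u).eval r) := by
  have key : (mu φ u).eval r ≠ 0 ∧
      nrm φ (u - φ r) = (-1) ^ (mu φ u).natDegree * (mu φ u).eval r := by
    unfold deg mu at hdeg
    unfold mu nrm
    let := φ.toRingHom.toAlgebra
    have : IsScalarTower ℂ E K := IsScalarTower.of_algebraMap_eq fun c => (φ.commutes c).symm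
    have hfin : Module.Finite E K := hφ
    have hch : CharZero E := algebraRat.charZero E
    have hφr : φ r = algebraMap E K r := rfl
    have hm : ∀ w : K, (minpoly E w).natDegree *
        Module.finrank (IntermediateField.adjoin E {w}) K = Module.finrank E K := by
      intro w
      rw [← IntermediateField.adjoin.finrank (Algebra.IsIntegral.isIntegral w)]
      exact Module.finrank_mul_finrank E _ K
    obtain ⟨c1, c2⟩ := InvA_coeff (F := E) u r
    have hw : u - φ r ≠ 0 := sub_ne_zero.2 hne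
    have hN : Algebra.norm E (u - φ r) ≠ 0 := Algebra.norm_ne_zero_iff.2 hw
    have h1 := InvA_norm (F := E) (u - φ r)
    have h2 : Module.finrank (IntermediateField.adjoin E {u - φ r}) K = 1 := by
      have e1 := hm (u - φ r)
      have h0 : 0 < Module.finrank E K := Module.finrank_pos
      rw [hφr, c1, hdeg] at e1
      rw [hφr]
      have := Nat.eq_of_mul_eq_mul_left h0 (e1.trans (mul_one _).symm)
      exact this
    rw [h2, pow_one, hφr, c1, c2, ← hφr] at h1
    refine ⟨?_, h1⟩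
    intro h0
    rw [h0, mul_zero] at h1
    exact hN h1
  obtain ⟨h3, h4⟩ := key
  refine ⟨h3, ?_⟩
  rw [sum_fibS φ hφ a (sub_ne_zero.2 hne), h4,
    Pl.ord_mul _ (pow_ne_zero _ (neg_ne_zero.2 one_ne_zero)) h3, Pl.ord_pow, Pl.ord_neg,
    Pl.ord_one]
  ring

/-- The polynomial `a + ζ (X - a)`. -/
noncomputable def rho (a ζ : ℂ) : ℂ[X] := C a + C ζ * (X - C a)

private theorem InvA_pos {C : RF} {mu0 : E[X]} {φ ψ : E →ₐ[ℂ] K} (h : Irr C mu0 φ ψ) : 1 ≤ C.n := by
  have := h.three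
  omega

private theorem InvA_mu0 {C : RF} {mu0 : E[X]} {φ ψ : E →ₐ[ℂ] K} (h : Irr C mu0 φ ψ) :
    2 ≤ mu0.natDegree := by
  have h1 := h.mudeg
  rw [h.mu] at h1
  have h2 := h.deg
  have h3 := h.three
  omega

/-- The value of `mu0` at `a + ζ (x - a)`, `ζ ^ e = 1`, `ζ ≠ 1`.

Proof.  `r = algebraMap ℂ[X] E (rho a ζ)`, `e = C.e (some a)`.  `GG C` at `r` is `P(ρ) - C(x) Q(ρ)`
`= ((P - t0 Q)(ρ) Q - (P - t0 Q) Q(ρ)) / Q` with `ρ = rho a ζ`.  Write `P - t0 Q = (X - a) ^ e G`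
(`pow_mul_divByMonic_rootMultiplicity_eq`, `e_fC`).  Composed with `ρ`: `ζ ^ e (X - a) ^ e G(ρ)`.  So the
numerator is `(X - a) ^ e (G(ρ) Q - G Q(ρ))`, and the second factor vanishes at `a` (`ρ(a) = a`), so its
order at `a` is at least `e + 1` (it is not zero because `GG C` at `r` is `(r - x) mu0(r)`, both not zero:
`norm_sub`-type argument or `mu0` irreducible of degree `≥ 2`).  `Q(a) ≠ 0`.  `r - x = (ζ - 1)(x - a)` has
order one.  (`plE_poly`, `Pl.ord_mul`.) -/
theorem Irr.ord_diag {C : RF} {mu0 : E[X]} {φ ψ : E →ₐ[ℂ] K} (h : Irr C mu0 φ ψ) {a t0 : ℂ}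
    (ha : a ∈ fC C t0) {ζ : ℂ} (hζ : ζ ^ C.e (some a) = 1) (h1 : ζ ≠ 1) :
    (C.e (some a) : ℤ) ≤ (plE a).ord (mu0.eval (algebraMap ℂ[X] E (rho a ζ))) := by
  have hn := InvA_pos h
  obtain ⟨hQa, hPa⟩ := (mem_fC' hn).1 ha
  have he := e_fC hn ha
  set e := C.e (some a) with hedef
  set ρ := rho a ζ with hρ
  set r : E := algebraMap ℂ[X] E ρ with hr
  have hinj := RatFunc.algebraMap_injective ℂ
  have hρa : ρ.eval a = a := by
    rw [hρ]
    unfold rho
    simp
  -- `GG C` at `r`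
  have hev : ∀ p : ℂ[X], (p.map (algebraMap ℂ E)).eval r = algebraMap ℂ[X] E (p.comp ρ) := by
    intro p
    rw [eval_map, ← aeval_def, hr, aeval_algebraMap_apply, ← comp_eq_aeval]
  have hQE : algebraMap ℂ[X] E C.Q ≠ 0 := by
    rw [Ne, map_eq_zero_iff _ hinj]
    exact C.Q_ne_zero hn
  have hGGr : (GG C).eval r * algebraMap ℂ[X] E C.Q =
      algebraMap ℂ[X] E (C.P.comp ρ * C.Q - C.P * C.Q.comp ρ) := by
    unfold GG
    rw [eval_sub, eval_mul, eval_C, hev, hev, elt_eq, map_sub, map_mul, map_mul]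
    field_simp
  -- the factorisation
  obtain ⟨G, hG⟩ : ∃ G : ℂ[X], C.P - Polynomial.C t0 * C.Q = (X - Polynomial.C a) ^ e * G := by
    refine ⟨(C.P - Polynomial.C t0 * C.Q) /ₘ (X - Polynomial.C a) ^ e, ?_⟩
    rw [he]
    exact (pow_mul_divByMonic_rootMultiplicity_eq _ _).symm
  have hGρ : C.P.comp ρ - Polynomial.C t0 * C.Q.comp ρ = (X - Polynomial.C a) ^ e * G.comp ρ := by
    have h2 := congrArg (fun p : ℂ[X] => p.comp ρ) hG
    simp only [sub_comp, mul_comp, C_comp, pow_comp, X_comp] at h2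
    rw [h2]
    have h3 : ρ - Polynomial.C a = Polynomial.C ζ * (X - Polynomial.C a) := by
      rw [hρ]
      unfold rho
      ring
    rw [h3, mul_pow, ← Polynomial.C_pow, hζ, Polynomial.C_1, one_mul]
  have hN : C.P.comp ρ * C.Q - C.P * C.Q.comp ρ =
      (X - Polynomial.C a) ^ e * (G.comp ρ * C.Q - G * C.Q.comp ρ) := by
    have h2 : C.P.comp ρ * C.Q - C.P * C.Q.comp ρ =
        (C.P.comp ρ - Polynomial.C t0 * C.Q.comp ρ) * C.Q -
          (C.P - Polynomial.C t0 * C.Q) * C.Q.comp ρ := by ring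
    rw [h2, hG, hGρ]
    ring
  have hW : X - Polynomial.C a ∣ G.comp ρ * C.Q - G * C.Q.comp ρ := by
    rw [dvd_iff_isRoot, IsRoot.def, eval_sub, eval_mul, eval_mul, eval_comp, eval_comp, hρa]
    ring
  have hdvd : (X - Polynomial.C a) ^ (e + 1) ∣ C.P.comp ρ * C.Q - C.P * C.Q.comp ρ := by
    rw [hN, pow_succ]
    exact mul_dvd_mul_left _ hW
  -- the two factors of `GG C` at `r`
  have hgg : (GG C).eval r = (r - RatFunc.X) * mu0.eval r := by
    rw [h.gg, eval_mul, eval_sub, eval_X, eval_C]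
  have hrx : r - RatFunc.X = algebraMap ℂ[X] E (Polynomial.C (ζ - 1) * (X - Polynomial.C a)) := by
    rw [hr, ← RatFunc.algebraMap_X, ← map_sub, hρ]
    congr 1
    unfold rho
    rw [Polynomial.C_sub, Polynomial.C_1]
    ring
  have hz1 : Polynomial.C (ζ - 1) ≠ (0 : ℂ[X]) := Polynomial.C_ne_zero.2 (sub_ne_zero.2 h1)
  have hrx1 : Polynomial.C (ζ - 1) * (X - Polynomial.C a) ≠ (0 : ℂ[X]) :=
    mul_ne_zero hz1 (X_sub_C_ne_zero a)
  have hrx0 : r - RatFunc.X ≠ 0 := by
    rw [hrx, Ne, map_eq_zero_iff _ hinj]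
    exact hrx1
  have hrx2 : (plE a).ord (r - RatFunc.X) = 1 := by
    rw [hrx, plE_poly a hrx1, rootMultiplicity_mul hrx1, rootMultiplicity_C,
      rootMultiplicity_X_sub_C_self]
    simp
  have hmu0 : mu0.eval r ≠ 0 := by
    intro h0
    have h2 := degree_eq_one_of_irreducible_of_root h.irr h0
    have h3 := InvA_mu0 h
    have h4 : mu0.natDegree = 1 := natDegree_eq_of_degree_eq_some (by rw [h2]; rfl)
    omega
  have hGr0 : (GG C).eval r ≠ 0 := by
    rw [hgg]
    exact mul_ne_zero hrx0 hmu0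
  have hN0 : C.P.comp ρ * C.Q - C.P * C.Q.comp ρ ≠ 0 := by
    intro h0
    rw [h0, map_zero] at hGGr
    exact (mul_ne_zero hGr0 hQE) hGGr
  have h2 := congrArg (plE a).ord hGGr
  have hQ0 : C.Q.rootMultiplicity a = 0 := by
    rw [rootMultiplicity_eq_zero_iff]
    intro hroot
    exact absurd hroot hQa
  rw [(plE a).ord_mul hGr0 hQE, plE_poly a (C.Q_ne_zero hn), plE_poly a hN0, hQ0, hgg,
    (plE a).ord_mul hrx0 hmu0, hrx2] at h2
  have h3 := (le_rootMultiplicity_iff hN0).2 hdvd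
  have h4 : ((e + 1 : ℕ) : ℤ) ≤
      ((C.P.comp ρ * C.Q - C.P * C.Q.comp ρ).rootMultiplicity a : ℤ) := by exact_mod_cast h3
  push_cast at h4 h2
  linarith

/-- There are `e - 1` places over `(a, a)`, all unramified.  Proof: `PT_card` with `b = a`,
`fam_ord` with `Fs = {mu0}` (`Finset.prod_singleton`, `Finset.sum_singleton`), `Nat.gcd_self`;
`CntF_ord`. -/
theorem Irr.card_diag {C : RF} {mu0 : E[X]} {φ ψ : E →ₐ[ℂ] K} (h : Irr C mu0 φ ψ) {a t0 : ℂ}
    (ha : a ∈ fC C t0) : (PT h.fin ψ a a).card + 1 = C.e (some a) ∧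
      ∀ P ∈ PT h.fin ψ a a, P.ord (φ RatFunc.X - algebraMap ℂ K a) = 1 ∧
        P.ord (ψ RatFunc.X - algebraMap ℂ K a) = 1 := by
  have hn := InvA_pos h
  have he := C.one_le_e hn (some a)
  have h1 := PT_card h.norm h.fin h.mudeg h.eqn (b := a) ha
  have h2 := fam_ord h.norm (Fs := {mu0}) (by rw [Finset.prod_singleton]; exact h.gg) ha ha
  rw [Finset.sum_singleton, if_pos rfl] at h2
  rw [h.mu, h2, Nat.gcd_self] at h1
  have he' : (1 : ℤ) ≤ C.e (some a) := by exact_mod_cast he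
  refine ⟨?_, fun P hP => ?_⟩
  · have h3 : (((PT h.fin ψ a a).card : ℤ) - (C.e (some a) - 1)) * C.e (some a) = 0 := by
      linarith
    rcases mul_eq_zero.1 h3 with h4 | h4
    · omega
    · omega
  · obtain ⟨h3, h4⟩ := CntF_ord h.norm h.fin h.mudeg h.eqn hP
    rw [Nat.gcd_self] at h3 h4
    rw [ram_fib ((mem_PT h.fin).1 hP).1] at h3
    have hne : (C.e (some a) : ℤ) ≠ 0 := by omega
    exact ⟨mul_right_cancel₀ hne (h3.trans (one_mul _).symm),
      mul_right_cancel₀ hne (h4.trans (one_mul _).symm)⟩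

/-- `(y - a) / (x - a)` has the value `ζ` at `P` (a place over `(a, a)`). -/
def Slope (φ ψ : E →ₐ[ℂ] K) (P : Pl K) (a ζ : ℂ) : Prop :=
  Bdd_big P 2 (ψ RatFunc.X - algebraMap ℂ K a -
    algebraMap ℂ K ζ * (φ RatFunc.X - algebraMap ℂ K a))

/-- The slope is unique.  Proof: the difference of the two elements is `(ζ - ζ') (x - a)`, of order
one (`Bdd_big_add`, `Pl.ord_C`). -/
theorem Slope.unique {φ ψ : E →ₐ[ℂ] K} {P : Pl K} {a ζ ζ' : ℂ}
    (hP : P.ord (φ RatFunc.X - algebraMap ℂ K a) = 1) (h : Slope φ ψ P a ζ)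
    (h' : Slope φ ψ P a ζ') : ζ = ζ' := by
  by_contra hne
  have hneg : Bdd_big P 2 (-(ψ RatFunc.X - algebraMap ℂ K a -
      algebraMap ℂ K ζ' * (φ RatFunc.X - algebraMap ℂ K a))) := by
    rcases h' with h1 | h1
    · left
      rw [h1, neg_zero]
    · right
      rwa [P.ord_neg]
  have h1 := Bdd_big_add P h hneg
  have h2 : ψ RatFunc.X - algebraMap ℂ K a -
      algebraMap ℂ K ζ * (φ RatFunc.X - algebraMap ℂ K a) +
      -(ψ RatFunc.X - algebraMap ℂ K a -
      algebraMap ℂ K ζ' * (φ RatFunc.X - algebraMap ℂ K a)) =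
      algebraMap ℂ K (ζ' - ζ) * (φ RatFunc.X - algebraMap ℂ K a) := by
    rw [map_sub]
    ring
  rw [h2] at h1
  have h3 : algebraMap ℂ K (ζ' - ζ) ≠ 0 := by
    rw [Ne, map_eq_zero]
    exact sub_ne_zero.2 (Ne.symm hne)
  have h4 : φ RatFunc.X - algebraMap ℂ K a ≠ 0 := coord_sub_ne φ a
  rcases h1 with h1 | h1
  · exact mul_ne_zero h3 h4 h1
  · rw [P.ord_mul h3 h4, P.ord_C, hP] at h1
    omega

/-- Every `e`-th root of unity `ζ ≠ 1` is a slope.

Proof.  `u = ψ X`, `r = algebraMap ℂ[X] E (rho a ζ)`, `φ r = a + ζ (φ X - a)` (`coord_poly`).  `u ≠ φ r`,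
otherwise `mu0` (the minimal polynomial of `u`) would have degree one, but its degree is `n - 1 ≥ 2`.
`norm_sub` and `ord_diag`: `∑ P over a, P.ord (u - φ r) ≥ e`.  At the places over `a` which are not over
`(a, a)` the order is `≤ 0`: there `ψ X` has a value `b ≠ a` (`place_pair`) and `u - φ r` the value
`b - a ≠ 0` (`Pl.ord_add_eq`).  There are `e - 1` places in `PT a a` (`card_diag`), so one of them has
`P.ord (u - φ r) ≥ 2`. -/
theorem Irr.exists_slope {C : RF} {mu0 : E[X]} {φ ψ : E →ₐ[ℂ] K} (h : Irr C mu0 φ ψ) {a t0 : ℂ}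
    (ha : a ∈ fC C t0) {ζ : ℂ} (hζ : ζ ^ C.e (some a) = 1) (h1 : ζ ≠ 1) :
    ∃ P ∈ PT h.fin ψ a a, Slope φ ψ P a ζ := by
  classical
  have hn := InvA_pos h
  obtain ⟨hQa, hPa⟩ := (mem_fC' hn).1 ha
  by_contra hcon
  push Not at hcon
  set r : E := algebraMap ℂ[X] E (rho a ζ) with hr
  have hφr : φ r = algebraMap ℂ K a + algebraMap ℂ K ζ * (φ RatFunc.X - algebraMap ℂ K a) := by
    rw [hr, coord_poly]
    unfold rho
    simp
  have hne : ψ RatFunc.X ≠ φ r := by
    intro h0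
    have h2 := h.mudeg
    have h3 : (WildS.mu φ (ψ RatFunc.X)).natDegree = 1 := by
      rw [h0]
      unfold WildS.mu
      let := φ.toRingHom.toAlgebra
      have h4 : minpoly E (φ r) = X - Polynomial.C r := minpoly.eq_X_sub_C K r
      rw [h4, natDegree_X_sub_C]
    have h4 := h.deg
    have h5 := h.three
    omega
  obtain ⟨-, hsum⟩ := norm_sub h.fin h.mudeg hne a
  have hge := h.ord_diag ha hζ h1
  rw [h.mu] at hsum
  rw [← hsum] at hge
  have hexp : ψ RatFunc.X - φ r = ψ RatFunc.X - algebraMap ℂ K a -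
      algebraMap ℂ K ζ * (φ RatFunc.X - algebraMap ℂ K a) := by
    rw [hφr]
    ring
  have hin : ∀ P ∈ PT h.fin ψ a a, P.ord (ψ RatFunc.X - φ r) ≤ 1 := by
    intro P hP
    have h2 := hcon P hP
    unfold Slope Bdd_big at h2
    push Not at h2
    rw [hexp]
    omega
  have hout : ∀ P ∈ fibS φ h.fin a, P ∉ PT h.fin ψ a a → P.ord (ψ RatFunc.X - φ r) ≤ 0 := by
    intro P hP hP'
    rw [mem_fibS] at hP
    rw [mem_PT] at hP'
    obtain ⟨b, hb, -, -, -⟩ := place_pair C h.norm.lt (finC_all φ h.fin ψ) h.eqn hP hQa hPa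
    have hba : b ≠ a := by
      rintro rfl
      exact hP' ⟨hP, hb⟩
    have hc : algebraMap ℂ K (b - a) ≠ 0 := by
      rw [Ne, map_eq_zero]
      exact sub_ne_zero.2 hba
    have hP1 : 0 < P.ord (φ RatFunc.X - algebraMap ℂ K a) := hP
    have hb1 : 0 < P.ord (ψ RatFunc.X - algebraMap ℂ K b) := hb
    have h2 : Bdd_big P 1 (ψ RatFunc.X - algebraMap ℂ K b) := Or.inr (by omega)
    have h3 : Bdd_big P 1 (algebraMap ℂ K (-ζ) * (φ RatFunc.X - algebraMap ℂ K a)) := by
      have h4 : Bdd_big P 0 (algebraMap ℂ K (-ζ)) := Or.inr (P.ord_C _).ge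
      have h5 : Bdd_big P 1 (φ RatFunc.X - algebraMap ℂ K a) := Or.inr (by omega)
      have h6 := Bdd_big_mul P h4 h5
      rwa [zero_add] at h6
    have h4 := Bdd_big_add P h2 h3
    have h5 : algebraMap ℂ K (b - a) + (ψ RatFunc.X - algebraMap ℂ K b +
        algebraMap ℂ K (-ζ) * (φ RatFunc.X - algebraMap ℂ K a)) = ψ RatFunc.X - φ r := by
      rw [hexp, map_sub, map_neg]
      ring
    have h6 := P.ord_add_eq hc (w := ψ RatFunc.X - algebraMap ℂ K b +
        algebraMap ℂ K (-ζ) * (φ RatFunc.X - algebraMap ℂ K a)) (by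
      rcases h4 with h4 | h4
      · exact Or.inl h4
      · right
        rw [P.ord_C]
        omega)
    rw [h5, P.ord_C] at h6
    exact h6.2.le
  have hsub : PT h.fin ψ a a ⊆ fibS φ h.fin a := by
    intro P hP
    rw [mem_fibS]
    exact ((mem_PT h.fin).1 hP).1
  have hle : ∑ P ∈ fibS φ h.fin a, P.ord (ψ RatFunc.X - φ r) ≤
      ((PT h.fin ψ a a).card : ℤ) := by
    rw [← Finset.sum_sdiff hsub]
    have h2 : ∑ P ∈ fibS φ h.fin a \ PT h.fin ψ a a, P.ord (ψ RatFunc.X - φ r) ≤ 0 := by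
      refine Finset.sum_nonpos fun P hP => ?_
      rw [Finset.mem_sdiff] at hP
      exact hout P hP.1 hP.2
    have h3 : ∑ P ∈ PT h.fin ψ a a, P.ord (ψ RatFunc.X - φ r) ≤
        ∑ P ∈ PT h.fin ψ a a, (1 : ℤ) := Finset.sum_le_sum hin
    rw [Finset.sum_const, nsmul_eq_mul, mul_one] at h3
    linarith
  have hcard := (h.card_diag ha).1
  have hcard' : ((PT h.fin ψ a a).card : ℤ) + 1 = C.e (some a) := by exact_mod_cast hcard
  linarith

/-- The place with a given slope is unique.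

Proof.  The set `Z` of the `ζ ≠ 1` with `ζ ^ e = 1` has `e - 1` elements (`nthRootsFinset`,
`Complex.card_rootsOfUnity`, or the roots of the separable polynomial `X ^ e - 1`).  Choose a place for
every `ζ ∈ Z` (`exists_slope`); the map `Z → PT a a` is injective (`Slope.unique`), so it is surjective
by `card_diag` (`Finset.surj_on_of_inj_on_of_card_le`).  If `P`, `P'` have the slope `ζ`, they are the images
of some `ζ1`, `ζ2`, and `ζ1 = ζ = ζ2`. -/
theorem Irr.slope_inj {C : RF} {mu0 : E[X]} {φ ψ : E →ₐ[ℂ] K} (h : Irr C mu0 φ ψ) {a t0 : ℂ}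
    (ha : a ∈ fC C t0) {ζ : ℂ} {P P' : Pl K} (hP : P ∈ PT h.fin ψ a a)
    (hP' : P' ∈ PT h.fin ψ a a) (hs : Slope φ ψ P a ζ) (hs' : Slope φ ψ P' a ζ) : P = P' := by
  classical
  have hn := InvA_pos h
  have he := C.one_le_e hn (some a)
  set e := C.e (some a) with hedef
  obtain ⟨hcard, hord⟩ := h.card_diag ha
  rw [← hedef] at hcard
  set Z : Finset ℂ := (nthRootsFinset e (1 : ℂ)).erase 1 with hZ
  have hmem : ∀ z : ℂ, z ∈ Z ↔ z ≠ 1 ∧ z ^ e = 1 := by
    intro z
    rw [hZ, Finset.mem_erase, mem_nthRootsFinset (by omega)]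
  have hZc : Z.card + 1 = e := by
    have h1 : (nthRootsFinset e (1 : ℂ)).card = e :=
      (Complex.isPrimitiveRoot_exp e (by omega)).card_nthRootsFinset
    have h2 : (1 : ℂ) ∈ nthRootsFinset e (1 : ℂ) := by
      rw [mem_nthRootsFinset (by omega), one_pow]
    rw [hZ, Finset.card_erase_of_mem h2, h1]
    omega
  have hex : ∀ z ∈ Z, ∃ Q ∈ PT h.fin ψ a a, Slope φ ψ Q a z := fun z hz =>
    h.exists_slope ha ((hmem z).1 hz).2 ((hmem z).1 hz).1
  choose f hf1 hf2 using hex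
  have hsurj := Finset.surj_on_of_inj_on_of_card_le f (fun z hz => hf1 z hz)
    (fun z1 z2 hz1 hz2 heq => by
      have h1 := hf2 z1 hz1
      have h2 := hf2 z2 hz2
      rw [← heq] at h2
      exact Slope.unique (hord _ (hf1 z1 hz1)).1 h1 h2) (by omega)
  obtain ⟨z1, hz1, h1⟩ := hsurj P hP
  obtain ⟨z2, hz2, h2⟩ := hsurj P' hP'
  have h3 : z1 = ζ := by
    have := hf2 z1 hz1
    rw [← h1] at this
    exact Slope.unique (hord _ hP).1 this hs
  have h4 : z2 = ζ := by
    have := hf2 z2 hz2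
    rw [← h2] at this
    exact Slope.unique (hord _ hP').1 this hs'
  subst h3
  subst h4
  rw [h1, h2]

end WildG
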