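import Pool.Agent.helper44.Gen.InvA

/-!
# The involution of an irreducible curve `C_C` (helper44, MP_11236d_an, stage 4)
-/

namespace WildG

open Polynomial WildRat WildS WildV

variable {K : Type} [Field K] [Algebra ℂ K]

/-- Homomorphisms out of a field generated by one element over `E`.

Proof.  `K` with the `E`-algebra structure `φ`; `adjoin E {u} = ⊤` by degrees; `minpoly E u = mu φ u`.  Use
`IntermediateField.adjoin` power basis: `PowerBasis.lift` (the power basis of `E⟮u⟯ = ⊤`, or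
`AdjoinRoot (mu φ u) ≃ K`), with the algebra structure `χ` on `L`. -/
theorem lift_hom {L : Type} [Field L] [Algebra ℂ L] {φ : E →ₐ[ℂ] K} (hφ : FinC φ) {u : K}
    (hdeg : (mu φ u).natDegree = deg φ) (χ : E →ₐ[ℂ] L) {v : L}
    (hv : ((mu φ u).map χ.toRingHom).eval v = 0) :
    ∃ τ : K →ₐ[ℂ] L, (∀ z : E, τ (φ z) = χ z) ∧ τ u = v := by
  let iK : Algebra E K := φ.toRingHom.toAlgebra
  let iL : Algebra E L := χ.toRingHom.toAlgebra
  have : FiniteDimensional E K := hφ
  have i1 : IsScalarTower ℂ E K := IsScalarTower.of_algebraMap_eq fun a => (φ.commutes a).symm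
  have i2 : IsScalarTower ℂ E L := IsScalarTower.of_algebraMap_eq fun a => (χ.commutes a).symm
  have hprim : IntermediateField.adjoin E ({u} : Set K) = ⊤ := by
    rw [Field.primitive_element_iff_minpoly_natDegree_eq]
    exact hdeg
  have hint : IsIntegral E u := IsIntegral.of_finite E u
  have hadj : Algebra.adjoin E ({u} : Set K) = ⊤ := by
    rw [← IntermediateField.adjoin_simple_toSubalgebra_of_isAlgebraic hint.isAlgebraic, hprim]
    rfl
  let pb : PowerBasis E K := PowerBasis.ofAdjoinEqTop hint hadj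
  have hgen : pb.gen = u := PowerBasis.ofAdjoinEqTop_gen hint hadj
  have hroot : aeval v (minpoly E pb.gen) = 0 := by
    rw [hgen, ← eval_map_algebraMap]
    exact hv
  refine ⟨(pb.lift v hroot).restrictScalars ℂ, fun z => (pb.lift v hroot).commutes z, ?_⟩
  have h2 := pb.lift_gen v hroot
  rw [hgen] at h2
  exact h2

/-- **The involution** exchanging `x` and `y`.

Proof.  `x = φ X`, `y = ψ X`.  `GG C` mapped by `ψ` and evaluated at `x` is `P(x) - ψ(C) Q(x) =
P(x) - φ(C) Q(x) = 0` (`Block_GG` in WS/Block.lean, `coord_elt`, `NonConst.aeval_ne_zero`), and it is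
`(x - y) * mu0^ψ(x)`, `x ≠ y` (`coord_ne`), so `mu0^ψ(x) = 0`.  `lift_hom` with `χ = ψ`, `v = x`: `τ` with
`τ ∘ φ = ψ`, `τ y = x`.  `τ ∘ τ` fixes `x` and `y`, which generate `K` (`gen_of_deg`), so it is the identity
(`IntermediateField.adjoin` ext: the set of fixed elements is an intermediate field).
`AlgEquiv.ofAlgHom`. -/
theorem Irr.swap {C : RF} {mu0 : E[X]} {φ ψ : E →ₐ[ℂ] K} (h : Irr C mu0 φ ψ) :
    ∃ τ : K ≃ₐ[ℂ] K, τ (φ RatFunc.X) = ψ RatFunc.X ∧ τ (ψ RatFunc.X) = φ RatFunc.X ∧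
      ∀ z, τ (τ z) = z := by
  have hn := CntF_n h.norm
  have hQ0 := C.Q_ne_zero hn
  have hev : ((WildS.mu φ (ψ RatFunc.X)).map ψ.toRingHom).eval (φ RatFunc.X) = 0 := by
    rw [h.mu]
    have h1 : ((GG C).map ψ.toRingHom).eval (φ RatFunc.X) = 0 := by
      rw [Block_GG, ← h.eqn, eval_sub, eval_mul, eval_C, eval_map_algebraMap,
        eval_map_algebraMap, ← coord_poly, ← coord_poly, ← map_mul, ← map_sub, elt_eq,
        div_mul_cancel₀, sub_self, map_zero]
      exact (map_ne_zero_iff _ (IsFractionRing.injective ℂ[X] E)).2 hQ0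
    rw [h.gg, Polynomial.map_mul, eval_mul, Polynomial.map_sub, map_X, map_C, eval_sub, eval_X,
      eval_C] at h1
    rcases mul_eq_zero.1 h1 with h2 | h2
    · exact absurd (sub_eq_zero.1 h2) (coord_ne h.ne)
    · exact h2
  obtain ⟨τ, hτ1, hτ2⟩ := lift_hom h.fin h.mudeg ψ hev
  have h3 : τ (φ RatFunc.X) = ψ RatFunc.X := hτ1 _
  have hττ : ∀ z, τ (τ z) = z := by
    intro z
    have h4 : (τ.comp τ) = AlgHom.id ℂ K := by
      have h5 : IntermediateField.adjoin ℂ ({φ RatFunc.X, ψ RatFunc.X} : Set K) = ⊤ :=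
        gen_of_deg h.fin h.mudeg
      refine AlgHom.ext fun z => ?_
      have hz : z ∈ IntermediateField.adjoin ℂ ({φ RatFunc.X, ψ RatFunc.X} : Set K) := by
        rw [h5]
        exact IntermediateField.mem_top
      induction hz using IntermediateField.adjoin_induction with
      | mem x hx =>
        rcases hx with rfl | hx
        · show τ (τ (φ RatFunc.X)) = φ RatFunc.X
          rw [h3, hτ2]
        · rw [Set.mem_singleton_iff.1 hx]
          show τ (τ (ψ RatFunc.X)) = ψ RatFunc.X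
          rw [hτ2, h3]
      | algebraMap c => exact AlgHom.commutes _ c
      | add x y _ _ hx hy => rw [map_add, map_add, hx, hy]
      | inv x _ hx => rw [map_inv₀, map_inv₀, hx]
      | mul x y _ _ hx hy => rw [map_mul, map_mul, hx, hy]
    exact DFunLike.congr_fun h4 z
  refine ⟨AlgEquiv.ofBijective τ ⟨τ.toRingHom.injective, fun z => ⟨τ z, hττ z⟩⟩, h3, hτ2, hττ⟩

/-- The image of a place under an automorphism. -/
noncomputable def plc (τ : K ≃ₐ[ℂ] K) (P : Pl K) : Pl K where
  v := P.v.comap τ.toAlgHom.toRingHom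
  surj := by
    intro y
    obtain ⟨x, hx⟩ := P.surj y
    refine ⟨τ.symm x, ?_⟩
    show P.v (τ (τ.symm x)) = y
    rw [AlgEquiv.apply_symm_apply, hx]
  triv := by
    intro c hc
    show P.v (τ (algebraMap ℂ K c)) = 1
    rw [AlgEquiv.commutes]
    exact P.triv c hc

theorem plc_ord (τ : K ≃ₐ[ℂ] K) (P : Pl K) (u : K) : (plc τ P).ord u = P.ord (τ u) := by
  rfl

/-- **Fixed places.**  For a point `a` with an even index the place over `(a, a)` with slope `-1` is
fixed by the involution.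

Proof.  `exists_slope` for `ζ = -1` (`Even.neg_one_pow`): `Q`.  `plc τ Q` lies over `(a, a)` (`plc_ord`, `τ`
exchanges `x - a` and `y - a`) and has slope `-1`: `x - a + (y - a)` is symmetric.  `slope_inj`. -/
theorem Irr.fixed {C : RF} {mu0 : E[X]} {φ ψ : E →ₐ[ℂ] K} (h : Irr C mu0 φ ψ)
    {τ : K ≃ₐ[ℂ] K} (h1 : τ (φ RatFunc.X) = ψ RatFunc.X) (h2 : τ (ψ RatFunc.X) = φ RatFunc.X)
    {a t0 : ℂ} (ha : a ∈ fC C t0) (hev : Even (C.e (some a))) :
    ∃ Q ∈ PT h.fin ψ a a, plc τ Q = Q := by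
  obtain ⟨Q, hQ, hs⟩ := h.exists_slope ha (ζ := -1) hev.neg_one_pow (by norm_num)
  have hQ' : plc τ Q ∈ PT h.fin ψ a a := by
    obtain ⟨h3, h4⟩ := (mem_PT h.fin).1 hQ
    refine (mem_PT h.fin).2 ⟨?_, ?_⟩
    · show 0 < (plc τ Q).ord (φ RatFunc.X - algebraMap ℂ K a)
      rw [plc_ord, map_sub, AlgEquiv.commutes, h1]
      exact h4
    · show 0 < (plc τ Q).ord (ψ RatFunc.X - algebraMap ℂ K a)
      rw [plc_ord, map_sub, AlgEquiv.commutes, h2]
      exact h3
  refine ⟨Q, hQ, h.slope_inj ha hQ' hQ ?_ hs⟩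
  have h5 : τ (ψ RatFunc.X - algebraMap ℂ K a -
      algebraMap ℂ K (-1) * (φ RatFunc.X - algebraMap ℂ K a)) =
      ψ RatFunc.X - algebraMap ℂ K a -
      algebraMap ℂ K (-1) * (φ RatFunc.X - algebraMap ℂ K a) := by
    simp only [map_sub, map_mul, map_neg, map_one, AlgEquiv.commutes, h1, h2]
    ring
  rcases hs with h6 | h6
  · exact Or.inl h6
  · right
    rw [plc_ord, h5]
    exact h6

end WildG
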