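import Pool.Agent.helper21.GN.Genus

/-!
# Subfields (helper44, MP_11236d_an, stage 3)
-/

namespace WildG

open Polynomial WildRat WildS WildV

variable {K L : Type} [Field K] [Algebra ℂ K] [Field L] [Algebra ℂ L]

/-- the orders restricted to the subfield are the multiples of a positive integer -/
theorem Over_gen (ι : K →ₐ[ℂ] L) {φ : E →ₐ[ℂ] K} (hφ : FinC (ι.comp φ)) (Q : Pl L) :
    ∃ (e : ℕ) (o : K → ℤ), 1 ≤ e ∧ (∀ z, Q.ord (ι z) = e * o z) ∧ ∃ z1, z1 ≠ 0 ∧ o z1 = 1 := by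
  classical
  have hι : ∀ z : K, z ≠ 0 → ι z ≠ 0 := fun z hz h => hz (ι.toRingHom.injective (by
    rw [map_zero]; exact h))
  have hne : ∃ z : K, z ≠ 0 ∧ Q.ord (ι z) ≠ 0 := by
    rcases le_or_gt 0 (Q.ord ((ι.comp φ) RatFunc.X)) with h | h
    · obtain ⟨a, ha⟩ := exists_value (ι.comp φ) hφ Q h
      have ha' : 0 < Q.ord ((ι.comp φ) RatFunc.X - algebraMap ℂ L a) := ha
      have h1 : (ι.comp φ) RatFunc.X - algebraMap ℂ L a = ι (φ RatFunc.X - algebraMap ℂ K a) := by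
        rw [map_sub, ι.commutes]
        rfl
      rw [h1] at ha'
      exact ⟨_, coord_sub_ne φ a, ha'.ne'⟩
    · refine ⟨φ RatFunc.X, ?_, h.ne⟩
      intro h0
      rw [AlgHom.comp_apply, h0, map_zero, Q.ord_zero] at h
      exact lt_irrefl _ h
  have hpos : ∃ n : ℕ, 0 < n ∧ ∃ z : K, z ≠ 0 ∧ Q.ord (ι z) = n := by
    obtain ⟨z, hz, h⟩ := hne
    refine ⟨(Q.ord (ι z)).natAbs, Int.natAbs_pos.2 h, ?_⟩
    rcases lt_or_gt_of_ne h with h1 | h1
    · refine ⟨z⁻¹, inv_ne_zero hz, ?_⟩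
      rw [map_inv₀, Q.ord_inv]
      omega
    · exact ⟨z, hz, by omega⟩
  obtain ⟨he, z1, hz1, hez1⟩ := Nat.find_spec hpos
  have hmin : ∀ n : ℕ, 0 < n → (∃ z : K, z ≠ 0 ∧ Q.ord (ι z) = n) → Nat.find hpos ≤ n :=
    fun n h1 h2 => Nat.find_min' hpos ⟨h1, h2⟩
  set e : ℕ := Nat.find hpos with he_def
  have hdvd : ∀ z : K, (e : ℤ) ∣ Q.ord (ι z) := by
    intro z
    by_cases hz : z = 0
    · rw [hz, map_zero, Q.ord_zero]
      exact dvd_zero _
    · by_contra hcon
      have hr : 0 < Q.ord (ι z) % e := by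
        have h1 := Int.emod_nonneg (Q.ord (ι z)) (by omega : (e : ℤ) ≠ 0)
        have h2 : Q.ord (ι z) % e ≠ 0 := fun h => hcon (Int.dvd_of_emod_eq_zero h)
        omega
      have hlt : Q.ord (ι z) % e < e := Int.emod_lt_of_pos _ (by omega)
      have hw : Q.ord (ι (z * z1 ^ (-(Q.ord (ι z) / e)))) = Q.ord (ι z) % e := by
        rw [map_mul, map_zpow₀, Q.ord_mul (hι z hz) (zpow_ne_zero _ (hι z1 hz1)), RH_ord_zpow,
          hez1]
        have h3 := Int.emod_add_mul_ediv (Q.ord (ι z)) e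
        linear_combination -h3
      have h4 := hmin (Q.ord (ι z) % e).toNat (by omega)
        ⟨_, mul_ne_zero hz (zpow_ne_zero _ hz1), by rw [hw]; omega⟩
      omega
  choose o ho using hdvd
  refine ⟨e, o, he, ho, z1, hz1, ?_⟩
  have h5 := ho z1
  rw [hez1] at h5
  have h6 : (e : ℤ) ≠ 0 := by omega
  exact (mul_left_cancel₀ h6 (by rw [mul_one]; exact h5)).symm

/-- **Restriction of places to a subfield.**

Proof.  Let `S = {Q.ord (ι z) : z ≠ 0}`, a subgroup of `ℤ`.  It is not zero: with `x = ι (φ X)` either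
`Q.ord x < 0`, or `Q ∈ fib (ι.comp φ) a` for some `a` (`exists_value`), so `Q.ord (ι (φ X - a)) > 0`.  Let `e > 0`
be its generator (least positive element), attained at `z1`.  Define `P.v z = 0` if `z = 0` and
`WithZero.exp (- (Q.ord (ι z) / e))` otherwise; it is a valuation (multiplicative because `e` divides all
the orders; the ultrametric inequality from the one of `Q.v`, division by `e` is monotone), surjective
because of `z1`, trivial on `ℂ`. -/
theorem exists_restr (ι : K →ₐ[ℂ] L) {φ : E →ₐ[ℂ] K} (hφ : FinC (ι.comp φ)) (Q : Pl L) :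
    ∃ (P : Pl K) (e : ℕ), 1 ≤ e ∧ ∀ z : K, Q.ord (ι z) = e * P.ord z := by
  classical
  have hι : ∀ z : K, z ≠ 0 → ι z ≠ 0 := fun z hz h => hz (ι.toRingHom.injective (by
    rw [map_zero]; exact h))
  obtain ⟨e, o, he, ho, z1, hz1, ho1⟩ := Over_gen ι hφ Q
  have he0 : (0 : ℤ) < e := by omega
  have omul : ∀ x y : K, x ≠ 0 → y ≠ 0 → o (x * y) = o x + o y := by
    intro x y hx hy
    have h1 := ho (x * y)
    rw [map_mul, Q.ord_mul (hι x hx) (hι y hy), ho x, ho y, ← mul_add] at h1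
    exact (mul_left_cancel₀ he0.ne' h1).symm
  have oC : ∀ c : ℂ, o (algebraMap ℂ K c) = 0 := by
    intro c
    have h1 := ho (algebraMap ℂ K c)
    rw [ι.commutes, Q.ord_C] at h1
    rcases mul_eq_zero.1 h1.symm with h2 | h2
    · omega
    · exact h2
  have o1 : o 1 = 0 := by
    have := oC 1
    rwa [map_one] at this
  have o0 : o 0 = 0 := by
    have := oC 0
    rwa [map_zero] at this
  have omin : ∀ x y : K, x + y ≠ 0 → x ≠ 0 → y ≠ 0 → min (o x) (o y) ≤ o (x + y) := by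
    intro x y hxy hx hy
    have h1 := Q.ord_add (u := ι x) (w := ι y) (by rw [← map_add]; exact hι _ hxy)
    rw [← map_add, ho x, ho y, ho (x + y)] at h1
    rcases h1 with h1 | h1 | h1
    · rcases min_le_iff.1 h1 with h2 | h2
      · exact min_le_iff.2 (Or.inl (le_of_mul_le_mul_left h2 he0))
      · exact min_le_iff.2 (Or.inr (le_of_mul_le_mul_left h2 he0))
    · exact absurd h1 (hι x hx)
    · exact absurd h1 (hι y hy)
  let v : Valuation K (WithZero (Multiplicative ℤ)) :=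
    { toFun := fun z => if z = 0 then 0 else WithZero.exp (-(o z))
      map_zero' := if_pos rfl
      map_one' := by
        rw [if_neg one_ne_zero, o1, neg_zero, WithZero.exp_zero]
      map_mul' := by
        intro x y
        by_cases hx : x = 0
        · rw [hx, zero_mul, if_pos rfl, zero_mul]
        by_cases hy : y = 0
        · rw [hy, mul_zero, if_pos rfl, mul_zero]
        rw [if_neg (mul_ne_zero hx hy), if_neg hx, if_neg hy, omul x y hx hy, neg_add,
          WithZero.exp_add]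
      map_add_le_max' := by
        intro x y
        by_cases hxy : x + y = 0
        · rw [if_pos hxy]
          exact zero_le
        by_cases hx : x = 0
        · rw [hx, zero_add]
          exact le_max_right _ _
        by_cases hy : y = 0
        · rw [hy, add_zero]
          exact le_max_left _ _
        rw [if_neg hxy, if_neg hx, if_neg hy]
        rcases min_le_iff.1 (omin x y hxy hx hy) with h | h
        · exact le_max_of_le_left (WithZero.exp_le_exp.2 (by omega))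
        · exact le_max_of_le_right (WithZero.exp_le_exp.2 (by omega)) }
  have hv : ∀ z : K, z ≠ 0 → v z = WithZero.exp (-(o z)) := fun z hz => if_neg hz
  let P : Pl K :=
    { v := v
      surj := by
        intro w
        by_cases hw : w = 0
        · exact ⟨0, by rw [map_zero, hw]⟩
        · refine ⟨z1 ^ (-(WithZero.log w)), ?_⟩
          rw [hv _ (zpow_ne_zero _ hz1)]
          have h1 : o (z1 ^ (-(WithZero.log w))) = -(WithZero.log w) := by
            have h2 := ho (z1 ^ (-(WithZero.log w)))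
            rw [map_zpow₀, RH_ord_zpow, ho z1, ho1, mul_one, mul_comm] at h2
            exact (mul_left_cancel₀ he0.ne' h2).symm
          rw [h1, neg_neg, WithZero.exp_log hw]
      triv := by
        intro c hc
        rw [hv _ (by rw [_root_.map_ne_zero]; exact hc), oC, neg_zero, WithZero.exp_zero] }
  refine ⟨P, e, he, fun z => ?_⟩
  by_cases hz : z = 0
  · rw [hz, map_zero, Q.ord_zero, P.ord_zero, mul_zero]
  · rw [ho z]
    congr 1
    show o z = - WithZero.log (v z)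
    rw [hv z hz, WithZero.log_exp, neg_neg]

/-- A choice of the restriction. -/
noncomputable def rst (ι : K →ₐ[ℂ] L) {φ : E →ₐ[ℂ] K} (hφ : FinC (ι.comp φ)) (Q : Pl L) : Pl K :=
  (exists_restr ι hφ Q).choose

/-- The ramification index of the restriction. -/
noncomputable def rix (ι : K →ₐ[ℂ] L) {φ : E →ₐ[ℂ] K} (hφ : FinC (ι.comp φ)) (Q : Pl L) : ℕ :=
  (exists_restr ι hφ Q).choose_spec.choose

theorem rst_spec (ι : K →ₐ[ℂ] L) {φ : E →ₐ[ℂ] K} (hφ : FinC (ι.comp φ)) (Q : Pl L) :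
    1 ≤ rix ι hφ Q ∧ ∀ z : K, Q.ord (ι z) = rix ι hφ Q * (rst ι hφ Q).ord z :=
  (exists_restr ι hφ Q).choose_spec.choose_spec

/-- Proof: `0 < Q.ord (ι z) ↔ 0 < (rst Q).ord z`. -/
theorem rst_fib (ι : K →ₐ[ℂ] L) {φ : E →ₐ[ℂ] K} (hφ : FinC (ι.comp φ)) (Q : Pl L) (a : ℂ) :
    Q ∈ fib (ι.comp φ) a ↔ rst ι hφ Q ∈ fib φ a := by
  obtain ⟨h1, h2⟩ := rst_spec ι hφ Q
  show 0 < Q.ord ((ι.comp φ) RatFunc.X - algebraMap ℂ L a) ↔
    0 < (rst ι hφ Q).ord (φ RatFunc.X - algebraMap ℂ K a)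
  have h3 : (ι.comp φ) RatFunc.X - algebraMap ℂ L a = ι (φ RatFunc.X - algebraMap ℂ K a) := by
    rw [map_sub, ι.commutes]
    rfl
  have h4 : (0 : ℤ) < rix ι hφ Q := by omega
  rw [h3, h2]
  exact mul_pos_iff_of_pos_left h4

/-- Proof: `ram_fib` if the coordinate is finite (`exists_value`), `ram_pole` at a pole. -/
theorem rst_ram (ι : K →ₐ[ℂ] L) {φ : E →ₐ[ℂ] K} (hφ : FinC (ι.comp φ)) (Q : Pl L) :
    ram (ι.comp φ) Q = rix ι hφ Q * ram φ (rst ι hφ Q) := by
  obtain ⟨h1, h2⟩ := rst_spec ι hφ Q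
  have h4 : (0 : ℤ) < rix ι hφ Q := by omega
  rcases le_or_gt 0 (Q.ord ((ι.comp φ) RatFunc.X)) with h | h
  · obtain ⟨a, ha⟩ := exists_value (ι.comp φ) hφ Q h
    have h3 : (ι.comp φ) RatFunc.X - algebraMap ℂ L a = ι (φ RatFunc.X - algebraMap ℂ K a) := by
      rw [map_sub, ι.commutes]
      rfl
    rw [ram_fib ha, ram_fib ((rst_fib ι hφ Q a).1 ha), h3, h2]
  · have h5 : Q.ord ((ι.comp φ) RatFunc.X) = rix ι hφ Q * (rst ι hφ Q).ord (φ RatFunc.X) :=
      h2 (φ RatFunc.X)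
    have h6 : (rst ι hφ Q).ord (φ RatFunc.X) < 0 := by
      rw [h5] at h
      by_contra hcon
      exact absurd h (not_lt.2 (mul_nonneg h4.le (not_lt.1 hcon)))
    rw [ram_pole h, ram_pole h6, h5]
    ring

theorem Over_mu (ι : K →ₐ[ℂ] L) (φ : E →ₐ[ℂ] K) (z : K) : mu (ι.comp φ) (ι z) = mu φ z := by
  unfold mu
  let _ : Algebra E K := φ.toRingHom.toAlgebra
  let _ : Algebra E L := (ι.comp φ).toRingHom.toAlgebra
  let f : K →ₐ[E] L := { ι.toRingHom with commutes' := fun r => rfl }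
  exact minpoly.algHom_eq f ι.toRingHom.injective z

theorem Over_sum (ι : K →ₐ[ℂ] L) {φ : E →ₐ[ℂ] K} (hφ0 : FinC φ) (hφ : FinC (ι.comp φ)) (a : ℂ)
    {z : K} (hz : z ≠ 0) :
    (∑ Q ∈ fibS (ι.comp φ) hφ a, Q.ord (ι z)) * deg φ =
      (∑ P ∈ fibS φ hφ0 a, P.ord z) * deg (ι.comp φ) := by
  have hz' : ι z ≠ 0 := fun h => hz (ι.toRingHom.injective (by rw [map_zero]; exact h))
  obtain ⟨m, -, hm, h1⟩ := mu_norm (ι.comp φ) hφ (ι z)
  obtain ⟨m', -, hm', h1'⟩ := mu_norm φ hφ0 z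
  have h2 := (h1 a 0 (by rw [map_zero]; exact hz')).2
  have h2' := (h1' a 0 (by rw [map_zero]; exact hz)).2
  simp only [map_zero, sub_zero] at h2 h2'
  rw [Over_mu] at h2 hm
  rw [h2, h2', ← hm, ← hm']
  push_cast
  ring

theorem Over_elt {φ : E →ₐ[ℂ] K} (hφ0 : FinC φ) {a : ℂ} {P : Pl K} (hP : P ∈ fib φ a) :
    ∃ z : K, z ≠ 0 ∧ P.ord z = 1 ∧ ∀ P' ∈ fib φ a, P' ≠ P → P'.ord z = 0 := by
  obtain ⟨z1, h1, h1P, h1'⟩ := exists_apx φ hφ0 a hP 1 1
  obtain ⟨z0, h0, h0P, h0'⟩ := exists_apx φ hφ0 a hP 0 1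
  push_cast at h1P h1' h0P h0'
  obtain ⟨c, hc⟩ := exists_res φ hφ0 P z0 (by rw [h0P])
  have hc0 : c ≠ 0 := by
    rintro rfl
    rw [map_zero, sub_zero] at hc
    rcases hc with hc | hc
    · exact h0 hc
    · rw [h0P] at hc
      exact lt_irrefl _ hc
  have hPz := P.ord_add_eq h1 (w := (z0 - algebraMap ℂ K c) ^ 2) (by
    rcases hc with hc | hc
    · left
      rw [hc, sub_self]
      exact zero_pow two_ne_zero
    · right
      rw [h1P, P.ord_pow]
      push_cast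
      omega)
  refine ⟨z1 + (z0 - algebraMap ℂ K c) ^ 2, hPz.1, by rw [hPz.2, h1P], ?_⟩
  intro P' hP' hne
  have h3 : 0 < P'.ord (z0 - algebraMap ℂ K 0) := by
    rw [map_zero, sub_zero]
    have := h0' P' hP' hne
    omega
  obtain ⟨h4, h5⟩ := P'.ord_sub_of_ne h3 hc0.symm
  have h6 : P'.ord ((z0 - algebraMap ℂ K c) ^ 2) = 0 := by
    rw [P'.ord_pow, h5, mul_zero]
  have h7 := (P'.ord_add_eq (pow_ne_zero 2 h4) (w := z1) (Or.inr (by
    rw [h6]
    have := h1' P' hP' hne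
    omega))).2
  rw [add_comm, h7, h6]

open Classical in
/-- **The fundamental equality** (up to the degrees): the ramification indices over `P` add up to
`deg (ι.comp φ) / deg φ`.

Proof.  For `z ∈ K`, `z ≠ 0`, put `N z = ∑ Q over a, Q.ord (ι z)`.  By `mu_norm` for `ι.comp φ` and for `φ`
(take `b = 0`; the minimal polynomials over `E` of `z` and of `ι z` are equal:
`mu (ι.comp φ) (ι z) = mu φ z`, `minpoly` is invariant under injective maps):
`N z * deg φ = (∑ P' over a, P'.ord z) * deg (ι.comp φ)`.  By `rst_spec`, `rst_fib`: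
`N z = ∑ P' over a, r P' * P'.ord z` with `r P' = ∑ Q over P', rix Q`.  So it is enough to find `z ≠ 0` with
order `1` at `P` and order `0` at the other places over `a`.  Take `z1` with order `1` at `P` and order
`≥ 1` at the others, `z0` with order `0` at `P` and order `≥ 1` at the others (`exists_apx` of
GN/Apx.lean), the value `c` of `z0` at `P` (`exists_res`; `c ≠ 0`), and `z = z1 + (z0 - c) ^ 2`.  At `P`: `z1`
has order `1` and `(z0 - c) ^ 2` is zero or has order at least `2`.  At the other places `z0 - c` has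
order `0`, and `z1` has positive order.  (`Pl.ord_add_eq`.) -/
theorem sum_rix (ι : K →ₐ[ℂ] L) {φ : E →ₐ[ℂ] K} (hφ0 : FinC φ) (hφ : FinC (ι.comp φ)) {a : ℂ}
    {P : Pl K} (hP : P ∈ fib φ a) :
    (∑ Q ∈ (fibS (ι.comp φ) hφ a).filter fun Q => rst ι hφ Q = P, (rix ι hφ Q : ℤ)) * deg φ =
      deg (ι.comp φ) := by
  obtain ⟨z, hz, hzP, hz'⟩ := Over_elt hφ0 hP
  have h1 := Over_sum ι hφ0 hφ a hz
  have h2 : ∑ P' ∈ fibS φ hφ0 a, P'.ord z = 1 := by
    rw [Finset.sum_eq_single P, hzP]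
    · intro P' hP' hne
      exact hz' P' (mem_fibS.1 hP') hne
    · intro h
      exact absurd (mem_fibS.2 hP) h
  have h3 : ∑ Q ∈ fibS (ι.comp φ) hφ a, Q.ord (ι z) =
      ∑ Q ∈ (fibS (ι.comp φ) hφ a).filter fun Q => rst ι hφ Q = P, (rix ι hφ Q : ℤ) := by
    rw [Finset.sum_filter]
    refine Finset.sum_congr rfl fun Q hQ => ?_
    rw [(rst_spec ι hφ Q).2 z]
    by_cases h : rst ι hφ Q = P
    · rw [if_pos h, h, hzP, mul_one]
    · rw [if_neg h, hz' _ ((rst_fib ι hφ Q a).1 (mem_fibS.1 hQ)) h, mul_zero]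
  rw [h2, h3, one_mul] at h1
  exact h1

/-- the places over a place, also at the poles of the coordinate -/
theorem Over_fin (ι : K →ₐ[ℂ] L) {φ : E →ₐ[ℂ] K} (hφ0 : FinC φ) (hφ : FinC (ι.comp φ))
    (P : Pl K) : ∃ S : Finset (Pl L), (∀ Q ∈ S, rst ι hφ Q = P) ∧
      (∑ Q ∈ S, (rix ι hφ Q : ℤ)) * deg φ = deg (ι.comp φ) := by
  classical
  rcases le_or_gt 0 (P.ord (φ RatFunc.X)) with h | h
  · obtain ⟨a, ha⟩ := exists_value φ hφ0 P h
    exact ⟨_, fun Q hQ => (Finset.mem_filter.1 hQ).2, sum_rix ι hφ0 hφ ha⟩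
  · have h0 : FinC (φ.comp invE) := finC_comp hφ0 finC_invE
    have h1 : FinC (ι.comp (φ.comp invE)) := finC_comp (φ := ι.comp φ) hφ finC_invE
    have h2 := sum_rix ι h0 h1 ((mem_fib_inv φ P).2 h)
    have h3 : deg (ι.comp (φ.comp invE)) = deg (ι.comp φ) := deg_comp_invE (ι.comp φ)
    rw [deg_comp_invE, h3] at h2
    exact ⟨_, fun Q hQ => (Finset.mem_filter.1 hQ).2, h2⟩

/-- **Subfields of a field with `2g - 2 ≤ 0`.**

Proof.  Let `φL = ι.comp φ`.  For `T` a finite set of places of `K`, let `T'` be the set of the places `Q` of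
`L` with `rst Q ∈ T` (finite: over every `P ∈ T` there are finitely many, they lie in a fibre of `φL` over
a point or over infinity; for the poles use the coordinate `φ.comp invE`, `ram_inv`, `mem_fib_inv`,
`sum_rix` for it; the degrees of `φ.comp invE` and `φ` agree).  For `P ∈ T`:
`∑ Q over P, (ram φL Q - 1) = ∑ Q, (rix Q * ram φ P - 1) ≥ ∑ Q, rix Q * (ram φ P - 1)`
(`rst_ram`, `1 ≤ rix Q`), and multiplied by `deg φ` this is `deg φL * (ram φ P - 1)` (`sum_rix`).  So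
`deg φL * ∑ P ∈ T, (ram φ P - 1) ≤ deg φ * ∑ Q ∈ T', (ram φL Q - 1) ≤ deg φ * 2 * deg φL`, and `deg φL > 0`. -/
theorem GenusLe.sub (ι : K →ₐ[ℂ] L) {φ : E →ₐ[ℂ] K} (hφ0 : FinC φ) (hφ : FinC (ι.comp φ))
    (h : GenusLe (ι.comp φ)) : GenusLe φ := by
  classical
  intro T
  choose S hS hsum using Over_fin ι hφ0 hφ
  have hpos : (0 : ℤ) < deg (ι.comp φ) := by exact_mod_cast deg_pos hφ
  have hdis : (T : Set (Pl K)).PairwiseDisjoint S := by
    intro P _ P' _ hne
    rw [Function.onFun, Finset.disjoint_left]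
    intro Q hQ hQ'
    exact hne ((hS P Q hQ).symm.trans (hS P' Q hQ'))
  have h1 := h (T.biUnion S)
  rw [Finset.sum_biUnion hdis] at h1
  have h2 : ∀ P ∈ T, (deg (ι.comp φ) : ℤ) * (ram φ P - 1) ≤
      deg φ * ∑ Q ∈ S P, (ram (ι.comp φ) Q - 1) := by
    intro P _
    rw [← hsum P]
    have h3 : (∑ Q ∈ S P, (rix ι hφ Q : ℤ)) * (ram φ P - 1) ≤
        ∑ Q ∈ S P, (ram (ι.comp φ) Q - 1) := by
      rw [Finset.sum_mul]
      refine Finset.sum_le_sum fun Q hQ => ?_
      rw [rst_ram ι hφ Q, hS P Q hQ]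
      have h4 := (rst_spec ι hφ Q).1
      have h5 : (1 : ℤ) ≤ rix ι hφ Q := by exact_mod_cast h4
      linarith
    have h6 : (0 : ℤ) ≤ deg φ := Int.natCast_nonneg _
    calc (∑ Q ∈ S P, (rix ι hφ Q : ℤ)) * deg φ * (ram φ P - 1) =
        deg φ * ((∑ Q ∈ S P, (rix ι hφ Q : ℤ)) * (ram φ P - 1)) := by ring
      _ ≤ deg φ * ∑ Q ∈ S P, (ram (ι.comp φ) Q - 1) := mul_le_mul_of_nonneg_left h3 h6
  have h7 := Finset.sum_le_sum h2
  rw [← Finset.mul_sum, ← Finset.mul_sum] at h7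
  have h8 : (0 : ℤ) ≤ deg φ := Int.natCast_nonneg _
  have h9 := mul_le_mul_of_nonneg_left h1 h8
  have h10 : (deg (ι.comp φ) : ℤ) * ∑ P ∈ T, (ram φ P - 1) ≤
      deg (ι.comp φ) * (2 * (deg φ : ℤ)) := by
    calc (deg (ι.comp φ) : ℤ) * ∑ P ∈ T, (ram φ P - 1) ≤ _ := h7
      _ ≤ _ := h9
      _ = deg (ι.comp φ) * (2 * (deg φ : ℤ)) := by ring
  exact le_of_mul_le_mul_left h10 hpos

end WildG
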