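import Pool.Agent.helper44.Gen.InvB
import Pool.Agent.helper44.Gen.Over
import Pool.Agent.helper21.GN.Nonneg

/-!
# Riemann-Hurwitz for the quotient by an involution (helper44, MP_11236d_an, stage 4)
-/

namespace WildG

open Polynomial WildRat WildS WildV

variable {K : Type} [Field K] [Algebra ℂ K]

/-- The fixed field of an automorphism. -/
def Fx (τ : K ≃ₐ[ℂ] K) : IntermediateField ℂ K where
  carrier := {z | τ z = z}
  mul_mem' := by
    intro a b ha hb
    have ha' : τ a = a := ha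
    have hb' : τ b = b := hb
    show τ (a * b) = a * b
    rw [map_mul, ha', hb']
  add_mem' := by
    intro a b ha hb
    have ha' : τ a = a := ha
    have hb' : τ b = b := hb
    show τ (a + b) = a + b
    rw [map_add, ha', hb']
  algebraMap_mem' := by
    intro r
    exact τ.commutes r
  inv_mem' := by
    intro a ha
    have ha' : τ a = a := ha
    show τ a⁻¹ = a⁻¹
    rw [map_inv₀, ha']

theorem mem_Fx {τ : K ≃ₐ[ℂ] K} {z : K} : z ∈ Fx τ ↔ τ z = z := Iff.rfl

/-- A coordinate of the fixed field.  Proof: `exists_subst` for the element `⟨z, hz⟩` of `Fx τ`. -/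
theorem exists_Fx_coord {τ : K ≃ₐ[ℂ] K} {z : K} (hz : τ z = z) (hc : NonConst z) :
    ∃ χ : E →ₐ[ℂ] Fx τ, ((Fx τ).val.comp χ) RatFunc.X = z := by
  have h1 : NonConst (⟨z, hz⟩ : Fx τ) := by
    intro c h
    exact hc c (congrArg Subtype.val h)
  obtain ⟨χ, hχ⟩ := exists_subst h1
  refine ⟨χ, ?_⟩
  rw [AlgHom.comp_apply, hχ]
  rfl

theorem InvC_two {τ : K ≃ₐ[ℂ] K} (hinv : ∀ z, τ (τ z) = z) (hne : ∃ w, τ w ≠ w) :
    Module.finrank (Fx τ) K = 2 := by
  obtain ⟨w, hw⟩ := hne
  have hw' : w - τ w ≠ 0 := sub_ne_zero.2 fun h => hw h.symm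
  let f : (Fin 2 → Fx τ) →ₗ[Fx τ] K := Fintype.linearCombination (Fx τ) ![1, w]
  have hf : ∀ g : Fin 2 → Fx τ, f g = (g 0 : K) + (g 1 : K) * w := by
    intro g
    simp only [f, Fintype.linearCombination_apply, Fin.sum_univ_two]
    rw [Algebra.smul_def, Algebra.smul_def]
    simp only [Matrix.cons_val_zero, Matrix.cons_val_one, mul_one]
    rfl
  have hinj : Function.Injective f := by
    rw [injective_iff_map_eq_zero]
    intro g hg
    rw [hf] at hg
    have h0 : τ (g 0 : K) = g 0 := (g 0).2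
    have h1 : τ (g 1 : K) = g 1 := (g 1).2
    have h2 := congrArg τ hg
    rw [map_add, map_mul, h0, h1, map_zero] at h2
    have h3 : (g 1 : K) * (w - τ w) = 0 := by linear_combination hg - h2
    have h4 : (g 1 : K) = 0 := (mul_eq_zero.1 h3).resolve_right hw'
    have h5 : (g 0 : K) = 0 := by rwa [h4, zero_mul, add_zero] at hg
    funext i
    fin_cases i
    · exact Subtype.ext h5
    · exact Subtype.ext h4
  have hsurj : Function.Surjective f := by
    intro z
    have hq : τ ((z - τ z) / (w - τ w)) = (z - τ z) / (w - τ w) := by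
      rw [map_div₀, map_sub, map_sub, hinv, hinv, ← neg_sub z, ← neg_sub w, neg_div_neg_eq]
    have hqw : (z - τ z) / (w - τ w) * (w - τ w) = z - τ z := div_mul_cancel₀ _ hw'
    have hp : τ (z - (z - τ z) / (w - τ w) * w) = z - (z - τ z) / (w - τ w) * w := by
      rw [map_sub, map_mul, hq]
      linear_combination hqw
    refine ⟨![⟨z - (z - τ z) / (w - τ w) * w, hp⟩, ⟨(z - τ z) / (w - τ w), hq⟩], ?_⟩
    rw [hf]
    simp
  have h6 := (LinearEquiv.ofBijective f ⟨hinj, hsurj⟩).finrank_eq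
  rw [← h6, Module.finrank_fin_fun]

/-- The degree of `K` over the fixed field of an involution is two.

Proof.  Let `w` be an element with `τ w ≠ w`.  Every `z ∈ K` is `p + q w` with `p`, `q` in `Fx τ`:
`q = (z - τ z) / (w - τ w)`, `p = z - q w`; `1`, `w` are independent over `Fx τ`.  So
`[K : Fx τ] = 2`.  `K` is finite over `E` (through `(Fx τ).val.comp χ`), so `Fx τ` is (a subspace), and
`Module.finrank_mul_finrank` for the tower `E ⊆ Fx τ ⊆ K` (algebra structures from `χ.toRingHom` and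
the inclusion; `Deg_tower` in WS/Deg.lean has the ring homomorphism form). -/
theorem Fx_deg {τ : K ≃ₐ[ℂ] K} (hinv : ∀ z, τ (τ z) = z) (hne : ∃ w, τ w ≠ w)
    {χ : E →ₐ[ℂ] Fx τ} (hfin : FinC ((Fx τ).val.comp χ)) :
    FinC χ ∧ deg ((Fx τ).val.comp χ) = 2 * deg χ := by
  constructor
  · let _ : Algebra E (Fx τ) := χ.toRingHom.toAlgebra
    let _ : Algebra E K := ((Fx τ).val.comp χ).toRingHom.toAlgebra
    have : Module.Finite E K := hfin
    let f : Fx τ →ₗ[E] K :=
      { toFun := fun z => (z : K)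
        map_add' := fun _ _ => rfl
        map_smul' := fun _ _ => rfl }
    exact Module.Finite.of_injective f Subtype.val_injective
  · have h1 := Deg_tower χ.toRingHom (Fx τ).val.toRingHom
    have h2 := InvC_two hinv hne
    have h3 : (@Module.finrank (Fx τ) K _ _ (Fx τ).val.toRingHom.toAlgebra.toModule) = 2 := h2
    rw [h3, mul_comm] at h1
    exact h1

theorem InvC_plc {τ : K ≃ₐ[ℂ] K} (hinv : ∀ z, τ (τ z) = z) (P : Pl K) :
    plc τ (plc τ P) = P := by
  apply Pl.ext'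
  intro u
  show P.v (τ (τ u)) = P.v u
  rw [hinv]

theorem InvC_aux {τ : K ≃ₐ[ℂ] K} (hinv : ∀ z, τ (τ z) = z) {φ : E →ₐ[ℂ] K} (hφ : FinC φ)
    (hfix : τ (φ RatFunc.X) = φ RatFunc.X) {a : ℂ} {Q Q' : Pl K} (hQa : Q ∈ fib φ a)
    (hQa' : Q' ∈ fib φ a) (hQ : plc τ Q = Q)
    (hrel : ∀ n : K, τ n = n → Q.ord n = 0 → Q'.ord n = 0) : Q' = Q := by
  by_contra hne
  obtain ⟨z, hz, hzQ, hz'⟩ := exists_apx φ hφ a hQa 0 1
  push_cast at hzQ hz'
  have hR : plc τ Q' ≠ Q := by
    intro h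
    apply hne
    rw [← InvC_plc hinv Q', h, hQ]
  have hRa : plc τ Q' ∈ fib φ a := by
    show 0 < (plc τ Q').ord (φ RatFunc.X - algebraMap ℂ K a)
    rw [plc_ord, map_sub, hfix, τ.commutes]
    exact hQa'
  have hτz : τ z ≠ 0 := fun h => hz (τ.injective (by rw [h, map_zero]))
  have h1 : Q.ord (z * τ z) = 0 := by
    rw [Q.ord_mul hz hτz, ← plc_ord, hQ, hzQ, add_zero]
  have h2 : τ (z * τ z) = z * τ z := by
    rw [map_mul, hinv, mul_comm]
  have h3 := hrel _ h2 h1
  rw [Q'.ord_mul hz hτz, ← plc_ord] at h3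
  have h4 := hz' Q' hQa' hne
  have h5 := hz' _ hRa hR
  omega

/-- A fixed place is the only place over its restriction.

Proof.  Suppose `Q' ≠ Q` and `rst Q' = rst Q = P`.  By `Over_fin` (Over.lean) and `Fx_deg` the indices
`rix` over `P` add up to two (over a set `S` of places over `P`; by its construction it consists of all
of them; prove this first or use `sum_rix`), so `Q`, `Q'` are the only places over `P`.
`plc τ Q'` has the same restriction (`τ` is the identity on `Fx τ`; `rst` is determined by its orders up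
to the positive factor: `rst_spec`, `Pl.ext'`), so it is `Q` or `Q'`; it is not `Q` because `plc τ` is
injective (`plc τ (plc τ R) = R`) and `plc τ Q = Q`; so `plc τ Q' = Q'`.  Choose `z ∈ K` with `Q.ord z ≥ 1`
and `Q'.ord z = 0`: `exists_apx` (GN/Apx.lean) for the coordinate `(Fx τ).val.comp χ` and the point under
`Q` with `P0 = Q'`, `ν = 0`, `N = 1` (at a pole of the coordinate use `χ.comp invE`).  `N = z * τ z ∈ Fx τ`;
`Q.ord N = 2 Q.ord z > 0`, so `P.ord N > 0`; `Q'.ord N = 2 Q'.ord z = 0`, so `P.ord N = 0`.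
Contradiction. -/
theorem fixed_unique {τ : K ≃ₐ[ℂ] K} (hinv : ∀ z, τ (τ z) = z) (hne : ∃ w, τ w ≠ w)
    {χ : E →ₐ[ℂ] Fx τ} (hfin : FinC ((Fx τ).val.comp χ)) {Q : Pl K} (hQ : plc τ Q = Q)
    {Q' : Pl K} (h : rst (Fx τ).val hfin Q' = rst (Fx τ).val hfin Q) : Q' = Q := by
  obtain ⟨h1, h2⟩ := rst_spec (Fx τ).val hfin Q
  obtain ⟨h1', h2'⟩ := rst_spec (Fx τ).val hfin Q'
  have hfix : τ (((Fx τ).val.comp χ) RatFunc.X) = ((Fx τ).val.comp χ) RatFunc.X :=
    (χ RatFunc.X).2
  have hrel : ∀ n : K, τ n = n → Q.ord n = 0 → Q'.ord n = 0 := by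
    intro n hn h0
    have h3 : Q.ord n = rix (Fx τ).val hfin Q * (rst (Fx τ).val hfin Q).ord ⟨n, hn⟩ :=
      h2 ⟨n, hn⟩
    have h4 : Q'.ord n = rix (Fx τ).val hfin Q' * (rst (Fx τ).val hfin Q').ord ⟨n, hn⟩ :=
      h2' ⟨n, hn⟩
    rw [h3] at h0
    have h5 : (rst (Fx τ).val hfin Q).ord ⟨n, hn⟩ = 0 := by
      rcases mul_eq_zero.1 h0 with h6 | h6
      · omega
      · exact h6
    rw [h4, h, h5, mul_zero]
  rcases le_or_gt 0 ((rst (Fx τ).val hfin Q).ord (χ RatFunc.X)) with h3 | h3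
  · obtain ⟨a, ha⟩ := exists_value χ (Fx_deg hinv hne hfin).1 _ h3
    have e1 : Q ∈ fib ((Fx τ).val.comp χ) a := (rst_fib (Fx τ).val hfin Q a).2 ha
    have e2 : Q' ∈ fib ((Fx τ).val.comp χ) a := by
      rw [rst_fib (Fx τ).val hfin Q' a, h]
      exact ha
    exact InvC_aux hinv hfin hfix e1 e2 hQ hrel
  · have hfin' : FinC (((Fx τ).val.comp χ).comp invE) := finC_comp hfin finC_invE
    have hpole : ∀ R : Pl K, rst (Fx τ).val hfin R = rst (Fx τ).val hfin Q →
        R ∈ fib (((Fx τ).val.comp χ).comp invE) 0 := by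
      intro R hR
      obtain ⟨h4, h5⟩ := rst_spec (Fx τ).val hfin R
      rw [mem_fib_inv]
      have h6 : R.ord (((Fx τ).val.comp χ) RatFunc.X) =
          rix (Fx τ).val hfin R * (rst (Fx τ).val hfin R).ord (χ RatFunc.X) := h5 _
      rw [h6, hR]
      have h7 : (0 : ℤ) < rix (Fx τ).val hfin R := by omega
      exact mul_neg_of_pos_of_neg h7 h3
    refine InvC_aux hinv hfin' ?_ (a := 0) (hpole Q rfl) (hpole Q' h) hQ hrel
    rw [AlgHom.comp_apply, invE_X, map_inv₀, map_inv₀, hfix]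

/-- **Riemann-Hurwitz** for an involution with (at least) the fixed places `F`.

Proof.  `ι = (Fx τ).val`, `χL = ι.comp χ`.  `genus_nonneg` for `χ` (GN/Nonneg.lean): a finite set `T0` of places
of `Fx τ` with `2 deg χ - 2 ≤ ∑ (ram χ P - 1)`.  Let `T' = T0 ∪ F.image rst`.  For `P ∈ T'` let `S P` be the set
of `Over_fin`, `∑ Q ∈ S P, rix Q = 2`.  Then `∑ Q ∈ S P, (ram χL Q - 1) = ∑ (rix Q * ram χ P - 1)`
(`rst_ram`) is at least `2 (ram χ P - 1)`, and at least `2 (ram χ P - 1) + 1` if `P = rst Q` with `Q ∈ F`: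
then `S P` has only one element (`fixed_unique`), `rix = 2`.  `rst` is injective on `F` (`fixed_unique`).
Sum over `T'` (disjoint union of the `S P`): at least `2 (2 deg χ - 2) + F.card = 2 deg χL - 4 + F.card`;
the terms of `T' \ T0` are nonnegative (`ram_pos`). -/
theorem inv_rh {τ : K ≃ₐ[ℂ] K} (hinv : ∀ z, τ (τ z) = z) (hne : ∃ w, τ w ≠ w)
    {χ : E →ₐ[ℂ] Fx τ} (hfin : FinC ((Fx τ).val.comp χ)) (F : Finset (Pl K))
    (hF : ∀ Q ∈ F, plc τ Q = Q) : ∃ S : Finset (Pl K),
      2 * (deg ((Fx τ).val.comp χ) : ℤ) - 4 + F.card ≤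
        ∑ Q ∈ S, (ram ((Fx τ).val.comp χ) Q - 1) := by
  classical
  obtain ⟨hχ, hdeg⟩ := Fx_deg hinv hne hfin
  obtain ⟨T0, hT0⟩ := genus_nonneg hχ
  choose S hS hsum using Over_fin (Fx τ).val hχ hfin
  have hpos : (0 : ℤ) < deg χ := by exact_mod_cast deg_pos hχ
  have hsum2 : ∀ P, (∑ Q ∈ S P, (rix (Fx τ).val hfin Q : ℤ)) = 2 := by
    intro P
    have h1 := hsum P
    rw [hdeg] at h1
    push_cast at h1
    exact mul_right_cancel₀ hpos.ne' h1
  have hdis : ∀ T : Finset (Pl (Fx τ)), (T : Set (Pl (Fx τ))).PairwiseDisjoint S := by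
    intro T P _ P' _ hPP
    rw [Function.onFun, Finset.disjoint_left]
    intro Q hQ hQ'
    exact hPP ((hS P Q hQ).symm.trans (hS P' Q hQ'))
  have hcard : ∀ P, ((S P).card : ℤ) ≤ 2 := by
    intro P
    rw [← hsum2 P, Finset.card_eq_sum_ones]
    push_cast
    refine Finset.sum_le_sum fun Q _ => ?_
    have := (rst_spec (Fx τ).val hfin Q).1
    exact_mod_cast this
  have heq : ∀ P, ∑ Q ∈ S P, (ram ((Fx τ).val.comp χ) Q - 1) = 2 * ram χ P - (S P).card := by
    intro P
    rw [Finset.sum_sub_distrib, ← hsum2 P, Finset.sum_mul]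
    congr 1
    · refine Finset.sum_congr rfl fun Q hQ => ?_
      rw [rst_ram (Fx τ).val hfin Q, hS P Q hQ]
    · simp
  have hone : ∀ P ∈ F.image (rst (Fx τ).val hfin), ((S P).card : ℤ) ≤ 1 := by
    intro P hP
    obtain ⟨Q0, hQ0, rfl⟩ := Finset.mem_image.1 hP
    have h1 : S (rst (Fx τ).val hfin Q0) ⊆ {Q0} := by
      intro Q hQ
      rw [Finset.mem_singleton]
      exact fixed_unique hinv hne hfin (hF Q0 hQ0) (hS _ Q hQ)
    have h2 := Finset.card_le_card h1
    rw [Finset.card_singleton] at h2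
    exact_mod_cast h2
  have hterm : ∀ P ∈ T0 ∪ F.image (rst (Fx τ).val hfin),
      2 * (ram χ P - 1) + (if P ∈ F.image (rst (Fx τ).val hfin) then 1 else 0) ≤
        ∑ Q ∈ S P, (ram ((Fx τ).val.comp χ) Q - 1) := by
    intro P _
    rw [heq P]
    by_cases hP : P ∈ F.image (rst (Fx τ).val hfin)
    · rw [if_pos hP]
      have := hone P hP
      linarith
    · rw [if_neg hP]
      have := hcard P
      linarith
  refine ⟨(T0 ∪ F.image (rst (Fx τ).val hfin)).biUnion S, ?_⟩
  rw [Finset.sum_biUnion (hdis _)]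
  refine le_trans ?_ (Finset.sum_le_sum hterm)
  rw [Finset.sum_add_distrib, ← Finset.mul_sum, Finset.sum_ite_mem,
    Finset.inter_eq_right.2 Finset.subset_union_right, Finset.sum_const, nsmul_eq_mul, mul_one,
    Finset.card_image_of_injOn, hdeg]
  · have h1 : ∑ P ∈ T0, (ram χ P - 1) ≤
        ∑ P ∈ T0 ∪ F.image (rst (Fx τ).val hfin), (ram χ P - 1) := by
      apply Finset.sum_le_sum_of_subset_of_nonneg Finset.subset_union_left
      intro P _ _
      have := ram_pos hχ P
      omega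
    push_cast
    linarith
  · intro Q hQ Q' hQ' h
    exact fixed_unique hinv hne hfin (hF Q' hQ') h

end WildG
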