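import Pool.Agent.helper44.Gen.Hensel
import Pool.Agent.helper21.WV.CDefs

/-!
# Puiseux roots of `A(z) = c + τ ^ M` (helper44, MP_11236d_an, stage 3)
-/

namespace WildG

open Polynomial WildRat WildS WildV

/-- the constant coefficient -/
noncomputable abbrev cc : PS →+* ℂ := PowerSeries.constantCoeff

theorem cc_algebraMap (c : ℂ) : cc (algebraMap ℂ PS c) = c := by
  rw [PowerSeries.algebraMap_apply, Algebra.algebraMap_self, RingHom.id_apply]
  exact PowerSeries.constantCoeff_C c

theorem cc_aeval (f : PS) (p : ℂ[X]) : cc (aeval f p) = p.eval (cc f) := by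
  rw [aeval_def, hom_eval₂]
  have h : cc.comp (algebraMap ℂ PS) = RingHom.id ℂ := by
    ext c
    exact cc_algebraMap c
  rw [h]
  rfl

/-- The polynomial `P - c Q` divided by the power of `X - a`. -/
noncomputable def gg0 (A : RF) (c a : ℂ) : ℂ[X] :=
  (A.P - C c * A.Q) /ₘ (X - C a) ^ ((A.P - C c * A.Q).rootMultiplicity a)

theorem gg0_mul (A : RF) (c a : ℂ) :
    (X - C a) ^ ((A.P - C c * A.Q).rootMultiplicity a) * gg0 A c a = A.P - C c * A.Q :=
  pow_mul_divByMonic_rootMultiplicity_eq _ _

theorem gg0_eval {A : RF} (hn : 1 ≤ A.n) (c a : ℂ) : (gg0 A c a).eval a ≠ 0 :=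
  eval_divByMonic_pow_rootMultiplicity_ne_zero a (A.F_ne_zero hn (some c))

/-- The number whose roots are the leading coefficients of the Puiseux roots over `a`. -/
noncomputable def kap (A : RF) (c a : ℂ) : ℂ := A.Q.eval a / (gg0 A c a).eval a

theorem kap_ne {A : RF} (hn : 1 ≤ A.n) {c a : ℂ} (ha : a ∈ fC A c) : kap A c a ≠ 0 :=
  div_ne_zero ((mem_fC' hn).1 ha).1 (gg0_eval hn c a)

theorem e_pos {A : RF} (hn : 1 ≤ A.n) (a : ℂ) : 1 ≤ A.e (some a) := A.one_le_e hn _

/-- The argument `a + τ ^ m W`. -/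
noncomputable def argP (a : ℂ) (m : ℕ) : PS[X] :=
  C (PowerSeries.C a) + C (PowerSeries.X ^ m) * X

/-- The equation for the unit part of a Puiseux root. -/
noncomputable def HP (A : RF) (c a : ℂ) (m : ℕ) : PS[X] :=
  X ^ (A.e (some a)) * ((gg0 A c a).map (algebraMap ℂ PS)).comp (argP a m) -
    (A.Q.map (algebraMap ℂ PS)).comp (argP a m)

theorem argP_eval (a : ℂ) (m : ℕ) (w : PS) :
    (argP a m).eval w = PowerSeries.C a + PowerSeries.X ^ m * w := by
  unfold argP
  rw [eval_add, eval_C, eval_mul, eval_C, eval_X]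

theorem comp_eval (p : ℂ[X]) (a : ℂ) (m : ℕ) (w : PS) :
    ((p.map (algebraMap ℂ PS)).comp (argP a m)).eval w =
      aeval (PowerSeries.C a + PowerSeries.X ^ m * w) p := by
  rw [eval_comp, argP_eval, eval_map, aeval_def]

theorem HP_eval (A : RF) (c a : ℂ) (m : ℕ) (w : PS) :
    (HP A c a m).eval w = w ^ (A.e (some a)) *
      aeval (PowerSeries.C a + PowerSeries.X ^ m * w) (gg0 A c a) -
      aeval (PowerSeries.C a + PowerSeries.X ^ m * w) A.Q := by
  unfold HP
  rw [eval_sub, eval_mul, eval_pow, eval_X, comp_eval, comp_eval]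

theorem cc_arg {m : ℕ} (hm : 1 ≤ m) (a : ℂ) (w : PS) :
    cc (PowerSeries.C a + PowerSeries.X ^ m * w) = a := by
  have h0 : cc (PowerSeries.X ^ m : PS) = 0 := by
    rw [map_pow]
    have : cc (PowerSeries.X : PS) = 0 := PowerSeries.constantCoeff_X
    rw [this, zero_pow (by omega)]
  rw [map_add, map_mul, h0, zero_mul, add_zero]
  exact PowerSeries.constantCoeff_C a

/-- The Puiseux root with the leading coefficient `w0`. -/
theorem puiseux_root {A : RF} (hn : 1 ≤ A.n) {c a : ℂ} (ha : a ∈ fC A c) {m : ℕ} (hm : 1 ≤ m)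
    {w0 : ℂ} (hw : w0 ^ (A.e (some a)) = kap A c a) :
    ∃ w : PS, cc w = w0 ∧
      aeval (PowerSeries.C a + PowerSeries.X ^ m * w) A.P =
        (PowerSeries.C c + PowerSeries.X ^ (A.e (some a) * m)) *
          aeval (PowerSeries.C a + PowerSeries.X ^ m * w) A.Q := by
  have he := e_pos hn (A := A) a
  have hg := gg0_eval hn c a
  have hQ := ((mem_fC' hn).1 ha).1
  have hw0 : w0 ≠ 0 := by
    rintro rfl
    rw [zero_pow (by omega)] at hw
    exact kap_ne hn ha hw.symm
  have hwg : w0 ^ (A.e (some a)) * (gg0 A c a).eval a = A.Q.eval a := by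
    rw [hw]
    exact div_mul_cancel₀ _ hg
  obtain ⟨w, hcw, hev⟩ := hensel_ps (HP A c a m) hw0 (by
      rw [coeff_zero_eq_eval_zero, HP_eval, zero_pow (by omega), zero_mul, zero_sub, map_neg,
        cc_aeval, cc_arg hm]
      exact neg_ne_zero.2 hQ) (by
      rw [HP_eval, map_sub, map_mul, cc_aeval, cc_aeval, cc_arg hm, map_pow]
      have h1 : cc (PowerSeries.C w0) = w0 := PowerSeries.constantCoeff_C w0
      rw [h1, hwg, sub_self]) (by
      unfold HP
      rw [derivative_sub, derivative_mul, derivative_comp, derivative_comp, derivative_X_pow,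
        derivative_map, derivative_map]
      have h2 : derivative (argP a m) = C (PowerSeries.X ^ m) := by
        unfold argP
        rw [derivative_add, derivative_C, derivative_C_mul, derivative_X, zero_add, mul_one]
      rw [h2]
      simp only [eval_sub, eval_add, eval_mul, eval_C, eval_pow, eval_X, comp_eval]
      have h1 : cc (PowerSeries.C w0) = w0 := PowerSeries.constantCoeff_C w0
      have h3 : cc (PowerSeries.X ^ m : PS) = 0 := by
        rw [map_pow]
        have : cc (PowerSeries.X : PS) = 0 := PowerSeries.constantCoeff_X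
        rw [this, zero_pow (by omega)]
      rw [map_sub, map_add, map_mul, map_mul, map_mul, map_mul, map_mul, h3, zero_mul,
        zero_mul, mul_zero, add_zero, sub_zero, cc_aeval, cc_arg hm, map_pow, h1, map_natCast]
      refine mul_ne_zero (mul_ne_zero ?_ (pow_ne_zero _ hw0)) hg
      exact_mod_cast (by omega : A.e (some a) ≠ 0))
  refine ⟨w, hcw, ?_⟩
  rw [HP_eval] at hev
  set y : PS := PowerSeries.C a + PowerSeries.X ^ m * w with hy
  have h1 := congrArg (aeval y) (gg0_mul A c a)
  rw [← e_fC hn ha, map_mul, map_pow, map_sub, map_sub, map_mul, aeval_X, aeval_C, aeval_C] at h1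
  have h2 : y - algebraMap ℂ PS a = PowerSeries.X ^ m * w := by
    rw [hy, PowerSeries.algebraMap_apply, Algebra.algebraMap_self, RingHom.id_apply]
    ring
  have h3 : algebraMap ℂ PS c = PowerSeries.C c := by
    rw [PowerSeries.algebraMap_apply, Algebra.algebraMap_self, RingHom.id_apply]
  rw [h2, h3, mul_pow, ← pow_mul] at h1
  have h4 : w ^ A.e (some a) * aeval y (gg0 A c a) = aeval y A.Q := sub_eq_zero.1 hev
  rw [mul_assoc, h4, mul_comm m] at h1
  linear_combination -h1

end WildG
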